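import Pool.Agent.H82.STB.Gpc

/-!
# The natural velocities are in general position: frames

`gp_fr`: as `gp_cls`, for the natural velocities of the coordinates `c (ι l)` over a closed frame
whose sides are the thresholds up to `h`.
-/

set_option autoImplicit false

namespace Pool.STB82

open Finset Real
open Pool.Agent.H49.Ent Pool.Agent.H32.Dense Pool.STK Pool.KA Pool.KSAT Pool.K2S Pool.PB Pool.S6C
open Pool.GEN Pool.CHT Pool.CHX Pool.D2Con Pool.D2A Pool.D2F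
open Pool.LBT (ThrOf)

variable {m : ℕ}

/-- **General position of the natural velocities over a frame**, given a closed record. -/
theorem gp_fr {θ : ℝ} {S : PCl m} {P : List (Fin m) × Fin m → ℝ → ℝ → ℝ}
    (hP : ThrOf (chsys m θ) S P) (c : ℕ → Fin m) {r : ℕ} (ι : Fin r → ℕ) (hι : StrictMono ι)
    (hc : ∀ l, Set.InjOn c (Set.Iio (ι l + 1))) (I : ℕ) (hιI : ∀ l, ι l ≤ I) (a : ℚ) {h : ℝ}
    (ha : 0 < a) (ha1 : a ≤ 1) (hh : 0 < h)
    (h1 : ∀ l, bet P c (ι l) a a + h ≤ 1) (h2 : ((r : ℝ) + 1) * (6 * h) < θ * a) :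
    ∃ δ : ℝ, 0 < δ ∧ Bas S (fun J F A => ∀ (q : F.Ω → ℝ) (M : ℝ), IsLaw q → 0 ≤ M →
      (∀ ω, 0 < q ω → A ω) → (∀ ω, q ω * Pe F.p A ≤ M * F.p ω) →
      ∀ (a₀ k₀ e₀ : ℕ) (g : ℕ → ℕ) (ψ : PtT F → ℕ → Option (Fin m) → ℝ)
      (ψH : LnT F → ℕ → Option (Fin m) → ℝ),
      FrOK F c (I + 1) a₀ k₀ e₀ g (fun ω => 0 < q ω) ψ ψH →
      a₀ ≤ ⌊(a : ℝ) * J⌋₊ → (k₀ : ℝ) ≤ h * J → (e₀ : ℝ) ≤ h * J →
      (∀ l, bet P c (ι l) a a * J ≤ g (ι l) + h * J) →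
      (∀ j ≤ I, (g j : ℝ) + ((r : ℝ) + 1) * (6 * h) * J ≤ J) → (∀ j < I, k₀ + 1 ≤ g j) →
      ∀ (ζ : Type) (z : F.Ω → ζ) (w : F.Ω → Fin (r + 1) → ℝ) (N : ℕ),
      Det q (fun ω => ptr F J ω) z → Det q (slam F a₀) z →
      ((r : ℝ) + 1) * (6 * h) * J ≤ N →
      (∀ ω, 0 < q ω → ∀ l, |w ω l - Xv F c g a₀ ι ψ ω l| ≤ 1 / 2 ^ N) →
      NoHyp q w z (1 / 2 ^ N) (r * (M * Real.exp (-(δ * J))))) := by
  have haR : (0 : ℝ) < a := by exact_mod_cast ha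
  have hr0 : (0 : ℝ) ≤ r := Nat.cast_nonneg r
  have hrh : 0 < ((r : ℝ) + 1) * h := by positivity
  obtain ⟨δ, hδ, τ, hτ, J₁, H⟩ := hyp_cls hP c ι hι hc a (((r : ℝ) + 1) * (6 * h)) h ha.le ha1 h2
    hh h1
  obtain ⟨C, hC⟩ : ∃ C : ℕ, C = (r + 1) * (4 * I + r + 30) := ⟨_, rfl⟩
  obtain ⟨J₂, hJ₂⟩ := exists_nat_ge (((C : ℝ) + 2) / (((r : ℝ) + 1) * h))
  refine ⟨δ, hδ, τ, hτ, max J₁ J₂, ?_⟩
  intro J hJ F A hA q M hq hM hqA hqM a₀ k₀ e₀ g ψ ψH hfr haa hk he hg hgJ hgk ζ z w N hz1 hz2 hN hw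
  have hJ1 : J₁ ≤ J := (le_max_left _ _).trans hJ
  have hJ2 : (J₂ : ℝ) ≤ J := by exact_mod_cast (le_max_right _ _).trans hJ
  have hJ0 : (0 : ℝ) ≤ J := Nat.cast_nonneg J
  have hhJ : 0 ≤ h * J := by positivity
  -- the numbers
  obtain ⟨x, hx⟩ : ∃ x : ℝ, x = h * J := ⟨_, rfl⟩
  obtain ⟨s, hs⟩ : ∃ s, s = ⌊2 * h * J⌋₊ + 1 := ⟨_, rfl⟩
  obtain ⟨B, hB⟩ : ∃ B, B = s + 2 * k₀ + 2 * I + 8 := ⟨_, rfl⟩
  obtain ⟨v, hv⟩ : ∃ v, v = B + k₀ + r + 3 := ⟨_, rfl⟩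
  have hI0 : (0 : ℝ) ≤ I := Nat.cast_nonneg I
  have hrI : (0 : ℝ) ≤ r * I := mul_nonneg hr0 hI0
  have hrr : (0 : ℝ) ≤ (r : ℝ) * r := mul_nonneg hr0 hr0
  rw [← hx] at hhJ hk he hg
  have hsJ : (s : ℝ) ≤ 2 * x + 1 := by
    rw [hs, hx]
    push_cast
    have := Nat.floor_le (by positivity : (0 : ℝ) ≤ 2 * h * J)
    linarith
  have k1 : ((C : ℝ) + 2) ≤ ((r : ℝ) + 1) * x := by
    have := hJ₂.trans hJ2
    rw [div_le_iff₀ (by positivity)] at this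
    rw [hx]
    linarith
  have e3 : (C : ℝ) = r * (4 * I + r + 30) + (4 * I + r + 30) := by
    rw [hC]
    push_cast
    ring
  have hvJ : (v : ℝ) ≤ 5 * x + (2 * I + r + 12) := by
    rw [hv, hB]
    push_cast
    linarith
  have hrvJ : (r : ℝ) * v ≤ 5 * (r * x) + r * (2 * I + r + 12) := by
    have := mul_le_mul_of_nonneg_left hvJ hr0
    linarith
  have h6 : ((r : ℝ) + 1) * (6 * h) * J = 6 * (r * x) + 6 * x := by
    rw [hx]
    ring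
  rw [h6] at hN hgJ
  have k2 : (C : ℝ) + 2 ≤ r * x + x := by linarith
  have hN1 : (r + 1) * v ≤ N := by
    have e1 : (((r + 1) * v : ℕ) : ℝ) ≤ N := by
      refine le_trans ?_ hN
      push_cast
      nlinarith
    exact_mod_cast e1
  have hrv : r * v + v = (r + 1) * v := by ring
  have hee : e₀ + r * v + 2 * k₀ + s + 2 * (I + 1) + 4 ≤ ⌊((r : ℝ) + 1) * (6 * h) * J⌋₊ := by
    refine Nat.le_floor ?_
    rw [h6]
    push_cast
    nlinarith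
  obtain ⟨V, hV⟩ : ∃ V, V = s + r * v + k₀ + 3 * (I + 1) + 6 := ⟨_, rfl⟩
  have hVJ : (e₀ : ℝ) + V ≤ 6 * (r * x) + 6 * x := by
    rw [hV]
    push_cast
    nlinarith
  have hnum : ∀ l, NumL J (bet P c (ι l) a a + h) a (((r : ℝ) + 1) * (6 * h)) (ι l) (I + 1) a₀ e₀
      (r * v) k₀ s V (⌊(bet P c (ι l) a a + h) * J⌋₊) g := by
    intro l
    have hl := hιI l
    refine ⟨by omega, ?_, haa, ?_, ?_, fun j hj => ?_, fun l' hl' => hgk l' (by omega), ?_, ?_, ?_⟩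
    · refine haa.trans (Nat.floor_le_of_le ?_)
      have : (a : ℝ) ≤ 1 := by exact_mod_cast ha1
      nlinarith
    · refine le_trans ?_ hee
      omega
    · rw [hV]
      omega
    · have e5 : ((e₀ + g j + V : ℕ) : ℝ) ≤ J := by
        have := hgJ j (hj.trans hl)
        push_cast
        linarith
      exact_mod_cast e5
    · have f0 : (⌊(bet P c (ι l) a a + h) * J⌋₊ : ℝ) ≤ g (ι l) + s := by
        by_cases hneg : 0 ≤ (bet P c (ι l) a a + h) * (J : ℝ)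
        · have f1 := Nat.floor_le hneg
          have f2 := hg l
          have f3 := Nat.lt_floor_add_one (2 * h * (J : ℝ))
          have f5 : (s : ℝ) = (⌊2 * h * (J : ℝ)⌋₊ : ℝ) + 1 := by
            rw [hs]
            push_cast
            ring
          rw [f5]
          have f6 : (bet P c (ι l) a a + h) * (J : ℝ) = bet P c (ι l) a a * J + x := by
            rw [hx]
            ring
          have f7 : 2 * h * (J : ℝ) = 2 * x := by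
            rw [hx]
            ring
          rw [f7] at f3
          rw [f6] at f1
          rw [f7, f6]
          linarith
        · rw [Nat.floor_of_nonpos (by linarith)]
          push_cast
          positivity
      exact_mod_cast f0
    · refine Nat.floor_le_of_le ?_
      have := mul_le_mul_of_nonneg_right (h1 l) hJ0
      linarith
    · omega
  have key := H J hJ1 F A hA (I + 1) a₀ e₀ (r * v) k₀ s V
    (fun l => ⌊(bet P c (ι l) a a + h) * J⌋₊) g ψ ψH hnum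
    q M hq hM hqA hqM hfr ζ z w hz1 hz2 (1 / 2 ^ N) (1 / 2 ^ v)
    (1 / 2 ^ N) (by positivity) hw (by positivity)
    (by
      rw [div_le_one (by positivity)]
      exact one_le_pow₀ one_le_two) (by positivity) (by
      rw [div_pow, one_pow, ← pow_mul, mul_comm v r, one_div, inv_mul_cancel₀ (by positivity)])
  have hr2 : ((r : ℝ) + 1) ≤ 2 ^ r := by
    exact_mod_cast Nat.succ_le_of_lt (Nat.lt_two_pow_self (n := r))
  have hvk : (1 / 2 ^ v : ℝ) * 2 ^ k₀ * 2 ^ B = 1 / (2 ^ r * 8) := by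
    rw [hv, show B + k₀ + r + 3 = B + k₀ + (r + 3) by ring, pow_add, pow_add, pow_add]
    field_simp
    norm_num
  have h8 : ((r : ℝ) + 1) * (1 / (2 ^ r * 8)) ≤ 1 / 8 := by
    refine (mul_le_mul_of_nonneg_right hr2 (by positivity)).trans (le_of_eq ?_)
    field_simp
  have h9 : (1 : ℝ) / (2 ^ r * 8) ≤ 1 / 8 := by
    refine one_div_le_one_div_of_le (by norm_num) ?_
    have : (1 : ℝ) ≤ 2 ^ r := one_le_pow₀ one_le_two
    linarith
  have hk1 : (1 : ℝ) ≤ 2 ^ k₀ := one_le_pow₀ one_le_two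
  have hB1 : (1 : ℝ) ≤ 2 ^ B := one_le_pow₀ one_le_two
  have hv0 : (0 : ℝ) < 1 / 2 ^ v := by positivity
  have hNv : (1 : ℝ) / 2 ^ N ≤ 1 / 2 ^ v :=
    one_div_le_one_div_of_le (by positivity) (pow_le_pow_right₀ one_le_two (by nlinarith))
  have hvk1 : (1 / 2 ^ v : ℝ) ≤ 1 / 2 ^ v * 2 ^ k₀ := le_mul_of_one_le_right hv0.le hk1
  have hvk2 : (1 / 2 ^ v : ℝ) * 2 ^ k₀ ≤ 1 / (2 ^ r * 8) := by
    rw [← hvk]
    exact le_mul_of_one_le_right (by positivity) hB1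
  refine key ?_ ?_
  · have g5 : ((r : ℝ) + 1) * (1 / 2 ^ N + 1 / 2 ^ v * 2 ^ k₀) ≤
        ((r : ℝ) + 1) * (1 / (2 ^ r * 8) + 1 / (2 ^ r * 8)) :=
      mul_le_mul_of_nonneg_left (by linarith) (by positivity)
    have g6 : ((r : ℝ) + 1) * (1 / (2 ^ r * 8) + 1 / (2 ^ r * 8)) =
      ((r : ℝ) + 1) * (1 / (2 ^ r * 8)) + ((r : ℝ) + 1) * (1 / (2 ^ r * 8)) := by ring
    linarith
  · intro l
    have hl := hιI l
    have g0 : (2 : ℝ) ^ (2 * (ι l + 1) + 2 * k₀ + 6 + s) ≤ 2 ^ B :=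
      pow_le_pow_right₀ one_le_two (by omega)
    have e1 : (1 / 2 ^ v : ℝ) ^ r = 1 / 2 ^ (r * v) := by
      rw [div_pow, one_pow, ← pow_mul, mul_comm v r]
    have g1 : (1 : ℝ) / 2 ^ N / (1 / 2 ^ v) ^ r ≤ 1 / 2 ^ v := by
      rw [e1, div_div_eq_mul_div, div_one, one_div, inv_mul_le_iff₀ (by positivity), mul_one_div,
        le_div_iff₀ (by positivity), ← pow_add]
      exact pow_le_pow_right₀ one_le_two (by omega)
    have g5 : ((r : ℝ) + 1) * (1 / 2 ^ N / (1 / 2 ^ v) ^ r + 1 / 2 ^ v * 2 ^ k₀) +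
        1 / 2 ^ N / (1 / 2 ^ v) ^ r ≤ (2 * ((r : ℝ) + 1) + 1) * (1 / 2 ^ v * 2 ^ k₀) := by
      have := mul_le_mul_of_nonneg_left (g1.trans hvk1) (by linarith : (0 : ℝ) ≤ (r : ℝ) + 1)
      linarith
    have g6 : 0 ≤ ((r : ℝ) + 1) * (1 / 2 ^ N / (1 / 2 ^ v) ^ r + 1 / 2 ^ v * 2 ^ k₀) +
        1 / 2 ^ N / (1 / 2 ^ v) ^ r := by positivity
    refine (mul_le_mul g5 g0 (by positivity) (by positivity)).trans ?_
    have g7 : (2 * ((r : ℝ) + 1) + 1) * (1 / 2 ^ v * 2 ^ k₀) * 2 ^ B =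
        2 * (((r : ℝ) + 1) * (1 / (2 ^ r * 8))) + 1 / (2 ^ r * 8) := by
      rw [mul_assoc, hvk]
      ring
    rw [g7]
    linarith

end Pool.STB82
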