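import Pool.Agent.H98.STB.S
import Pool.Agent.H92.GN.Cl
import Pool.Agent.H82.STB.Gpf

/-!
# The chains of lines of a static class

`Fst`: the finest closed function. `mk_ChH`: the structure `ChH` for the records which are the finest
closed functions at a window and behind it, from the data of the lines and the positions and
polynomials which are closed on the event.
-/

set_option autoImplicit false

namespace Pool.STB82

open Finset Real
open Pool.Agent.H49.Ent Pool.Agent.H32.Dense Pool.STK Pool.KA Pool.KSAT Pool.K2S Pool.PB Pool.S6C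
open Pool.GEN Pool.CHT Pool.CHX Pool.D2Con Pool.D2A Pool.D2F Pool.RCD
open Pool.STB (ChH V3 Po Bx Hb cv val)
open Pool.BFL (Pb)
open Pool.LBT (ThrOf)

section Fst

variable {Ω α β α' V V' : Type}

/-- **A closed function which determines all others.** -/
structure Fst (f : Ω → α) (g : Ω → β) (A : Ω → Prop) (z : Ω → V) : Prop where
  cl : Cl2 f g A z
  fin : ∀ (V' : Type) (z' : Ω → V'), Cl2 f g A z' → ∀ ω ω', A ω → A ω' → z ω = z ω' → z' ω = z' ω'

theorem exists_fst (f : Ω → α) (g : Ω → β) (A : Ω → Prop) :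
    ∃ (V : Type) (z : Ω → V), Fst f g A z := by
  classical
  obtain ⟨R, hR⟩ : ∃ R : Ω → Ω → Prop, R = fun ω ω' =>
    A ω ∧ A ω' ∧ (f ω = f ω' ∨ g ω = g ω') := ⟨_, rfl⟩
  refine ⟨Option (Quot R), fun ω => some (Quot.mk R ω), ⟨⟨fun a => if h : ∃ ω, A ω ∧ f ω = a then
    some (Quot.mk R h.choose) else none, fun ω hω => ?_⟩, fun a => if h : ∃ ω, A ω ∧ g ω = a then
    some (Quot.mk R h.choose) else none, fun ω hω => ?_⟩, ?_⟩
  · have h : ∃ ω', A ω' ∧ f ω' = f ω := ⟨ω, hω, rfl⟩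
    simp only [dif_pos h]
    refine congrArg some (Quot.sound ?_)
    rw [hR]
    exact ⟨hω, h.choose_spec.1, Or.inl h.choose_spec.2.symm⟩
  · have h : ∃ ω', A ω' ∧ g ω' = g ω := ⟨ω, hω, rfl⟩
    simp only [dif_pos h]
    refine congrArg some (Quot.sound ?_)
    rw [hR]
    exact ⟨hω, h.choose_spec.1, Or.inr h.choose_spec.2.symm⟩
  · rintro V' z' ⟨⟨φ, hφ⟩, ψ, hψ⟩ ω ω' _ _ e
    have e1 : Quot.mk R ω = Quot.mk R ω' := Option.some.inj e
    have hl : ∀ a b, R a b → z' a = z' b := by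
      intro a b h
      rw [hR] at h
      obtain ⟨ha, hb, h | h⟩ := h
      · rw [hφ a ha, hφ b hb, h]
      · rw [hψ a ha, hψ b hb, h]
    exact congrArg (Quot.lift z' hl) e1

/-- A finer line: the coarser finest function is a function of the finer one. -/
theorem Fst.mono {f : Ω → α} {f' : Ω → α'} {g : Ω → β} {A : Ω → Prop} {z : Ω → V} {z' : Ω → V'}
    (h : Fst f g A z) (h' : Fst f' g A z') (hf : ∃ φ : α' → α, ∀ ω, A ω → f ω = φ (f' ω)) :
    ∀ ω ω', A ω → A ω' → z' ω = z' ω' → z ω = z ω' :=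
  h'.fin V z (h.cl.mono hf ⟨id, fun _ _ => rfl⟩)

/-- A function of the record with given values. -/
theorem Fst.fac {f : Ω → α} {g : Ω → β} {A : Ω → Prop} {z : Ω → V} (h : Fst f g A z)
    {z' : Ω → V'} (hc : Cl2 f g A z') (d : V') :
    ∃ φ : V → V', (∀ ω, A ω → φ (z ω) = z' ω) ∧ ∀ r, φ r = d ∨ ∃ ω, A ω ∧ φ r = z' ω := by
  classical
  refine ⟨fun r => if hr : ∃ ω, A ω ∧ z ω = r then z' hr.choose else d, fun ω hω => ?_, fun r => ?_⟩
  · have hr : ∃ ω', A ω' ∧ z ω' = z ω := ⟨ω, hω, rfl⟩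
    simp only [dif_pos hr]
    exact h.fin V' z' hc _ _ hr.choose_spec.1 hω hr.choose_spec.2
  · by_cases hr : ∃ ω, A ω ∧ z ω = r
    · refine Or.inr ⟨hr.choose, hr.choose_spec.1, ?_⟩
      simp only [dif_pos hr]
    · refine Or.inl ?_
      simp only [dif_neg hr]

/-- The finest closed function as a function of the point. -/
theorem exists_fst' (f : Ω → α) (g : Ω → β) (A : Ω → Prop) :
    ∃ (V : Type) (zp : β → V), Fst f g A (fun ω => zp (g ω)) := by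
  obtain ⟨V, z, hz⟩ := exists_fst f g A
  obtain ⟨⟨φ, hφ⟩, ψ, hψ⟩ := hz.cl
  refine ⟨V, ψ, ⟨⟨φ, fun ω hω => (hψ ω hω).symm.trans (hφ ω hω)⟩, ψ, fun ω _ => rfl⟩, ?_⟩
  intro V' z' hz' ω ω' hω hω' e
  exact hz.fin V' z' hz' ω ω' hω hω' (by rw [hψ ω hω, hψ ω' hω', e])

end Fst

variable {m J : ℕ}

/-- The line with a longer window is a function of the line with a shorter one. -/
theorem slam_coarse (F : Fam m J) {W W' : ℕ} (h : W ≤ W') (hJ : W' ≤ J) (A : F.Ω → Prop) :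
    ∃ φ : LnT F → LnT F, ∀ ω, A ω → slam F W ω = φ (slam F W' ω) := by
  refine ⟨fun s => (s.1, s.2.1, s.2.2 / 2 ^ (W' - W)), fun ω _ => ?_⟩
  have h1 := T1_div F (w := W) (K := W' - W) (by omega) ω
  rw [show W + (W' - W) = W' by omega] at h1
  show (F.l ω, F.Z ω, F.T1 W ω) = (F.l ω, F.Z ω, F.T1 W' ω / 2 ^ (W' - W))
  rw [h1]

/-- The digits of the time are closed. -/
theorem dg_cl2 (F : Fam m J) (W k : ℕ) (A : F.Ω → Prop) :
    Cl2 (slam F (W + k)) (fun ω => ptr F J ω) A (dg F W k) := by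
  refine ⟨⟨fun s => ((s.2.2 % 2 ^ k : ℕ) : ℤ), fun ω _ => rfl⟩, ?_⟩
  exact ⟨fun s => (((s.2.1 / 2 ^ (J - (W + k))) % 2 ^ k : ℕ) : ℤ), fun ω _ => rfl⟩

/-- Inclusion of laws. -/
theorem cond_pos_B {Ω : Type} [Fintype Ω] {p : Ω → ℝ} {B : Ω → Prop} {ω : Ω}
    (h : 0 < Pool.Agent.H49.Ent.cond p B True ω) : B ω := by
  unfold Pool.Agent.H49.Ent.cond at h
  split_ifs at h with h1
  · exact of_eq_true h1
  · exact absurd h (lt_irrefl _)

/-- Entropies of variables which are equal on the support. -/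
theorem ch_eq {Ω S T : Type} [Fintype Ω] {p : Ω → ℝ} (hp : ∀ ω, 0 ≤ p ω) {X X' : Ω → S}
    {Y Y' : Ω → T} (h1 : ∀ ω, 0 < p ω → X ω = X' ω) (h2 : ∀ ω, 0 < p ω → Y ω = Y' ω) :
    CH p X Y = CH p X' Y' := by
  refine CH_congr hp ?_ ?_ ?_ ?_
  · intro ω ω' a b h
    rw [← h1 ω a, ← h1 ω' b]
    exact (Prod.mk.inj h).1
  · intro ω ω' a b h
    rw [h1 ω a, h1 ω' b]
    exact (Prod.mk.inj h).1
  · intro ω ω' a b h
    rw [← h2 ω a, ← h2 ω' b]
    exact h
  · intro ω ω' a b h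
    rw [h2 ω a, h2 ω' b]
    exact h

/-- **The structure `ChH`** from the data of the lines and the closed data of the points. -/
theorem mk_ChH (F : Fam m J) {B : F.Ω → Prop} (hB : 0 < Pe F.p B) {W k b : ℕ} (hWk : W + k ≤ J)
    {Zt Yt 𝒟 : Type} {z : F.Ω → Zt} {y : F.Ω → Yt} (hz : Fst (slam F (W + k)) (fun ω => ptr F J ω) B z)
    (hy : Fst (slam F W) (fun ω => ptr F J ω) B y) {D : LnT F → 𝒟} {X : 𝒟 → V3} {Φ : 𝒟 → Po}
    {xo : F.Ω → V3} {Jo : F.Ω → Po} (hxo : Cl2 (slam F (W + k)) (fun ω => ptr F J ω) B xo)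
    (hJo : Cl2 (slam F (W + k)) (fun ω => ptr F J ω) B Jo) {K e h R η c : ℝ} (hK : 0 ≤ K)
    (full : Real.log (2 * ((2 ^ k : ℕ) : ℝ) + 1) - e ≤
      CH (Pool.Agent.H49.Ent.cond F.p B True) (dg F W k) (slam F W))
    (free : CH (Pool.Agent.H49.Ent.cond F.p B True) (fun ω => D (slam F W ω)) y - e ≤
      CH (Pool.Agent.H49.Ent.cond F.p B True) (fun ω => D (slam F W ω)) z)
    (X1 : ∀ d, Bx 1 (X d)) (Φ1 : ∀ d, Hb b 1 (Φ d)) (x1 : ∀ ω, B ω → Bx 1 (xo ω))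
    (J1 : ∀ ω, B ω → (Jo ω).totalDegree ≤ b ∧ ∀ q, Bx 1 q → |MvPolynomial.eval q (Jo ω)| ≤ K)
    (pos : ∀ ω ω', B ω → B ω' → slam F W ω = slam F W ω' →
      Bx (K / ((2 ^ k : ℕ) : ℝ)) (xo ω' - xo ω -
        (((dg F W k ω' : ℝ) - dg F W k ω) / ((2 ^ k : ℕ) : ℝ)) • X (D (slam F W ω))))
    (jet : ∀ ω ω', B ω → B ω' → slam F W ω = slam F W ω' → ∀ q, Bx 4 q →
      |(MvPolynomial.eval q (Jo ω') + MvPolynomial.eval (q - xo ω') (Φ (D (slam F W ω)))) -
        (MvPolynomial.eval q (Jo ω) + MvPolynomial.eval (q - xo ω) (Φ (D (slam F W ω))))| ≤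
          K / ((2 ^ k : ℕ) : ℝ))
    (nf : ∀ q : F.Ω → ℝ, IsLaw q → (∀ ω, q ω ≤ R * Pool.Agent.H49.Ent.cond F.p B True ω) →
      CH q (fun ω => ⌊((2 ^ k : ℕ) : ℝ) * MvPolynomial.eval (xo ω) (Jo ω)⌋)
        (fun ω => (cv (2 ^ k) (xo ω), y ω)) ≤ (1 - h) * Real.log ((2 ^ k : ℕ) : ℝ) + e)
    (gp : ∀ H : Zt → V3, (∀ r, Bx 1 (H r) ∧ ∃ i, |H r i| = 1) →
      Pb (Pool.Agent.H49.Ent.cond F.p B True)
        (fun ω => |∑ i, H (z ω) i * X (D (slam F W ω)) i| ≤ η) ≤ c) :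
    ∃ (x : Zt → V3) (Jz : Zt → Po), (∀ ω, B ω → x (z ω) = xo ω) ∧ (∀ ω, B ω → Jz (z ω) = Jo ω) ∧
      ChH (Pool.Agent.H49.Ent.cond F.p B True) (slam F W) z y (dg F W k) D X Φ x Jz b (2 ^ k)
        K e h R η c := by
  obtain ⟨x, hx, hx'⟩ := hz.fac hxo 0
  obtain ⟨Jz, hJ, hJ'⟩ := hz.fac hJo 0
  have hlaw := isLaw_cond F.isLaw hB
  have hBx0 : Bx 1 (0 : V3) := fun i => by simp
  refine ⟨x, Jz, hx, hJ, ?_⟩
  refine
    { law := hlaw
      yL := ?_
      yz := ?_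
      tz := ?_
      tM := ?_
      full := full
      free := free
      X1 := X1
      Φ1 := Φ1
      x1 := ?_
      J1 := ?_
      pos := ?_
      jet := ?_
      nf := ?_
      gp := gp }
  · intro ω ω' h1 h2 e1
    obtain ⟨⟨φ, hφ⟩, -⟩ := hy.cl
    rw [hφ ω (cond_pos_B h1), hφ ω' (cond_pos_B h2), e1]
  · intro ω ω' h1 h2 e1
    exact hy.mono hz (slam_coarse F (by omega) hWk B) ω ω' (cond_pos_B h1) (cond_pos_B h2) e1
  · intro ω ω' h1 h2 e1
    exact hz.fin _ _ (dg_cl2 F W k B) ω ω' (cond_pos_B h1) (cond_pos_B h2) e1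
  · intro ω _
    rw [abs_of_nonneg (dg_nonneg F W k ω)]
    push_cast
    exact (dg_lt F W k ω).le
  · intro r
    rcases hx' r with h1 | ⟨ω, h1, h2⟩
    · rw [h1]
      exact hBx0
    · rw [h2]
      exact x1 ω h1
  · intro r
    rcases hJ' r with h1 | ⟨ω, h1, h2⟩
    · rw [h1]
      refine ⟨by simp, fun q _ => ?_⟩
      rw [map_zero, abs_zero]
      exact hK
    · rw [h2]
      exact J1 ω h1
  · intro ω ω' h1 h2 e1
    rw [hx ω (cond_pos_B h1), hx ω' (cond_pos_B h2)]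
    exact pos ω ω' (cond_pos_B h1) (cond_pos_B h2) e1
  · intro ω ω' h1 h2 e1
    rw [hx ω (cond_pos_B h1), hx ω' (cond_pos_B h2), hJ ω (cond_pos_B h1), hJ ω' (cond_pos_B h2)]
    exact jet ω ω' (cond_pos_B h1) (cond_pos_B h2) e1
  · intro q hq hqR
    have hpos : ∀ ω, 0 < q ω → B ω := fun ω hω => by
      by_contra hn
      have h1 : Pool.Agent.H49.Ent.cond F.p B True ω = 0 := by
        unfold Pool.Agent.H49.Ent.cond
        rw [if_neg (fun h => hn (of_eq_true h))]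
      have h2 := hqR ω
      rw [h1, mul_zero] at h2
      linarith
    refine le_trans (le_of_eq ?_) (nf q hq hqR)
    refine ch_eq hq.nonneg ?_ ?_
    · intro ω hω
      show ⌊_ * MvPolynomial.eval (x (z ω)) (Jz (z ω))⌋ = _
      rw [hx ω (hpos ω hω), hJ ω (hpos ω hω)]
    · intro ω hω
      rw [hx ω (hpos ω hω)]

/-! ### Free data and full times -/

/-- A datum of the line with a long window, as a function of the line with a shorter one. -/
theorem lift_D (F : Fam m J) {W W' : ℕ} (h : W ≤ W') (hJ : W' ≤ J) {𝒟 : Type} (D : LnT F → 𝒟) :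
    ∃ D' : LnT F → 𝒟, ∀ ω, D' (slam F W' ω) = D (slam F W ω) := by
  obtain ⟨φ, hφ⟩ := slam_coarse F h hJ (fun _ => True)
  exact ⟨fun s => D (φ s), fun ω => by rw [hφ ω trivial]⟩

/-- **Free data**: a datum of a line with few values is free between the records at `W + i k` and at
`W + (i + 1) k`, for one `i < n`. -/
theorem free_win (F : Fam m J) {B : F.Ω → Prop} (hB : 0 < Pe F.p B) {n k W : ℕ} (hn : 0 < n)
    {𝒟 : Type} {D : F.Ω → 𝒟} (T : Finset 𝒟) (hT : ∀ ω, B ω → D ω ∈ T) :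
    ∃ i < n, ∀ (Y Z : Type) (y : F.Ω → Y) (z : F.Ω → Z),
      Fst (slam F (W + i * k)) (fun ω => ptr F J ω) B y →
      Fst (slam F (W + i * k + k)) (fun ω => ptr F J ω) B z →
      CH (Pool.Agent.H49.Ent.cond F.p B True) D y - Real.log T.card / n ≤
        CH (Pool.Agent.H49.Ent.cond F.p B True) D z := by
  classical
  have hlaw := isLaw_cond F.isLaw hB
  choose V Zc hZ using fun i => exists_fst (slam F (W + i * k)) (fun ω => ptr F J ω) B
  have h0 : CH (Pool.Agent.H49.Ent.cond F.p B True) D (Zc 0) ≤ Real.log T.card := by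
    refine (CH_le_card hlaw.nonneg hlaw.2 D (Zc 0) (fun _ => T) fun ω hω =>
      hT ω (cond_pos_B hω)).trans (le_of_eq ?_)
    exact Ex_const hlaw.2 _
  obtain ⟨i, hi, h1⟩ := free_pig hlaw D hn V Zc h0
  refine ⟨i, hi, fun Y Z y z hy hz => ?_⟩
  have h2 : CH (Pool.Agent.H49.Ent.cond F.p B True) D y ≤
      CH (Pool.Agent.H49.Ent.cond F.p B True) D (Zc i) := by
    refine CH_mono_cond hlaw.nonneg ?_
    intro ω ω' a b e1
    exact hy.fin _ _ (hZ i).cl ω ω' (cond_pos_B a) (cond_pos_B b) e1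
  have hZ1 := hZ (i + 1)
  rw [show W + (i + 1) * k = W + i * k + k by ring] at hZ1
  have h3 : CH (Pool.Agent.H49.Ent.cond F.p B True) D (Zc (i + 1)) ≤
      CH (Pool.Agent.H49.Ent.cond F.p B True) D z := by
    refine CH_mono_cond hlaw.nonneg ?_
    intro ω ω' a b e1
    exact hZ1.fin Z z hz.cl ω ω' (cond_pos_B a) (cond_pos_B b) e1
  linarith

/-- **Full times**, class form. -/
theorem full_cls {S : PCl m} (hS : TmH S) {ε : ℝ} (hε : 0 < ε) :
    Bas S (fun J F B => 0 < Pe F.p B ∧ ∀ W k : ℕ, W + k ≤ J →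
      Real.log (2 * ((2 ^ k : ℕ) : ℝ) + 1) - (ε * J + Real.log 3) ≤
        CH (Pool.Agent.H49.Ent.cond F.p B True) (dg F W k) (slam F W)) := by
  refine Bas.mono 0 (Pool.V1E.tmh_cond hS hε) ?_
  rintro J - F B ⟨hB, hT⟩
  refine ⟨hB, fun W k h => ?_⟩
  have h1 := full_dg F hB h (e := ε * J) hT
  have h2 : Real.log (2 * ((2 ^ k : ℕ) : ℝ) + 1) ≤ Real.log (3 * 2 ^ k) := by
    refine Real.log_le_log (by positivity) ?_
    push_cast
    have : (1 : ℝ) ≤ 2 ^ k := one_le_pow₀ one_le_two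
    linarith
  rw [Real.log_mul (by norm_num) (by positivity), Real.log_pow] at h2
  linarith

/-- General position in the form of `ChH`. -/
theorem gp_pb {Ω ζ : Type} [Fintype Ω] {p : Ω → ℝ} {d : ℕ} {X w : Ω → Fin d → ℝ} {z : Ω → ζ}
    {η ρ c : ℝ} (hp : ∀ ω, 0 ≤ p ω) (h : NoHyp p w z η c) (hρ : 0 < ρ)
    (hX : ∀ ω, 0 < p ω → X ω = ρ • w ω)
    (H : ζ → Fin d → ℝ) (hH : ∀ r, (∀ i, |H r i| ≤ 1) ∧ ∃ i, |H r i| = 1) :
    Pb p (fun ω => |∑ i, H (z ω) i * X ω i| ≤ ρ * η) ≤ c := by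
  classical
  refine le_trans (le_of_eq ?_) (h H fun ω _ => hH (z ω))
  unfold Pb law
  refine Finset.sum_congr rfl fun ω _ => ?_
  rcases (hp ω).eq_or_lt with h0 | h0
  · rw [← h0]
    simp
  · have e1 : (∑ i, H (z ω) i * X ω i) = ρ * ∑ i, H (z ω) i * w ω i := by
      rw [hX ω h0, Finset.mul_sum]
      refine Finset.sum_congr rfl fun i _ => ?_
      rw [Pi.smul_apply, smul_eq_mul]
      ring
    have e2 : (|∑ i, H (z ω) i * X ω i| ≤ ρ * η) ↔
        ((|∑ i, H (z ω) i * w ω i| ≤ η) = True) := by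
      rw [e1, abs_mul, abs_of_pos hρ, eq_iff_iff, iff_true]
      exact ⟨fun h2 => le_of_mul_le_mul_left h2 hρ, fun h2 => mul_le_mul_of_nonneg_left h2 hρ.le⟩
    by_cases h3 : (|∑ i, H (z ω) i * w ω i| ≤ η) = True
    · rw [if_pos (e2.2 h3), if_pos h3]
    · rw [if_neg (fun h4 => h3 (e2.1 h4)), if_neg h3]

end Pool.STB82
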