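import Pool.Agent.H24.D2.Vis
import Pool.Agent.H90.D2.Nrr
import Pool.Agent.H42.D2.Span
import Pool.Agent.H62.OVN.Ovc

/-!
# The natural velocities of two coordinates of slope one are in general position

`GDat`: the position of `c 0` and a polynomial for `c 1` are closed at the window `a₀`; the own
height of `c 1` over the polynomial moves along the line with the velocity `mu * v`. `gp_vis`: then
`(1, d (c 0), v)` is in no hyperplane which is a function of a closed record. No frame and no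
curvature is used, only that there are no visible labels which are constant along the lines.
-/

set_option autoImplicit false

namespace Pool.STB82

open Finset Real MvPolynomial
open Pool.Agent.H49.Ent Pool.Agent.H32.Dense Pool.STK Pool.KA Pool.KSAT Pool.K2S Pool.PB Pool.S6C
open Pool.GEN Pool.CHT Pool.VIS24 Pool.CHX Pool.D2F
open Pool.LBT (ThrOf)

variable {m : ℕ}

/-- The times of the samples of one line and window. -/
theorem t_slam {J : ℕ} (F : Fam m J) {a : ℕ} (ha : a ≤ J) {ω ω' : F.Ω}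
    (h : slam F a ω = slam F a ω') : |F.t ω' - F.t ω| ≤ 1 / 2 ^ a := by
  have h1 : F.T1 a ω = F.T1 a ω' := congrArg (fun s => s.2.2) h
  have h2 : F.T ω / 2 ^ (J - a) = F.T ω' / 2 ^ (J - a) := h1
  have e1 := Nat.div_add_mod (F.T ω) (2 ^ (J - a))
  have e2 := Nat.div_add_mod (F.T ω') (2 ^ (J - a))
  have m1 := Nat.mod_lt (F.T ω) (show 0 < 2 ^ (J - a) by positivity)
  have m2 := Nat.mod_lt (F.T ω') (show 0 < 2 ^ (J - a) by positivity)
  rw [← h2] at e2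
  have h3 : |(F.T ω' : ℝ) - F.T ω| ≤ 2 ^ (J - a) := by
    have f1 : (F.T ω' : ℝ) = 2 ^ (J - a) * (F.T ω / 2 ^ (J - a) : ℕ) +
        (F.T ω' % 2 ^ (J - a) : ℕ) := by exact_mod_cast e2.symm
    have f2 : (F.T ω : ℝ) = 2 ^ (J - a) * (F.T ω / 2 ^ (J - a) : ℕ) +
        (F.T ω % 2 ^ (J - a) : ℕ) := by exact_mod_cast e1.symm
    have f3 : ((F.T ω' % 2 ^ (J - a) : ℕ) : ℝ) < 2 ^ (J - a) := by exact_mod_cast m2
    have f4 : ((F.T ω % 2 ^ (J - a) : ℕ) : ℝ) < 2 ^ (J - a) := by exact_mod_cast m1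
    have f5 : (0 : ℝ) ≤ ((F.T ω' % 2 ^ (J - a) : ℕ) : ℝ) := Nat.cast_nonneg _
    have f6 : (0 : ℝ) ≤ ((F.T ω % 2 ^ (J - a) : ℕ) : ℝ) := Nat.cast_nonneg _
    rw [f1, f2, abs_le]
    constructor <;> linarith
  show |(F.T ω' : ℝ) / 2 ^ J - (F.T ω : ℝ) / 2 ^ J| ≤ _
  rw [← sub_div, abs_div, abs_of_pos (by positivity : (0 : ℝ) < 2 ^ J), div_le_div_iff₀
    (by positivity) (by positivity), one_mul]
  calc |(F.T ω' : ℝ) - F.T ω| * 2 ^ a ≤ 2 ^ (J - a) * 2 ^ a :=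
        mul_le_mul_of_nonneg_right h3 (by positivity)
    _ = 2 ^ J := by
        rw [← pow_add]
        congr 1
        omega

/-- The mean value inequality in one coordinate. -/
theorem mv_one {σ : Type} [Fintype σ] [DecidableEq σ] (P : MvPolynomial σ ℝ) (x : σ → ℝ) (k : σ)
    (δ : ℝ) {M : ℝ} (h : ∀ s : ℝ, |s| ≤ |δ| →
      |eval (Function.update x k (x k + s)) (pderiv k P)| ≤ M) :
    |eval (Function.update x k (x k + δ)) P - eval x P| ≤ M * |δ| := by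
  obtain ⟨v, hv⟩ : ∃ v : σ → ℝ, v = fun j => if j = k then δ else 0 := ⟨_, rfl⟩
  have hup : ∀ t : ℝ, (fun i => x i + t * v i) = Function.update x k (x k + t * δ) := by
    intro t
    funext i
    rw [hv]
    by_cases hi : i = k
    · subst hi
      rw [Function.update_self]
      simp
    · rw [Function.update_of_ne hi]
      simp [hi]
  have hd : ∀ t ∈ Set.Icc (0 : ℝ) 1, HasDerivWithinAt
      (fun s : ℝ => eval (fun i => x i + s * v i) P)
      (δ * eval (Function.update x k (x k + t * δ)) (pderiv k P)) (Set.Icc 0 1) t := by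
    intro t _
    have h1 := (Pool.OVN.hasDerivAt_lin62 P x v t).hasDerivWithinAt (s := Set.Icc (0 : ℝ) 1)
    have h2 : (∑ j, v j * eval (fun i => x i + t * v i) (pderiv j P)) =
        δ * eval (Function.update x k (x k + t * δ)) (pderiv k P) := by
      rw [Finset.sum_eq_single k]
      · rw [hup t, hv]
        simp
      · intro j _ hj
        rw [hv]
        simp [hj]
      · intro hk
        exact absurd (Finset.mem_univ k) hk
    rw [h2] at h1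
    exact h1
  have h3 := Convex.norm_image_sub_le_of_norm_hasDerivWithin_le (𝕜 := ℝ)
    (f := fun s : ℝ => eval (fun i => x i + s * v i) P)
    (f' := fun t => δ * eval (Function.update x k (x k + t * δ)) (pderiv k P))
    (C := M * |δ|) (s := Set.Icc (0 : ℝ) 1) (x := 0) (y := 1) hd ?_ (convex_Icc 0 1)
    (by simp) (by simp)
  · have e1 : (fun i => x i + v i) = Function.update x k (x k + δ) := by
      have := hup 1
      simpa only [one_mul] using this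
    simp only [zero_mul, add_zero, one_mul, sub_zero, norm_one, mul_one, Real.norm_eq_abs] at h3
    rw [e1] at h3
    exact h3
  · intro t ht
    rw [Real.norm_eq_abs, abs_mul, mul_comm]
    refine mul_le_mul_of_nonneg_right (h _ ?_) (abs_nonneg _)
    rw [abs_mul, abs_of_nonneg ht.1]
    exact mul_le_of_le_one_left (abs_nonneg _) ht.2

/-- **The data**: `b0` the position of `c 0`, `P1` the polynomial of `c 1`, both closed at `a₀`; the
height of `c 1` over `P1` moves along the line with the velocity `mu * v`. -/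
structure GDat {J : ℕ} (F : Fam m J) (c : ℕ → Fin m) (K a₀ e₁ g0 : ℕ) (mu ε V : ℝ)
    (B : F.Ω → Prop) (b0 : PtT F → ℝ) (b0' : LnT F → ℝ)
    (P1 : PtT F → MvPolynomial (Option (Fin m)) ℝ) (P1' : LnT F → MvPolynomial (Option (Fin m)) ℝ)
    (v : F.Ω → ℝ) : Prop where
  cb : ∀ ω, B ω → b0 (ptr F J ω) = b0' (slam F a₀ ω)
  nb : ∀ ω, B ω → |F.x ω (c 0) - b0 (ptr F J ω)| ≤ 1 / 2 ^ g0
  cP : ∀ ω, B ω → P1 (ptr F J ω) = P1' (slam F a₀ ω)
  degP : ∀ y, (P1 y).totalDegree ≤ K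
  depP : ∀ y, DepC c 1 (P1 y)
  lip : ∀ ω, B ω → ∀ b : Option (Fin m) → ℝ, |b none - F.t ω| ≤ 1 / 2 ^ a₀ →
    |b (some (c 0)) - b0 (ptr F J ω)| ≤ 2 / 2 ^ g0 →
    |eval b (pderiv (some (c 0)) (P1 (ptr F J ω)))| ≤ 2 ^ e₁
  vV : ∀ ω, B ω → |v ω| ≤ V
  dif : ∀ ω ω', B ω → B ω' → slam F a₀ ω = slam F a₀ ω' →
    |(F.x ω' (c 1) - eval (bt F ω') (P1 (ptr F J ω))) -
      (F.x ω (c 1) - eval (bt F ω) (P1 (ptr F J ω))) - mu * v ω * (F.t ω' - F.t ω)| ≤ ε

theorem GDat.sub {J : ℕ} {F : Fam m J} {c : ℕ → Fin m} {K a₀ e₁ g0 : ℕ} {mu ε V : ℝ}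
    {A B : F.Ω → Prop} {b0 : PtT F → ℝ} {b0' : LnT F → ℝ}
    {P1 : PtT F → MvPolynomial (Option (Fin m)) ℝ} {P1' : LnT F → MvPolynomial (Option (Fin m)) ℝ}
    {v : F.Ω → ℝ} (h : GDat F c K a₀ e₁ g0 mu ε V A b0 b0' P1 P1' v) (hB : Sub B A) :
    GDat F c K a₀ e₁ g0 mu ε V B b0 b0' P1 P1' v :=
  ⟨fun ω hω => h.cb ω (hB ω hω), fun ω hω => h.nb ω (hB ω hω), fun ω hω => h.cP ω (hB ω hω),
    h.degP, h.depP, fun ω hω => h.lip ω (hB ω hω), fun ω hω => h.vV ω (hB ω hω),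
    fun ω ω' h1 h2 => h.dif ω ω' (hB ω h1) (hB ω' h2)⟩

/-- The chain of the place `0` with a closed position. -/
theorem chok_zero {J : ℕ} {F : Fam m J} {c : ℕ → Fin m} {K a₀ e₀ g0 : ℕ} {B : F.Ω → Prop}
    {b0 : PtT F → ℝ} {b0' : LnT F → ℝ} (cb : ∀ ω, B ω → b0 (ptr F J ω) = b0' (slam F a₀ ω))
    (nb : ∀ ω, B ω → |F.x ω (c 0) - b0 (ptr F J ω)| ≤ 1 / 2 ^ g0) :
    ChOK F c 1 (fun _ => K) a₀ a₀ e₀ (fun _ => g0) B (fun y _ => C (b0 y))
      (fun s _ => C (b0' s)) := by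
  refine ⟨fun y i => ?_, fun s i => ?_, fun y i b b' _ _ => ?_, fun s i b b' _ _ => ?_,
    fun ω hω i hi => ?_, fun ω hω i hi b _ => ?_, fun ω hω i hi b _ l hl => absurd hl (by omega)⟩
  · rw [totalDegree_C]
    exact Nat.zero_le _
  · rw [totalDegree_C]
    exact Nat.zero_le _
  · rw [eval_C, eval_C]
  · rw [eval_C, eval_C]
  · have : i = 0 := by omega
    subst this
    rw [eval_C]
    exact nb ω hω
  · rw [eval_C, eval_C, cb ω hω, sub_self, abs_zero]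
    positivity

/-- The selection of a sample for each line and window. -/
theorem exists_sel {J : ℕ} {F : Fam m J} (a₀ : ℕ) {B : F.Ω → Prop} (hne : Nonempty F.Ω) :
    ∃ sel : LnT F → F.Ω, ∀ ω, B ω → B (sel (slam F a₀ ω)) ∧
      slam F a₀ (sel (slam F a₀ ω)) = slam F a₀ ω := by
  classical
  refine ⟨fun s => if h : ∃ ω, B ω ∧ slam F a₀ ω = s then h.choose else hne.some, fun ω hω => ?_⟩
  have h : ∃ ω', B ω' ∧ slam F a₀ ω' = slam F a₀ ω := ⟨ω, hω, rfl⟩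
  simp only [dif_pos h]
  exact h.choose_spec

variable {θ : ℝ} {S : PCl m} {P : List (Fin m) × Fin m → ℝ → ℝ → ℝ}

/-- **The direction of the first place** is not a function of a closed record. -/
theorem gp_vis0 (hP : ThrOf (chsys m θ) S P) (c : ℕ → Fin m) (a : ℚ) (h : ℝ)
    (ha0 : 0 < a) (ha : a ≤ 1) (hθ : 0 < θ) (hh : 0 < h) (h0 : bet P c 0 a a + h ≤ 1) :
    ∃ δ : ℝ, 0 < δ ∧ Bas S (fun J F A => ∀ (a₀ p0 : ℕ) (η : ℝ) (B : F.Ω → Prop)
      (zp : PtT F → ℝ) (zl : LnT F → ℝ), Sub B A → a₀ ≤ ⌊(a : ℝ) * J⌋₊ →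
      (∀ ω, B ω → zp (ptr F J ω) = zl (slam F a₀ ω)) →
      (∀ ω, B ω → |F.d ω (c 0) - zp (ptr F J ω)| ≤ η) → p0 ≤ J →
      ⌊(bet P c 0 a a + h) * J⌋₊ + a₀ ≤ p0 + ⌊(a : ℝ) * J⌋₊ →
      η / 2 ^ a₀ + 2 * (1 / 2 ^ J) ≤ 1 / 2 ^ p0 →
      Pe F.p B ≤ Real.exp (-(δ * J)) * Pe F.p A) := by
  classical
  have haR : (0 : ℝ) < a := by exact_mod_cast ha0
  obtain ⟨δ, hδ, hB⟩ := vis_ev hP c 0 1 a a 0 h ha0.le le_rfl ha (by positivity) hh h0
  refine ⟨δ, hδ, Bas.mono 0 hB ?_⟩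
  intro J _ F A hv a₀ p0 η B zp zl hBA haa hz hd hp0 hthr hnum
  by_cases hne : Nonempty F.Ω
  swap
  · have : Pe F.p B = 0 := by
      unfold Pe
      exact Finset.sum_eq_zero fun ω _ => (hne ⟨ω⟩).elim
    rw [this]
    exact mul_nonneg (Real.exp_pos _).le (Pe_nonneg F.isLaw _)
  obtain ⟨sel, hsel⟩ := exists_sel (F := F) a₀ (B := B) hne
  have haJ : a₀ ≤ J := by
    refine haa.trans (Nat.floor_le_of_le ?_)
    have h1 : (a : ℝ) ≤ 1 := by exact_mod_cast ha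
    have hJ0 : (0 : ℝ) ≤ J := Nat.cast_nonneg J
    nlinarith
  obtain ⟨Gi, hGi⟩ : ∃ Gi : PtT F → MvPolynomial (Option (Fin m)) ℝ, Gi = fun y =>
    C (bho J J y (some (c 0))) + C (zp y) * (X none - C (bho J J y none)) := ⟨_, rfl⟩
  have hev : ∀ y b, eval b (Gi y) = bho J J y (some (c 0)) + zp y * (b none - bho J J y none) := by
    intro y b
    rw [hGi]
    simp only [map_add, map_mul, map_sub, eval_C, eval_X]
  refine hv a₀ a₀ 0 p0 (fun _ => 0) (fun _ => 0) (fun _ _ => 0) (fun _ _ => 0) Gi le_rfl haa haa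
    (Nat.zero_le _) (fun _ => Nat.zero_le _) (fun l hl => absurd hl (Nat.not_lt_zero l)) hp0 hthr B
    hBA ?_ ?_ sel ?_
  · exact ⟨fun _ _ => by simp, fun _ _ => by simp, fun _ _ _ _ _ _ => by simp,
      fun _ _ _ _ _ _ => by simp, fun _ _ i hi => absurd hi (Nat.not_lt_zero i),
      fun _ _ i hi => absurd hi (Nat.not_lt_zero i), fun _ _ i hi => absurd hi (Nat.not_lt_zero i)⟩
  · refine ⟨fun y => ?_, fun y b b' hn _ => ?_, fun ω hω => ?_,
      fun ω hω b _ l hl => absurd hl (Nat.not_lt_zero l)⟩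
    · rw [hGi]
      refine (totalDegree_add _ _).trans (max_le (by rw [totalDegree_C]; exact Nat.zero_le _) ?_)
      refine (totalDegree_mul _ _).trans ?_
      rw [totalDegree_C, zero_add]
      refine (totalDegree_sub _ _).trans ?_
      rw [totalDegree_C, totalDegree_X]
      simp
    · rw [hev, hev, hn]
    · rw [hev]
      have h1 := hx_some F ω (c 0)
      have h2 : bho J J (ptr F J ω) none = bt F ω none := hx_none F ω
      rw [h2, sub_self, mul_zero, add_zero]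
      have h3 : |F.x ω (c 0) - bho J J (ptr F J ω) (some (c 0))| ≤ 1 / 2 ^ J := by
        rw [abs_sub_comm]
        exact h1
      refine h3.trans ?_
      exact one_div_le_one_div_of_le (by positivity) (pow_le_pow_right₀ one_le_two hp0)
  · intro ω hω b _
    obtain ⟨h1, h2⟩ := hsel ω hω
    obtain ⟨ω', hω'⟩ : ∃ ω', ω' = sel (slam F a₀ ω) := ⟨_, rfl⟩
    rw [← hω'] at h1 h2 ⊢
    have h3 : zp (ptr F J ω') = zp (ptr F J ω) := by rw [hz _ h1, hz _ hω, h2]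
    have h4 : bho J J (ptr F J ω) none = F.t ω := hx_none F ω
    have h5 : bho J J (ptr F J ω') none = F.t ω' := hx_none F ω'
    have h6 := hx_some F ω (c 0)
    have h7 := hx_some F ω' (c 0)
    have h8 : F.x ω' (c 0) = F.x ω (c 0) + (F.t ω' - F.t ω) * F.d ω (c 0) := by
      have := congrFun (slam_eq (F := F) h2.symm).2 (some (c 0))
      exact this
    have h9 := t_slam F haJ h2.symm
    have h10 := hd ω hω
    rw [hev, hev, h3, h4, h5]
    have h11 : bho J J (ptr F J ω) (some (c 0)) + zp (ptr F J ω) * (b none - F.t ω) -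
        (bho J J (ptr F J ω') (some (c 0)) + zp (ptr F J ω) * (b none - F.t ω')) =
        (hx F ω (some (c 0)) - bt F ω (some (c 0))) - (hx F ω' (some (c 0)) - bt F ω' (some (c 0)))
        - (F.d ω (c 0) - zp (ptr F J ω)) * (F.t ω' - F.t ω) := by
      have f1 : bt F ω (some (c 0)) = F.x ω (c 0) := rfl
      have f2 : bt F ω' (some (c 0)) = F.x ω' (c 0) := rfl
      have f3 : hx F ω (some (c 0)) = bho J J (ptr F J ω) (some (c 0)) := rfl
      have f4 : hx F ω' (some (c 0)) = bho J J (ptr F J ω') (some (c 0)) := rfl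
      rw [f1, f2, f3, f4, h8]
      ring
    rw [h11]
    have h12 : |(F.d ω (c 0) - zp (ptr F J ω)) * (F.t ω' - F.t ω)| ≤ η / 2 ^ a₀ := by
      rw [abs_mul, div_eq_mul_one_div]
      exact mul_le_mul h10 h9 (abs_nonneg _) ((abs_nonneg _).trans h10)
    have h13 := abs_sub (hx F ω (some (c 0)) - bt F ω (some (c 0)))
      (hx F ω' (some (c 0)) - bt F ω' (some (c 0)))
    have h14 := abs_sub ((hx F ω (some (c 0)) - bt F ω (some (c 0))) -
      (hx F ω' (some (c 0)) - bt F ω' (some (c 0)))) ((F.d ω (c 0) - zp (ptr F J ω)) *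
        (F.t ω' - F.t ω))
    linarith

/-- The polynomial at the rounded point. -/
theorem GDat.rnd {J : ℕ} {F : Fam m J} {c : ℕ → Fin m} {K a₀ e₁ g0 : ℕ} {mu ε V : ℝ}
    {B : F.Ω → Prop} {b0 : PtT F → ℝ} {b0' : LnT F → ℝ}
    {P1 : PtT F → MvPolynomial (Option (Fin m)) ℝ} {P1' : LnT F → MvPolynomial (Option (Fin m)) ℝ}
    {v : F.Ω → ℝ} (h : GDat F c K a₀ e₁ g0 mu ε V B b0 b0' P1 P1' v) (hg : g0 ≤ J) {ω : F.Ω}
    (hω : B ω) : |eval (hx F ω) (P1 (ptr F J ω)) - eval (bt F ω) (P1 (ptr F J ω))| ≤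
      2 ^ e₁ * (1 / 2 ^ J) := by
  obtain ⟨δ, hδ⟩ : ∃ δ, δ = hx F ω (some (c 0)) - bt F ω (some (c 0)) := ⟨_, rfl⟩
  have hδJ : |δ| ≤ 1 / 2 ^ J := by
    rw [hδ]
    exact hx_some F ω (c 0)
  have e1 : eval (hx F ω) (P1 (ptr F J ω)) = eval (Function.update (bt F ω) (some (c 0))
      (bt F ω (some (c 0)) + δ)) (P1 (ptr F J ω)) := by
    refine h.depP _ _ _ ?_ fun l hl => ?_
    · rw [Function.update_of_ne (by simp), hx_none]
    · have : l = 0 := by omega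
      subst this
      rw [Function.update_self, hδ]
      ring
  rw [e1]
  refine (mv_one (P1 (ptr F J ω)) (bt F ω) (some (c 0)) δ (M := 2 ^ e₁) fun s hs => ?_).trans
    (mul_le_mul_of_nonneg_left hδJ (by positivity))
  refine h.lip ω hω _ ?_ ?_
  · rw [Function.update_of_ne (by simp)]
    show |F.t ω - F.t ω| ≤ _
    rw [sub_self, abs_zero]
    positivity
  · rw [Function.update_self]
    have h1 := h.nb ω hω
    have h2 : bt F ω (some (c 0)) + s - b0 (ptr F J ω) = (F.x ω (c 0) - b0 (ptr F J ω)) + s := by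
      show F.x ω (c 0) + s - _ = _
      ring
    rw [h2]
    have h3 : (1 : ℝ) / 2 ^ J ≤ 1 / 2 ^ g0 :=
      one_div_le_one_div_of_le (by positivity) (pow_le_pow_right₀ one_le_two hg)
    refine (abs_add_le _ _).trans ?_
    have h4 : (2 : ℝ) / 2 ^ g0 = 1 / 2 ^ g0 + 1 / 2 ^ g0 := by ring
    rw [h4]
    linarith

/-- **The natural velocity of the second place** is not an affine function of the direction of the
first place which is a function of a closed record. -/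
theorem gp_vis1 (hP : ThrOf (chsys m θ) S P) (c : ℕ → Fin m) (K : ℕ) (a : ℚ) (e h : ℝ)
    (ha0 : 0 < a) (ha : a ≤ 1) (he : e < θ * a) (hh : 0 < h) (h0 : bet P c 1 a a + h ≤ 1) :
    ∃ δ : ℝ, 0 < δ ∧ Bas S (fun J F A => ∀ (a₀ e₁ e₂ g0 p1 : ℕ) (mu ε V Rb η : ℝ)
      (B : F.Ω → Prop) (b0 : PtT F → ℝ) (b0' : LnT F → ℝ)
      (P1 : PtT F → MvPolynomial (Option (Fin m)) ℝ)
      (P1' : LnT F → MvPolynomial (Option (Fin m)) ℝ) (v : F.Ω → ℝ) (al be : PtT F → ℝ)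
      (al' be' : LnT F → ℝ), Sub B A → a₀ ≤ ⌊(a : ℝ) * J⌋₊ →
      GDat F c K a₀ e₁ g0 mu ε V B b0 b0' P1 P1' v →
      (∀ ω, B ω → al (ptr F J ω) = al' (slam F a₀ ω)) →
      (∀ ω, B ω → be (ptr F J ω) = be' (slam F a₀ ω)) →
      (∀ ω, B ω → |be (ptr F J ω)| ≤ Rb) →
      (∀ ω, B ω → |v ω - al (ptr F J ω) - be (ptr F J ω) * F.d ω (c 0)| ≤ η) →
      g0 ≤ J → p1 ≤ J → ⌊(bet P c 1 a a + h) * J⌋₊ + a₀ ≤ p1 + ⌊(a : ℝ) * J⌋₊ →
      e₂ ≤ ⌊e * J⌋₊ → 0 ≤ mu → 2 ^ e₁ + mu * Rb ≤ 2 ^ e₂ →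
      ε + mu * (η / 2 ^ a₀) + 2 * ((1 + 2 ^ e₁ + mu * Rb) * (1 / 2 ^ J)) ≤ 1 / 2 ^ p1 →
      Pe F.p B ≤ Real.exp (-(δ * J)) * Pe F.p A) := by
  classical
  obtain ⟨δ, hδ, hB⟩ := vis_ev hP c 1 (K + 1) a a e h ha0.le le_rfl ha he hh h0
  refine ⟨δ, hδ, Bas.mono 0 hB ?_⟩
  intro J _ F A hv a₀ e₁ e₂ g0 p1 mu ε V Rb η B b0 b0' P1 P1' v al be al' be' hBA haa hG hal hbe
    hRb hη hg0 hp1 hthr he₂ hmu hmuR hnum
  by_cases hne : Nonempty F.Ω
  swap
  · have : Pe F.p B = 0 := by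
      unfold Pe
      exact Finset.sum_eq_zero fun ω _ => (hne ⟨ω⟩).elim
    rw [this]
    exact mul_nonneg (Real.exp_pos _).le (Pe_nonneg F.isLaw _)
  obtain ⟨sel, hsel⟩ := exists_sel (F := F) a₀ (B := B) hne
  have haJ : a₀ ≤ J := by
    refine haa.trans (Nat.floor_le_of_le ?_)
    have h1 : (a : ℝ) ≤ 1 := by exact_mod_cast ha
    have hJ0 : (0 : ℝ) ≤ J := Nat.cast_nonneg J
    nlinarith
  obtain ⟨yh, hyh⟩ : ∃ yh : PtT F → ℝ, yh = fun y =>
    bho J J y (some (c 1)) - eval (bho J J y) (P1 y) := ⟨_, rfl⟩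
  obtain ⟨Gi, hGi⟩ : ∃ Gi : PtT F → MvPolynomial (Option (Fin m)) ℝ, Gi = fun y =>
    P1 y + (C (yh y) + C mu * (C (al y) * (X none - C (bho J J y none)) +
      C (be y) * (X (some (c 0)) - C (bho J J y (some (c 0)))))) := ⟨_, rfl⟩
  have hev : ∀ y b, eval b (Gi y) = eval b (P1 y) + (yh y + mu * (al y * (b none -
      bho J J y none) + be y * (b (some (c 0)) - bho J J y (some (c 0))))) := by
    intro y b
    rw [hGi]
    simp only [map_add, map_mul, map_sub, eval_C, eval_X]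
  have hRb0 : ∀ ω, B ω → 0 ≤ Rb := fun ω hω => (abs_nonneg _).trans (hRb ω hω)
  have hJ0 : (0 : ℝ) < 1 / 2 ^ J := by positivity
  -- the rounded height
  have hyr : ∀ ω, B ω → |yh (ptr F J ω) - (F.x ω (c 1) - eval (bt F ω) (P1 (ptr F J ω)))| ≤
      (1 + 2 ^ e₁) * (1 / 2 ^ J) := by
    intro ω hω
    have h1 := hG.rnd hg0 hω
    have h2 := hx_some F ω (c 1)
    have h3 : yh (ptr F J ω) - (F.x ω (c 1) - eval (bt F ω) (P1 (ptr F J ω))) =
        (hx F ω (some (c 1)) - bt F ω (some (c 1))) -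
          (eval (hx F ω) (P1 (ptr F J ω)) - eval (bt F ω) (P1 (ptr F J ω))) := by
      rw [hyh]
      show hx F ω (some (c 1)) - eval (hx F ω) (P1 (ptr F J ω)) - _ = _
      show _ - _ - (bt F ω (some (c 1)) - _) = _
      ring
    rw [h3]
    refine (abs_sub _ _).trans ?_
    linarith
  have hnm := hnum
  refine hv a₀ a₀ e₂ p1 (fun _ => K) (fun _ => g0) (fun y _ => C (b0 y)) (fun s _ => C (b0' s)) Gi
    le_rfl haa haa he₂ (fun _ => Nat.le_succ K) (fun _ _ => hg0) hp1 hthr B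
    hBA (chok_zero hG.cb hG.nb) ?_ sel ?_
  · refine ⟨fun y => ?_, fun y b b' hn hb => ?_, fun ω hω => ?_, fun ω hω b hb l hl => ?_⟩
    · rw [hGi]
      refine (totalDegree_add _ _).trans (max_le ((hG.degP y).trans (Nat.le_succ K)) ?_)
      refine (totalDegree_add _ _).trans (max_le (by rw [totalDegree_C]; exact Nat.zero_le _) ?_)
      refine (totalDegree_mul _ _).trans ?_
      rw [totalDegree_C, zero_add]
      have h1 : ∀ (r s : ℝ) (o : Option (Fin m)), (C r * (X o - C s) :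
          MvPolynomial (Option (Fin m)) ℝ).totalDegree ≤ K + 1 := by
        intro r s o
        refine (totalDegree_mul _ _).trans ?_
        rw [totalDegree_C, zero_add]
        refine (totalDegree_sub _ _).trans ?_
        rw [totalDegree_C, totalDegree_X]
        simp
      exact (totalDegree_add _ _).trans (max_le (h1 _ _ _) (h1 _ _ _))
    · rw [hev, hev, hn, hb 0 one_pos, hG.depP y b b' hn hb]
    · rw [hev]
      have h1 := hyr ω hω
      have h2 := hx_some F ω (c 0)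
      have h3 : bho J J (ptr F J ω) none = bt F ω none := hx_none F ω
      have h4 : F.x ω (c 1) - (eval (bt F ω) (P1 (ptr F J ω)) + (yh (ptr F J ω) + mu *
          (al (ptr F J ω) * (bt F ω none - bho J J (ptr F J ω) none) + be (ptr F J ω) *
            (bt F ω (some (c 0)) - bho J J (ptr F J ω) (some (c 0)))))) =
          -(yh (ptr F J ω) - (F.x ω (c 1) - eval (bt F ω) (P1 (ptr F J ω)))) + mu *
            (be (ptr F J ω) * (hx F ω (some (c 0)) - bt F ω (some (c 0)))) := by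
        have f3 : hx F ω (some (c 0)) = bho J J (ptr F J ω) (some (c 0)) := rfl
        rw [h3, f3]
        ring
      rw [h4]
      refine (abs_add_le _ _).trans ?_
      rw [abs_neg, abs_mul, abs_of_nonneg hmu, abs_mul]
      have h5 : mu * (|be (ptr F J ω)| * |hx F ω (some (c 0)) - bt F ω (some (c 0))|) ≤
          mu * (Rb * (1 / 2 ^ J)) :=
        mul_le_mul_of_nonneg_left (mul_le_mul (hRb ω hω) h2 (abs_nonneg _) (hRb0 ω hω)) hmu
      have h6 : 0 ≤ ε := (abs_nonneg _).trans (hG.dif ω ω hω hω rfl)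
      have h7 : 0 ≤ η := (abs_nonneg _).trans (hη ω hω)
      have h8 : 0 ≤ mu * (η / 2 ^ a₀) := by positivity
      have h9 : 0 ≤ (1 + 2 ^ e₁ + mu * Rb) * (1 / 2 ^ J) :=
        mul_nonneg (by have := mul_nonneg hmu (hRb0 ω hω); positivity) hJ0.le
      nlinarith
    · have hl0 : l = 0 := by omega
      subst hl0
      have h1 : eval b (pderiv (some (c 0)) (Gi (ptr F J ω))) =
          eval b (pderiv (some (c 0)) (P1 (ptr F J ω))) + mu * be (ptr F J ω) := by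
        rw [hGi]
        simp only [map_add, map_sub, pderiv_C_mul, pderiv_C, pderiv_X_self, zero_add, sub_zero,
          map_mul, eval_C, mul_one]
        rw [pderiv_X_of_ne (by simp)]
        simp
      rw [h1]
      obtain ⟨hb1, hb2⟩ := hb
      have h2 := hG.lip ω hω b hb1 (by
        have := hb2 0 one_pos
        rw [eval_C] at this
        refine this.trans ?_
        exact div_le_div_of_nonneg_right (by norm_num) (by positivity))
      refine (abs_add_le _ _).trans ?_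
      rw [abs_mul, abs_of_nonneg hmu]
      have h3 := mul_le_mul_of_nonneg_left (hRb ω hω) hmu
      refine le_trans (by linarith) (hmuR.trans ?_)
      exact pow_le_pow_right₀ one_le_two (Nat.le_add_right _ _)
  · intro ω hω b _
    obtain ⟨h1, h2⟩ := hsel ω hω
    obtain ⟨ω', hω'⟩ : ∃ ω', ω' = sel (slam F a₀ ω) := ⟨_, rfl⟩
    rw [← hω'] at h1 h2 ⊢
    have hPs : P1 (ptr F J ω') = P1 (ptr F J ω) := by rw [hG.cP _ h1, hG.cP _ hω, h2]
    have h3 : al (ptr F J ω') = al (ptr F J ω) := by rw [hal _ h1, hal _ hω, h2]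
    have h3' : be (ptr F J ω') = be (ptr F J ω) := by rw [hbe _ h1, hbe _ hω, h2]
    have h4 : bho J J (ptr F J ω) none = F.t ω := hx_none F ω
    have h5 : bho J J (ptr F J ω') none = F.t ω' := hx_none F ω'
    have h6 := hx_some F ω (c 0)
    have h7 := hx_some F ω' (c 0)
    have h8 : F.x ω' (c 0) = F.x ω (c 0) + (F.t ω' - F.t ω) * F.d ω (c 0) := by
      have := congrFun (slam_eq (F := F) h2.symm).2 (some (c 0))
      exact this
    have h9 := t_slam F haJ h2.symm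
    have h10 := hη ω hω
    have h11 := hG.dif ω ω' hω h1 h2.symm
    have h12 := hyr ω hω
    have h13 := hyr ω' h1
    rw [hPs] at h13
    rw [hev, hev, hPs, h3, h3', h4, h5]
    obtain ⟨r, hr⟩ : ∃ r, r = yh (ptr F J ω) -
      (F.x ω (c 1) - eval (bt F ω) (P1 (ptr F J ω))) := ⟨_, rfl⟩
    obtain ⟨r', hr'⟩ : ∃ r', r' = yh (ptr F J ω') -
      (F.x ω' (c 1) - eval (bt F ω') (P1 (ptr F J ω))) := ⟨_, rfl⟩
    obtain ⟨s, hs⟩ : ∃ s, s = hx F ω (some (c 0)) - bt F ω (some (c 0)) := ⟨_, rfl⟩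
    obtain ⟨s', hs'⟩ : ∃ s', s' = hx F ω' (some (c 0)) - bt F ω' (some (c 0)) := ⟨_, rfl⟩
    rw [← hr] at h12
    rw [← hr'] at h13
    rw [← hs] at h6
    rw [← hs'] at h7
    have g1 : bho J J (ptr F J ω) (some (c 0)) = F.x ω (c 0) + s := by
      rw [hs]
      show _ = F.x ω (c 0) + (bho J J (ptr F J ω) (some (c 0)) - F.x ω (c 0))
      ring
    have g2 : bho J J (ptr F J ω') (some (c 0)) = F.x ω' (c 0) + s' := by
      rw [hs']
      show _ = F.x ω' (c 0) + (bho J J (ptr F J ω') (some (c 0)) - F.x ω' (c 0))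
      ring
    have g3 : yh (ptr F J ω) = (F.x ω (c 1) - eval (bt F ω) (P1 (ptr F J ω))) + r := by
      rw [hr]
      ring
    have g4 : yh (ptr F J ω') = (F.x ω' (c 1) - eval (bt F ω') (P1 (ptr F J ω))) + r' := by
      rw [hr']
      ring
    rw [g1, g2, g3, g4, h8]
    obtain ⟨dy, hdy⟩ : ∃ dy, dy = (F.x ω' (c 1) - eval (bt F ω') (P1 (ptr F J ω))) -
      (F.x ω (c 1) - eval (bt F ω) (P1 (ptr F J ω))) - mu * v ω * (F.t ω' - F.t ω) := ⟨_, rfl⟩
    rw [← hdy] at h11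
    have h14 : eval b (P1 (ptr F J ω)) + (F.x ω (c 1) - eval (bt F ω) (P1 (ptr F J ω)) + r + mu *
        (al (ptr F J ω) * (b none - F.t ω) + be (ptr F J ω) * (b (some (c 0)) -
          (F.x ω (c 0) + s)))) -
        (eval b (P1 (ptr F J ω)) + (F.x ω' (c 1) - eval (bt F ω') (P1 (ptr F J ω)) + r' + mu *
        (al (ptr F J ω) * (b none - F.t ω') + be (ptr F J ω) * (b (some (c 0)) -
          (F.x ω (c 0) + (F.t ω' - F.t ω) * F.d ω (c 0) + s'))))) =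
        -dy - mu * ((v ω - al (ptr F J ω) - be (ptr F J ω) * F.d ω (c 0)) * (F.t ω' - F.t ω)) +
          (r - r') + mu * (be (ptr F J ω) * (s' - s)) := by
      rw [hdy]
      ring
    rw [h14]
    have k1 : |mu * ((v ω - al (ptr F J ω) - be (ptr F J ω) * F.d ω (c 0)) *
        (F.t ω' - F.t ω))| ≤ mu * (η / 2 ^ a₀) := by
      rw [abs_mul, abs_of_nonneg hmu, abs_mul, div_eq_mul_one_div η]
      exact mul_le_mul_of_nonneg_left (mul_le_mul h10 h9 (abs_nonneg _)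
        ((abs_nonneg _).trans h10)) hmu
    have k2 : |mu * (be (ptr F J ω) * (s' - s))| ≤ mu * (Rb * (2 * (1 / 2 ^ J))) := by
      rw [abs_mul, abs_of_nonneg hmu, abs_mul]
      refine mul_le_mul_of_nonneg_left (mul_le_mul (hRb ω hω) ?_ (abs_nonneg _) (hRb0 ω hω)) hmu
      have := abs_sub s' s
      linarith
    have k3 : |r - r'| ≤ 2 * ((1 + 2 ^ e₁) * (1 / 2 ^ J)) := by
      have := abs_sub r r'
      linarith
    have k4 := abs_add_le (-dy - mu * ((v ω - al (ptr F J ω) - be (ptr F J ω) * F.d ω (c 0)) *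
      (F.t ω' - F.t ω)) + (r - r')) (mu * (be (ptr F J ω) * (s' - s)))
    have k5 := abs_add_le (-dy - mu * ((v ω - al (ptr F J ω) - be (ptr F J ω) * F.d ω (c 0)) *
      (F.t ω' - F.t ω))) (r - r')
    have k6 := abs_sub (-dy) (mu * ((v ω - al (ptr F J ω) - be (ptr F J ω) * F.d ω (c 0)) *
      (F.t ω' - F.t ω)))
    rw [abs_neg] at k6
    have k7 : 2 * ((1 + 2 ^ e₁ + mu * Rb) * (1 / 2 ^ J)) =
      2 * ((1 + 2 ^ e₁) * (1 / 2 ^ J)) + mu * (Rb * (2 * (1 / 2 ^ J))) := by ring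
    linarith

/-- The numbers of `gp_vis`. -/
structure GNum (J : ℕ) (β0 β1 : ℝ) (a : ℚ) (e : ℝ) (a₀ e₁ e₂ g0 p0 p1 N N0 : ℕ) (mu ε V : ℝ) :
    Prop where
  aa : a₀ ≤ ⌊(a : ℝ) * J⌋₊
  g0J : g0 ≤ J
  p0J : p0 ≤ J
  p1J : p1 ≤ J
  t0 : ⌊β0 * J⌋₊ + a₀ ≤ p0 + ⌊(a : ℝ) * J⌋₊
  t1 : ⌊β1 * J⌋₊ + a₀ ≤ p1 + ⌊(a : ℝ) * J⌋₊
  e2 : e₂ ≤ ⌊e * J⌋₊
  mu0 : 0 ≤ mu
  me : 2 ^ e₁ + mu * 2 ^ N0 ≤ 2 ^ e₂
  N01 : 1 ≤ N0
  V0 : 0 ≤ V
  n0 : 4 * (1 / 2 ^ N + V / 2 ^ N0) / 2 ^ a₀ + 2 * (1 / 2 ^ J) ≤ 1 / 2 ^ p0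
  sm : 1 / 2 ^ N + V / 2 ^ N0 ≤ 1 / 2
  n1 : ε + mu * (2 ^ N0 / 2 ^ N / 2 ^ a₀) + 2 * ((1 + 2 ^ e₁ + mu * 2 ^ N0) * (1 / 2 ^ J)) ≤
    1 / 2 ^ p1

/-- **General position of the velocities of two places of slope one**, given a closed record. -/
theorem gp_vis (hP : ThrOf (chsys m θ) S P) (c : ℕ → Fin m) (K : ℕ) (a : ℚ) (e h : ℝ)
    (ha0 : 0 < a) (ha : a ≤ 1) (hθ : 0 < θ) (he : e < θ * a) (hh : 0 < h)
    (h0 : bet P c 0 a a + h ≤ 1) (h1 : bet P c 1 a a + h ≤ 1) :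
    ∃ δ : ℝ, 0 < δ ∧ Bas S (fun J F A => ∀ (a₀ e₁ e₂ g0 p0 p1 N N0 : ℕ) (mu ε V : ℝ)
      (B : F.Ω → Prop) (b0 : PtT F → ℝ) (b0' : LnT F → ℝ)
      (P1 : PtT F → MvPolynomial (Option (Fin m)) ℝ)
      (P1' : LnT F → MvPolynomial (Option (Fin m)) ℝ) (v : F.Ω → ℝ), Sub B A →
      GNum J (bet P c 0 a a + h) (bet P c 1 a a + h) a e a₀ e₁ e₂ g0 p0 p1 N N0 mu ε V →
      GDat F c K a₀ e₁ g0 mu ε V B b0 b0' P1 P1' v →
      ∀ (ζ : Type) (zp : PtT F → ζ) (zl : LnT F → ζ),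
      (∀ ω, B ω → zp (ptr F J ω) = zl (slam F a₀ ω)) → ∀ n : ζ → Fin 3 → ℝ,
      (∀ ω, B ω → (∀ j, |n (zp (ptr F J ω)) j| ≤ 1) ∧ ∃ j, |n (zp (ptr F J ω)) j| = 1) →
      Pe F.p (fun ω => B ω ∧ |n (zp (ptr F J ω)) 0 + n (zp (ptr F J ω)) 1 * F.d ω (c 0) +
        n (zp (ptr F J ω)) 2 * v ω| ≤ 1 / 2 ^ N) ≤ 2 * Real.exp (-(δ * J)) * Pe F.p A) := by
  classical
  obtain ⟨δ₀, hδ₀, hB₀⟩ := gp_vis0 hP c a h ha0 ha hθ hh h0
  obtain ⟨δ₁, hδ₁, hB₁⟩ := gp_vis1 hP c K a e h ha0 ha he hh h1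
  refine ⟨min δ₀ δ₁, lt_min hδ₀ hδ₁, Bas.mono 0 (hB₀.and hB₁) ?_⟩
  rintro J - F A ⟨H0, H1⟩ a₀ e₁ e₂ g0 p0 p1 N N0 mu ε V B b0 b0' P1 P1' v hBA hN hG ζ zp zl hz n hn
  have hJ0 : (0 : ℝ) ≤ J := Nat.cast_nonneg J
  obtain ⟨E, hE⟩ : ∃ E : F.Ω → Prop, E = fun ω => |n (zp (ptr F J ω)) 0 +
    n (zp (ptr F J ω)) 1 * F.d ω (c 0) + n (zp (ptr F J ω)) 2 * v ω| ≤ 1 / 2 ^ N := ⟨_, rfl⟩
  obtain ⟨L, hL⟩ : ∃ L : F.Ω → Prop, L = fun ω => 1 / 2 ^ N0 ≤ |n (zp (ptr F J ω)) 2| := ⟨_, rfl⟩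
  have hN02 : (2 : ℝ) ≤ 2 ^ N0 := by
    calc (2 : ℝ) = 2 ^ 1 := (pow_one 2).symm
      _ ≤ _ := pow_le_pow_right₀ one_le_two hN.N01
  -- the second place
  have k1 : Pe F.p (fun ω => B ω ∧ E ω ∧ L ω) ≤ Real.exp (-(δ₁ * J)) * Pe F.p A := by
    refine H1 a₀ e₁ e₂ g0 p1 mu ε V (2 ^ N0) (2 ^ N0 / 2 ^ N) (fun ω => B ω ∧ E ω ∧ L ω) b0 b0' P1
      P1' v (fun y => -n (zp y) 0 / n (zp y) 2) (fun y => -n (zp y) 1 / n (zp y) 2)
      (fun s => -n (zl s) 0 / n (zl s) 2) (fun s => -n (zl s) 1 / n (zl s) 2)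
      (fun ω hω => hBA ω hω.1) hN.aa (hG.sub fun ω hω => hω.1)
      (fun ω hω => by rw [hz ω hω.1]) (fun ω hω => by rw [hz ω hω.1]) ?_ ?_ hN.g0J hN.p1J hN.t1
      hN.e2 hN.mu0 hN.me hN.n1
    · rintro ω ⟨hω, -, h3⟩
      rw [hL] at h3
      have h4 : 0 < |n (zp (ptr F J ω)) 2| := lt_of_lt_of_le (by positivity) h3
      rw [abs_div, abs_neg, div_le_iff₀ h4]
      have h5 := (hn ω hω).1 1
      rw [div_le_iff₀ (by positivity)] at h3
      linarith
    · rintro ω ⟨hω, h2, h3⟩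
      rw [hL] at h3
      rw [hE] at h2
      have h4 : 0 < |n (zp (ptr F J ω)) 2| := lt_of_lt_of_le (by positivity) h3
      have h4' : n (zp (ptr F J ω)) 2 ≠ 0 := abs_pos.1 h4
      have h5 : v ω - -n (zp (ptr F J ω)) 0 / n (zp (ptr F J ω)) 2 -
          -n (zp (ptr F J ω)) 1 / n (zp (ptr F J ω)) 2 * F.d ω (c 0) =
          (n (zp (ptr F J ω)) 0 + n (zp (ptr F J ω)) 1 * F.d ω (c 0) +
            n (zp (ptr F J ω)) 2 * v ω) / n (zp (ptr F J ω)) 2 := by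
        field_simp
        ring
      rw [h5, abs_div, div_le_div_iff₀ h4 (by positivity)]
      rw [div_le_iff₀ (by positivity)] at h3
      rw [le_div_iff₀ (by positivity)] at h2
      nlinarith [abs_nonneg (n (zp (ptr F J ω)) 0 + n (zp (ptr F J ω)) 1 * F.d ω (c 0) +
        n (zp (ptr F J ω)) 2 * v ω), h4]
  -- the first place
  have k0 : Pe F.p (fun ω => B ω ∧ E ω ∧ ¬ L ω) ≤ Real.exp (-(δ₀ * J)) * Pe F.p A := by
    refine H0 a₀ p0 (4 * (1 / 2 ^ N + V / 2 ^ N0)) (fun ω => B ω ∧ E ω ∧ ¬ L ω)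
      (fun y => -n (zp y) 0 / n (zp y) 1) (fun s => -n (zl s) 0 / n (zl s) 1)
      (fun ω hω => hBA ω hω.1) hN.aa (fun ω hω => by rw [hz ω hω.1]) ?_ hN.p0J hN.t0 hN.n0
    rintro ω ⟨hω, h2, h3⟩
    rw [hL] at h3
    rw [hE] at h2
    push Not at h3
    have h4 : |n (zp (ptr F J ω)) 0 + n (zp (ptr F J ω)) 1 * F.d ω (c 0)| ≤
        1 / 2 ^ N + V / 2 ^ N0 := by
      have h5 : n (zp (ptr F J ω)) 0 + n (zp (ptr F J ω)) 1 * F.d ω (c 0) =
          (n (zp (ptr F J ω)) 0 + n (zp (ptr F J ω)) 1 * F.d ω (c 0) +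
            n (zp (ptr F J ω)) 2 * v ω) - n (zp (ptr F J ω)) 2 * v ω := by ring
      rw [h5]
      refine (abs_sub _ _).trans (add_le_add h2 ?_)
      rw [abs_mul]
      have h6 := mul_le_mul h3.le (hG.vV ω hω) (abs_nonneg _) (by positivity)
      refine h6.trans (le_of_eq ?_)
      ring
    have hd1 : |F.d ω (c 0)| ≤ 1 := F.dir ω (c 0)
    have h7 : 1 / 4 ≤ |n (zp (ptr F J ω)) 1| := by
      by_contra hcon
      push Not at hcon
      obtain ⟨j, hj⟩ := (hn ω hω).2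
      have h8 : |n (zp (ptr F J ω)) 0| = 1 := by
        fin_cases j
        · exact hj
        · have : |n (zp (ptr F J ω)) 1| = 1 := hj
          linarith
        · have h9 : |n (zp (ptr F J ω)) 2| = 1 := hj
          rw [h9, lt_div_iff₀ (by positivity)] at h3
          linarith
      have h9 : |n (zp (ptr F J ω)) 1 * F.d ω (c 0)| ≤ 1 / 4 := by
        rw [abs_mul]
        calc _ ≤ 1 / 4 * 1 := mul_le_mul hcon.le hd1 (abs_nonneg _) (by norm_num)
          _ = _ := by norm_num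
      have h10 : |n (zp (ptr F J ω)) 0| ≤ |n (zp (ptr F J ω)) 0 + n (zp (ptr F J ω)) 1 *
          F.d ω (c 0)| + |n (zp (ptr F J ω)) 1 * F.d ω (c 0)| := by
        have h11 : n (zp (ptr F J ω)) 0 = (n (zp (ptr F J ω)) 0 + n (zp (ptr F J ω)) 1 *
          F.d ω (c 0)) - n (zp (ptr F J ω)) 1 * F.d ω (c 0) := by ring
        calc |n (zp (ptr F J ω)) 0| = |(n (zp (ptr F J ω)) 0 + n (zp (ptr F J ω)) 1 *
          F.d ω (c 0)) - n (zp (ptr F J ω)) 1 * F.d ω (c 0)| := congrArg _ h11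
          _ ≤ _ := abs_sub _ _
      have := hN.sm
      linarith
    have h4' : n (zp (ptr F J ω)) 1 ≠ 0 := abs_pos.1 (lt_of_lt_of_le (by norm_num) h7)
    have h5 : F.d ω (c 0) - -n (zp (ptr F J ω)) 0 / n (zp (ptr F J ω)) 1 =
        (n (zp (ptr F J ω)) 0 + n (zp (ptr F J ω)) 1 * F.d ω (c 0)) / n (zp (ptr F J ω)) 1 := by
      field_simp
      ring
    rw [h5, abs_div, div_le_iff₀ (abs_pos.2 h4')]
    have h6 : 0 ≤ 1 / 2 ^ N + V / 2 ^ N0 := (abs_nonneg _).trans h4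
    nlinarith
  have k2 : Pe F.p (fun ω => B ω ∧ E ω) ≤ Pe F.p (fun ω => B ω ∧ E ω ∧ L ω) +
      Pe F.p (fun ω => B ω ∧ E ω ∧ ¬ L ω) :=
    Pool.K2S.Pe_or F.isLaw fun ω hω => by
      by_cases h : L ω
      · exact Or.inl ⟨hω.1, hω.2, h⟩
      · exact Or.inr ⟨hω.1, hω.2, h⟩
  have hPA := Pe_nonneg F.isLaw A
  have e0 : Real.exp (-(δ₀ * J)) ≤ Real.exp (-(min δ₀ δ₁ * J)) := Real.exp_le_exp.2 (by
    have := mul_le_mul_of_nonneg_right (min_le_left δ₀ δ₁) hJ0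
    linarith)
  have e1 : Real.exp (-(δ₁ * J)) ≤ Real.exp (-(min δ₀ δ₁ * J)) := Real.exp_le_exp.2 (by
    have := mul_le_mul_of_nonneg_right (min_le_right δ₀ δ₁) hJ0
    linarith)
  have e2 := mul_le_mul_of_nonneg_right e0 hPA
  have e3 := mul_le_mul_of_nonneg_right e1 hPA
  rw [hE] at k2
  refine k2.trans ?_
  rw [hE] at k0 k1
  linarith

end Pool.STB82
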