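import Pool.Agent.H82.STB.Cls
import Pool.Agent.H82.STB.Gpv

/-!
# The chains of lines of a static class: one of the windows, without frames

`WinG`: general position at a window, for the records which are closed behind it. `chh_core`: if the
windows `W + i k`, `i < n`, have the data, then one of them has the structure `ChH`. `WinV`: the data of
`gp_vis` at a window. `chh_vis`: the class theorem with the data `WinV`.
-/

set_option autoImplicit false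

namespace Pool.STB82

open Finset Real
open Pool.Agent.H49.Ent Pool.Agent.H32.Dense Pool.STK Pool.KA Pool.KSAT Pool.K2S Pool.PB Pool.S6C
open Pool.GEN Pool.CHT Pool.CHX Pool.D2Con Pool.D2A Pool.D2F Pool.RCD
open Pool.STB (ChH V3 Po Bx Hb cv val)
open Pool.BFL (Pb)
open Pool.LBT (ThrOf)

variable {m : ℕ}

/-- **General position of the directions** for the records which are closed at `a₀`. -/
def WinG {J : ℕ} (F : Fam m J) (B : F.Ω → Prop) (a₀ : ℕ) {𝒟 : Type} (D : F.Ω → 𝒟) (X : 𝒟 → V3)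
    (η c₁ : ℝ) : Prop :=
  ∀ (Zt : Type) (zp : PtT F → Zt), Cl2 (slam F a₀) (fun ω => ptr F J ω) B
    (fun ω => zp (ptr F J ω)) → ∀ H : Zt → V3, (∀ r, Bx 1 (H r) ∧ ∃ i, |H r i| = 1) →
      Pb (Pool.Agent.H49.Ent.cond F.p B True)
        (fun ω => |∑ i, H (zp (ptr F J ω)) i * X (D ω) i| ≤ η) ≤ c₁

/-- **One of the windows.** -/
theorem chh_core {S : PCl m} (hS : TmH S) (n : ℕ) (hn : 0 < n) {ε : ℝ} (hε : 0 < ε) :
    Bas S (fun J F B => ∀ (W k b : ℕ) (𝒟 : Type) (D : LnT F → 𝒟) (X : 𝒟 → V3) (Φ : 𝒟 → Po)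
      (T : Finset 𝒟) (xo : ℕ → F.Ω → V3) (Jo : ℕ → F.Ω → Po) (K e h' R η c₁ : ℝ),
      0 ≤ K → (∀ ω, B ω → D (slam F W ω) ∈ T) → Real.log T.card / n ≤ e →
      ε * J + Real.log 3 ≤ e → (∀ d, Bx 1 (X d)) → (∀ d, Hb b 1 (Φ d)) → W + n * k ≤ J →
      (∀ i < n, WinD F B (W + i * k) k b (fun ω => D (slam F W ω)) X Φ (xo i) (Jo i) K) →
      (∀ i < n, WinN F B (W + i * k) k (xo i) (Jo i) e h' R) →
      (∀ i < n, WinG F B (W + i * k + k) (fun ω => D (slam F W ω)) X η c₁) →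
      ∃ i < n, ∃ (Zt Yt : Type) (zp : PtT F → Zt) (y : F.Ω → Yt) (D' : LnT F → 𝒟) (x : Zt → V3)
        (Jz : Zt → Po), Fst (slam F (W + i * k + k)) (fun ω => ptr F J ω) B
          (fun ω => zp (ptr F J ω)) ∧
        Fst (slam F (W + i * k)) (fun ω => ptr F J ω) B y ∧
        (∀ ω, D' (slam F (W + i * k) ω) = D (slam F W ω)) ∧
        (∀ ω, B ω → x (zp (ptr F J ω)) = xo i ω) ∧ (∀ ω, B ω → Jz (zp (ptr F J ω)) = Jo i ω) ∧
        ChH (Pool.Agent.H49.Ent.cond F.p B True) (slam F (W + i * k)) (fun ω => zp (ptr F J ω)) y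
          (dg F (W + i * k) k) D' X Φ x Jz b (2 ^ k) K e h' R η c₁) := by
  classical
  refine Bas.mono 0 (full_cls hS hε) ?_
  rintro J - F B ⟨hB, hfull⟩ W k b 𝒟 D X Φ T xo Jo K e h' R η c₁ hK hT hTe hεe X1 Φ1 hWJ hwd hwn hwg
  obtain ⟨i, hi, hfree⟩ := free_win F hB (n := n) (k := k) (W := W) hn T hT
  obtain ⟨Zt, zp, hz⟩ := exists_fst' (slam F (W + i * k + k)) (fun ω => ptr F J ω) B
  obtain ⟨Yt, y, hy⟩ := exists_fst (slam F (W + i * k)) (fun ω => ptr F J ω) B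
  have hJ : W + i * k + k ≤ J := by
    have h1 : (i + 1) * k ≤ n * k := Nat.mul_le_mul_right k hi
    have h2 : (i + 1) * k = i * k + k := by ring
    omega
  obtain ⟨D', hD'⟩ := lift_D F (W := W) (W' := W + i * k) (by omega) (by omega) D
  have hwi := hwd i hi
  have hgi := hwg i hi Zt zp hz.cl
  obtain ⟨x, Jz, hx, hJz, hch⟩ := mk_ChH F hB (W := W + i * k) (k := k) (b := b) hJ hz hy (D := D')
    (X := X) (Φ := Φ) (xo := xo i) (Jo := Jo i) hwi.cx hwi.cJ (K := K) (e := e) (h := h') (R := R)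
    (η := η) (c := c₁) hK
    ((by linarith [hfull (W + i * k) k hJ]) : _ ≤ CH (Pool.Agent.H49.Ent.cond F.p B True)
      (dg F (W + i * k) k) (slam F (W + i * k)))
    (by
      have h3 := hfree Yt Zt y (fun ω => zp (ptr F J ω)) hy hz
      simp_rw [hD']
      linarith) X1 Φ1 hwi.x1 hwi.J1
    (by
      intro ω ω' h3 h4 h5
      rw [hD']
      exact hwi.pos ω ω' h3 h4 h5)
    (by
      intro ω ω' h3 h4 h5
      rw [hD']
      exact hwi.jet ω ω' h3 h4 h5) (hwn i hi Yt y hy)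
    (by
      intro H hH
      have h3 := hgi H hH
      simp_rw [hD']
      exact h3)
  exact ⟨i, hi, Zt, Yt, zp, y, D', x, Jz, hz, hy, hD', hx, hJz, hch⟩

/-- **The data of `gp_vis` at the window** `a₀`, for the directions `X (D ω)` of size `ρ`. -/
structure WinV {J : ℕ} (F : Fam m J) (B : F.Ω → Prop) (c : ℕ → Fin m) (K : ℕ) (β0 β1 : ℝ) (a : ℚ)
    (e : ℝ) (a₀ : ℕ) {𝒟 : Type} (D : F.Ω → 𝒟) (X : 𝒟 → V3) (ρ η δ' : ℝ)
    (e₁ e₂ g0 p0 p1 N N0 : ℕ) (mu ε V : ℝ) (b0 : PtT F → ℝ) (b0' : LnT F → ℝ)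
    (P1 : PtT F → MvPolynomial (Option (Fin m)) ℝ)
    (P1' : LnT F → MvPolynomial (Option (Fin m)) ℝ) : Prop where
  ρ0 : 0 < ρ
  num : GNum J β0 β1 a e a₀ e₁ e₂ g0 p0 p1 N N0 mu ε V
  dat : GDat F c K a₀ e₁ g0 mu ε V B b0 b0' P1 P1' (fun ω => 1 / ρ * X (D ω) 2)
  x0 : ∀ ω, B ω → |1 / ρ * X (D ω) 0 - 1| ≤ δ'
  x1 : ∀ ω, B ω → |1 / ρ * X (D ω) 1 - F.d ω (c 0)| ≤ δ'
  eta : η / ρ + 2 * δ' ≤ 1 / 2 ^ N

theorem pb_pe {Ω : Type} [Fintype Ω] (p : Ω → ℝ) (E : Ω → Prop) : Pb p E = Pe p E := by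
  classical
  rw [Pe_eq]
  unfold Pb
  refine Finset.sum_congr rfl fun ω _ => ?_
  by_cases h : E ω
  · rw [if_pos h]
  · rw [if_neg h]

/-- **General position**, class form. -/
theorem wing_cls {θ : ℝ} {S : PCl m} {P : List (Fin m) × Fin m → ℝ → ℝ → ℝ}
    (hP : ThrOf (chsys m θ) S P) (c : ℕ → Fin m) (K : ℕ) (a : ℚ) (e h : ℝ)
    (ha0 : 0 < a) (ha : a ≤ 1) (hθ : 0 < θ) (he : e < θ * a) (hh : 0 < h)
    (h0 : bet P c 0 a a + h ≤ 1) (h1 : bet P c 1 a a + h ≤ 1) {c₁ : ℝ} (hc₁ : 0 < c₁) :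
    Bas S (fun J F B => ∀ (a₀ : ℕ) (𝒟 : Type) (D : F.Ω → 𝒟) (X : 𝒟 → V3) (ρ η δ' : ℝ)
      (e₁ e₂ g0 p0 p1 N N0 : ℕ) (mu ε V : ℝ) (b0 : PtT F → ℝ) (b0' : LnT F → ℝ)
      (P1 : PtT F → MvPolynomial (Option (Fin m)) ℝ)
      (P1' : LnT F → MvPolynomial (Option (Fin m)) ℝ), 0 < Pe F.p B →
      WinV F B c K (bet P c 0 a a + h) (bet P c 1 a a + h) a e a₀ D X ρ η δ' e₁ e₂ g0 p0 p1 N N0
        mu ε V b0 b0' P1 P1' → WinG F B a₀ D X η c₁) := by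
  classical
  obtain ⟨δ, hδ, hG⟩ := gp_vis hP c K a e h ha0 ha hθ he hh h0 h1
  obtain ⟨J₂, hJ₂⟩ := exists_nat_ge (Real.log (2 / c₁) / δ)
  refine Bas.mono J₂ hG ?_
  intro J hJ F B hg a₀ 𝒟 D X ρ η δ' e₁ e₂ g0 p0 p1 N N0 mu ε V b0 b0' P1 P1' hB hW Zt zp hz H hH
  obtain ⟨⟨φ, hφ⟩, -⟩ := hz
  have h3 := hg a₀ e₁ e₂ g0 p0 p1 N N0 mu ε V B b0 b0' P1 P1' _ (fun _ hω => hω) hW.num hW.dat Zt
    zp φ (fun ω hω => hφ ω hω) H (fun ω _ => hH _)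
  have h7 : Real.log (2 / c₁) ≤ δ * J := by
    have h8 : Real.log (2 / c₁) / δ ≤ J := hJ₂.trans (by exact_mod_cast hJ)
    rw [div_le_iff₀ hδ] at h8
    linarith
  have h9 : 2 / c₁ ≤ Real.exp (δ * J) := by
    rw [← Real.log_le_iff_le_exp (by positivity)]
    exact h7
  rw [div_le_iff₀ hc₁] at h9
  have h10 : 2 * Real.exp (-(δ * J)) ≤ c₁ := by
    rw [Real.exp_neg, ← div_eq_mul_inv, div_le_iff₀ (Real.exp_pos _)]
    linarith
  have h11 : Pb (Pool.Agent.H49.Ent.cond F.p B True)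
      (fun ω => |∑ i, H (zp (ptr F J ω)) i * X (D ω) i| ≤ η) * Pe F.p B ≤
      Pe F.p (fun ω => B ω ∧ |H (zp (ptr F J ω)) 0 + H (zp (ptr F J ω)) 1 * F.d ω (c 0) +
        H (zp (ptr F J ω)) 2 * (1 / ρ * X (D ω) 2)| ≤ 1 / 2 ^ N) := by
    have h12 : Pb (Pool.Agent.H49.Ent.cond F.p B True)
        (fun ω => |∑ i, H (zp (ptr F J ω)) i * X (D ω) i| ≤ η) =
        Pe (Pool.Agent.H49.Ent.cond F.p B True)
          (fun ω => |∑ i, H (zp (ptr F J ω)) i * X (D ω) i| ≤ η) := pb_pe _ _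
    rw [h12, Pe_cond, div_mul_cancel₀ _ hB.ne']
    refine Pe_mono F.isLaw fun ω h13 => ⟨h13.1, ?_⟩
    obtain ⟨h14, h15⟩ := h13
    have hb := (hH (zp (ptr F J ω))).1
    have e1 : H (zp (ptr F J ω)) 0 + H (zp (ptr F J ω)) 1 * F.d ω (c 0) +
        H (zp (ptr F J ω)) 2 * (1 / ρ * X (D ω) 2) =
        1 / ρ * (∑ i, H (zp (ptr F J ω)) i * X (D ω) i) -
          H (zp (ptr F J ω)) 0 * (1 / ρ * X (D ω) 0 - 1) -
          H (zp (ptr F J ω)) 1 * (1 / ρ * X (D ω) 1 - F.d ω (c 0)) := by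
      rw [Fin.sum_univ_three]
      ring
    rw [e1]
    have hρ := hW.ρ0
    have f1 : |1 / ρ * (∑ i, H (zp (ptr F J ω)) i * X (D ω) i)| ≤ η / ρ := by
      rw [abs_mul, abs_of_pos (by positivity : 0 < 1 / ρ), div_eq_inv_mul η, one_div]
      exact mul_le_mul_of_nonneg_left h15 (by positivity)
    have f2 : |H (zp (ptr F J ω)) 0 * (1 / ρ * X (D ω) 0 - 1)| ≤ δ' := by
      rw [abs_mul]
      calc _ ≤ 1 * δ' := mul_le_mul (hb 0) (hW.x0 ω h14) (abs_nonneg _) zero_le_one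
        _ = δ' := one_mul _
    have f3 : |H (zp (ptr F J ω)) 1 * (1 / ρ * X (D ω) 1 - F.d ω (c 0))| ≤ δ' := by
      rw [abs_mul]
      calc _ ≤ 1 * δ' := mul_le_mul (hb 1) (hW.x1 ω h14) (abs_nonneg _) zero_le_one
        _ = δ' := one_mul _
    have f4 := hW.eta
    have f5 := abs_sub (1 / ρ * (∑ i, H (zp (ptr F J ω)) i * X (D ω) i) -
      H (zp (ptr F J ω)) 0 * (1 / ρ * X (D ω) 0 - 1))
      (H (zp (ptr F J ω)) 1 * (1 / ρ * X (D ω) 1 - F.d ω (c 0)))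
    have f6 := abs_sub (1 / ρ * (∑ i, H (zp (ptr F J ω)) i * X (D ω) i))
      (H (zp (ptr F J ω)) 0 * (1 / ρ * X (D ω) 0 - 1))
    linarith
  have h12 : Pb (Pool.Agent.H49.Ent.cond F.p B True)
      (fun ω => |∑ i, H (zp (ptr F J ω)) i * X (D ω) i| ≤ η) * Pe F.p B ≤ c₁ * Pe F.p B :=
    h11.trans (h3.trans (mul_le_mul_of_nonneg_right h10 hB.le))
  exact le_of_mul_le_mul_right h12 hB

/-- **One of the windows**, class form. -/
theorem chh_vis {θ : ℝ} {S : PCl m} {P : List (Fin m) × Fin m → ℝ → ℝ → ℝ}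
    (hP : ThrOf (chsys m θ) S P) (hS : TmH S) (c : ℕ → Fin m) (K₁ : ℕ) (n : ℕ) (hn : 0 < n)
    (a : ℕ → ℚ) {e₀ h ε c₁ : ℝ} (ha : ∀ i < n, 0 < a i) (ha1 : ∀ i < n, a i ≤ 1) (hθ : 0 < θ)
    (he : ∀ i < n, e₀ < θ * a i) (hh : 0 < h)
    (h0 : ∀ i < n, bet P c 0 (a i) (a i) + h ≤ 1) (h1 : ∀ i < n, bet P c 1 (a i) (a i) + h ≤ 1)
    (hε : 0 < ε) (hc₁ : 0 < c₁) :
    Bas S (fun J F B => ∀ (W k b : ℕ) (𝒟 : Type) (D : LnT F → 𝒟) (X : 𝒟 → V3) (Φ : 𝒟 → Po)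
      (T : Finset 𝒟) (xo : ℕ → F.Ω → V3) (Jo : ℕ → F.Ω → Po) (K e h' R η : ℝ),
      0 ≤ K → (∀ ω, B ω → D (slam F W ω) ∈ T) → Real.log T.card / n ≤ e →
      ε * J + Real.log 3 ≤ e → (∀ d, Bx 1 (X d)) → (∀ d, Hb b 1 (Φ d)) → W + n * k ≤ J →
      (∀ i < n, WinD F B (W + i * k) k b (fun ω => D (slam F W ω)) X Φ (xo i) (Jo i) K) →
      (∀ i < n, WinN F B (W + i * k) k (xo i) (Jo i) e h' R) →
      (∀ i < n, ∃ (ρ δ' : ℝ) (e₁ e₂ g0 p0 p1 N N0 : ℕ) (mu ε' V : ℝ) (b0 : PtT F → ℝ)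
        (b0' : LnT F → ℝ) (P1 : PtT F → MvPolynomial (Option (Fin m)) ℝ)
        (P1' : LnT F → MvPolynomial (Option (Fin m)) ℝ),
        WinV F B c K₁ (bet P c 0 (a i) (a i) + h) (bet P c 1 (a i) (a i) + h) (a i) e₀
          (W + i * k + k) (fun ω => D (slam F W ω)) X ρ η δ' e₁ e₂ g0 p0 p1 N N0 mu ε' V b0 b0'
          P1 P1') →
      ∃ i < n, ∃ (Zt Yt : Type) (zp : PtT F → Zt) (y : F.Ω → Yt) (D' : LnT F → 𝒟) (x : Zt → V3)
        (Jz : Zt → Po), Fst (slam F (W + i * k + k)) (fun ω => ptr F J ω) B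
          (fun ω => zp (ptr F J ω)) ∧
        Fst (slam F (W + i * k)) (fun ω => ptr F J ω) B y ∧
        (∀ ω, D' (slam F (W + i * k) ω) = D (slam F W ω)) ∧
        (∀ ω, B ω → x (zp (ptr F J ω)) = xo i ω) ∧ (∀ ω, B ω → Jz (zp (ptr F J ω)) = Jo i ω) ∧
        ChH (Pool.Agent.H49.Ent.cond F.p B True) (slam F (W + i * k)) (fun ω => zp (ptr F J ω)) y
          (dg F (W + i * k) k) D' X Φ x Jz b (2 ^ k) K e h' R η c₁) := by
  have hg : Bas S _ := Bas.all n fun i hi => wing_cls hP c K₁ (a i) e₀ h (ha i hi) (ha1 i hi) hθ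
    (he i hi) hh (h0 i hi) (h1 i hi) hc₁
  refine Bas.mono 0 ((chh_core hS n hn hε).and (hg.and (full_cls hS hε))) ?_
  rintro J - F B ⟨H1, H2, hB, -⟩ W k b 𝒟 D X Φ T xo Jo K e h' R η hK hT hTe hεe X1 Φ1 hWJ hwd hwn
    hwv
  refine H1 W k b 𝒟 D X Φ T xo Jo K e h' R η c₁ hK hT hTe hεe X1 Φ1 hWJ hwd hwn fun i hi => ?_
  obtain ⟨ρ, δ', e₁, e₂, g0, p0, p1, N, N0, mu, ε', V, b0, b0', P1, P1', h⟩ := hwv i hi
  exact H2 i hi (W + i * k + k) 𝒟 _ X ρ η δ' e₁ e₂ g0 p0 p1 N N0 mu ε' V b0 b0' P1 P1' hB h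

end Pool.STB82
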