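import Pool.Agent.H65.STB.Pos
import Pool.Agent.H82.STB.Gpv
import Pool.Agent.H82.STB.Cls2
import Pool.Agent.H82.NVT.Var
import Pool.Agent.H40.BFL.MKO
import Pool.Agent.H73.D2.Tlr

/-!
# The positions of two places of slope one, in natural units

`hgP`: the relative time, the coordinate `c 0` and the height of `c 1` over a closed polynomial, along
a line, as polynomials of the relative time of a window. `inp_ev`, `inp_cls`: the input `InpP` of
`pos_ev` on a large sub-event. `winV_of`: the data `WinV` of the general position of the directions at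
the windows. `gnum_of`: the numbers.
-/

set_option autoImplicit false

namespace Pool.STB82

open Finset Real MvPolynomial
open Pool.Agent.H49.Ent Pool.Agent.H32.Dense Pool.STK Pool.KA Pool.KSAT Pool.K2S Pool.PB Pool.S6C
open Pool.GEN Pool.CHT Pool.CHX Pool.D2F
open Pool.STB (V3 Po Bx)
open Pool.STB65 (InpP PosO)
open Pool.PB.Trl (rt rt_mem t_rt)
open Pool.FLF (Fam.sub)

variable {m J : ℕ}

/-- The time, as a polynomial of the relative time. -/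
noncomputable def tmP {F : Fam m J} (w : ℕ) (s : LnT F) : Polynomial ℝ :=
  Polynomial.C ((s.2.2 : ℝ) / 2 ^ w) + Polynomial.C (1 / 2 ^ w) * Polynomial.X

/-- The line, as polynomials of the relative time. -/
noncomputable def lnP {F : Fam m J} (w : ℕ) (s : LnT F) : Option (Fin m) → Polynomial ℝ
  | none => tmP w s
  | some k => Polynomial.C (s.1.1 k) + Polynomial.C (s.1.2 k) * tmP w s

/-- The line, as polynomials of the time. -/
noncomputable def lnA {F : Fam m J} (s : LnT F) : Option (Fin m) → Polynomial ℝ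
  | none => Polynomial.X
  | some k => Polynomial.C (s.1.1 k) + Polynomial.C (s.1.2 k) * Polynomial.X

/-- **The positions along a line**, in natural units of the window `w`. -/
noncomputable def hgP {F : Fam m J} (c : ℕ → Fin m) (w g1 : ℕ)
    (P : LnT F → MvPolynomial (Option (Fin m)) ℝ) (s : LnT F) : Fin 3 → Polynomial ℝ :=
  ![Polynomial.X, Polynomial.C (2 ^ w) * lnP w s (some (c 0)),
    Polynomial.C (2 ^ g1) * (lnP w s (some (c 1)) - aeval (lnP w s) (P s))]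

/-- The positions of the samples. -/
noncomputable def yv (F : Fam m J) (c : ℕ → Fin m) (w g1 : ℕ)
    (P : LnT F → MvPolynomial (Option (Fin m)) ℝ) (ω : F.Ω) : V3 :=
  ![rt F w ω, 2 ^ w * F.x ω (c 0), 2 ^ g1 * (F.x ω (c 1) - eval (bt F ω) (P (slam F w ω)))]

/-- The visible positions. -/
noncomputable def yp (F : Fam m J) (c : ℕ → Fin m) (w g1 : ℕ)
    (Pv : PtT F → MvPolynomial (Option (Fin m)) ℝ) (y : PtT F) : V3 :=
  ![((y.2.1 % 2 ^ (J - w) : ℕ) : ℝ) / ((2 ^ (J - w) : ℕ) : ℝ), 2 ^ w * bho J J y (some (c 0)),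
    2 ^ g1 * (bho J J y (some (c 1)) - eval (bho J J y) (Pv y))]

theorem lnP_eval (F : Fam m J) {w : ℕ} (hw : w ≤ J) (ω : F.Ω) (o : Option (Fin m)) :
    (lnP w (slam F w ω) o).eval (rt F w ω) = bt F ω o := by
  have h1 := t_rt F hw ω
  have h2 : (tmP w (slam F w ω)).eval (rt F w ω) = F.t ω := by
    unfold tmP
    simp only [Polynomial.eval_add, Polynomial.eval_mul, Polynomial.eval_C, Polynomial.eval_X]
    rw [h1]
    ring
  cases o with
  | none => exact h2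
  | some k =>
    show (Polynomial.C _ + Polynomial.C _ * tmP w (slam F w ω)).eval _ = _
    simp only [Polynomial.eval_add, Polynomial.eval_mul, Polynomial.eval_C]
    rw [h2]
    show F.u ω k + F.d ω k * F.t ω = F.x ω k
    show _ = F.u ω k + F.t ω * F.d ω k
    ring

theorem eval_aevalP {σ : Type} (g : σ → Polynomial ℝ) (P : MvPolynomial σ ℝ) (x : ℝ) :
    (aeval g P).eval x = eval (fun o => (g o).eval x) P := by
  have h1 := MvPolynomial.eval₂_comp_left (Polynomial.evalRingHom x) (algebraMap ℝ (Polynomial ℝ)) g P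
  rw [MvPolynomial.aeval_def]
  rw [show (Polynomial.eval x) (MvPolynomial.eval₂ (algebraMap ℝ (Polynomial ℝ)) g P) =
    (Polynomial.evalRingHom x) (MvPolynomial.eval₂ (algebraMap ℝ (Polynomial ℝ)) g P) from rfl, h1]
  rw [MvPolynomial.eval, MvPolynomial.coe_eval₂Hom]
  congr 1
  ext r
  simp

/-- The height of `c 1` over the closed polynomial, as a polynomial of the time. -/
noncomputable def QA {F : Fam m J} (c : ℕ → Fin m) (P : LnT F → MvPolynomial (Option (Fin m)) ℝ)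
    (s : LnT F) : Polynomial ℝ := lnA s (some (c 1)) - aeval (lnA s) (P s)

theorem tmP_eval {F : Fam m J} (w : ℕ) (s : LnT F) (τ : ℝ) :
    (tmP w s).eval τ = ((s.2.2 : ℝ) + τ) / 2 ^ w := by
  unfold tmP
  simp only [Polynomial.eval_add, Polynomial.eval_mul, Polynomial.eval_C, Polynomial.eval_X]
  ring

theorem lnP_lnA {F : Fam m J} (w : ℕ) (s : LnT F) (τ : ℝ) (o : Option (Fin m)) :
    (lnP w s o).eval τ = (lnA s o).eval (((s.2.2 : ℝ) + τ) / 2 ^ w) := by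
  cases o with
  | none =>
    show (tmP w s).eval τ = (Polynomial.X : Polynomial ℝ).eval _
    rw [tmP_eval, Polynomial.eval_X]
  | some k =>
    show (Polynomial.C _ + Polynomial.C _ * tmP w s).eval τ =
      (Polynomial.C _ + Polynomial.C _ * Polynomial.X).eval _
    simp only [Polynomial.eval_add, Polynomial.eval_mul, Polynomial.eval_C, Polynomial.eval_X]
    rw [tmP_eval]

theorem hgP_two {F : Fam m J} (c : ℕ → Fin m) (w g1 : ℕ)
    (P : LnT F → MvPolynomial (Option (Fin m)) ℝ) (s : LnT F) (τ : ℝ) :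
    (hgP c w g1 P s 2).eval τ = 2 ^ g1 * (QA c P s).eval (((s.2.2 : ℝ) + τ) / 2 ^ w) := by
  show (Polynomial.C (2 ^ g1) * (lnP w s (some (c 1)) - aeval (lnP w s) (P s))).eval τ = _
  rw [Polynomial.eval_mul, Polynomial.eval_C, Polynomial.eval_sub, eval_aevalP, lnP_lnA]
  unfold QA
  rw [Polynomial.eval_sub, eval_aevalP]
  congr 3
  congr 1
  funext o
  exact lnP_lnA w s τ o

theorem lnA_deg {F : Fam m J} (s : LnT F) (o : Option (Fin m)) : (lnA s o).natDegree ≤ 1 := by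
  cases o with
  | none => exact Polynomial.natDegree_X_le
  | some k =>
    show (Polynomial.C _ + Polynomial.C _ * Polynomial.X).natDegree ≤ 1
    rw [add_comm]
    exact Polynomial.natDegree_linear_le

theorem lnP_deg {F : Fam m J} (w : ℕ) (s : LnT F) (o : Option (Fin m)) :
    (lnP w s o).natDegree ≤ 1 := by
  have h1 : (tmP w s).natDegree ≤ 1 := by
    unfold tmP
    rw [add_comm]
    exact Polynomial.natDegree_linear_le
  cases o with
  | none => exact h1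
  | some k =>
    show (Polynomial.C _ + Polynomial.C _ * tmP w s).natDegree ≤ 1
    refine (Polynomial.natDegree_add_le _ _).trans (max_le (by rw [Polynomial.natDegree_C]; omega) ?_)
    exact (Polynomial.natDegree_C_mul_le _ _).trans h1

theorem QA_deg {F : Fam m J} (c : ℕ → Fin m) {K : ℕ}
    {P : LnT F → MvPolynomial (Option (Fin m)) ℝ} (hP : ∀ s, (P s).totalDegree ≤ K) (s : LnT F) :
    (QA c P s).natDegree ≤ K + 1 := by
  unfold QA
  refine (Polynomial.natDegree_sub_le _ _).trans (max_le ((lnA_deg s _).trans (by omega)) ?_)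
  have h1 := natDegree_aeval_mul (P s) (lnA s) (E := 1) (lnA_deg s) (hP s)
  omega

theorem hgP_deg {F : Fam m J} (c : ℕ → Fin m) (w g1 : ℕ) {K : ℕ}
    {P : LnT F → MvPolynomial (Option (Fin m)) ℝ} (hP : ∀ s, (P s).totalDegree ≤ K) (s : LnT F)
    (j : Fin 3) : (hgP c w g1 P s j).natDegree ≤ K + 1 := by
  fin_cases j
  · exact Polynomial.natDegree_X_le.trans (by omega)
  · exact (Polynomial.natDegree_C_mul_le _ _).trans ((lnP_deg w s _).trans (by omega))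
  · refine (Polynomial.natDegree_C_mul_le _ _).trans ?_
    refine (Polynomial.natDegree_sub_le _ _).trans (max_le ((lnP_deg w s _).trans (by omega)) ?_)
    have h1 := natDegree_aeval_mul (P s) (lnP w s) (E := 1) (lnP_deg w s) (hP s)
    omega

theorem hgP_d1 {F : Fam m J} (c : ℕ → Fin m) (W₀ g1 : ℕ)
    (P : LnT F → MvPolynomial (Option (Fin m)) ℝ) (ω : F.Ω) (τ : ℝ) :
    (Polynomial.derivative (hgP c W₀ g1 P (slam F W₀ ω) 1)).eval τ = F.d ω (c 0) := by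
  show (Polynomial.derivative (Polynomial.C ((2 : ℝ) ^ W₀) * (Polynomial.C _ + Polynomial.C _ *
    tmP W₀ (slam F W₀ ω)))).eval τ = _
  unfold tmP
  simp only [Polynomial.derivative_mul, Polynomial.derivative_add, Polynomial.derivative_C,
    Polynomial.derivative_X, Polynomial.eval_mul, Polynomial.eval_C, zero_mul, zero_add, mul_one]
  show 2 ^ W₀ * (F.d ω (c 0) * (1 / 2 ^ W₀)) = _
  field_simp

/-- **The input of `pos_ev`**, on a quarter of the samples. -/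
theorem inp_ev (m K : ℕ) : ∃ C₁ : ℝ, 1 ≤ C₁ ∧ ∀ {J : ℕ} {F : Fam m J} (c : ℕ → Fin m)
    (W₀ d k n g1 e1 x s : ℕ) (θ Y : ℝ) (A : F.Ω → Prop)
    (Pv : PtT F → MvPolynomial (Option (Fin m)) ℝ) (P : LnT F → MvPolynomial (Option (Fin m)) ℝ),
    0 < Pe F.p A → W₀ ≤ J →
    (∀ (B' : F.Ω → Prop) (hB' : 0 < Pe F.p B'), Sub B' A → Pe F.p A ≤ 2 * Pe F.p B' →
      (Fam.sub F B' hB').Tm θ) → 0 ≤ θ → C₁ * (θ + 1) ≤ ((J : ℝ) - W₀) * Real.log 2 →
    C₁ * (θ + 1) ≤ s → (∀ s, (P s).totalDegree ≤ K) →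
    (∀ y, DepC c 1 (Pv y)) → (∀ ω, A ω → Pv (ptr F J ω) = P (slam F W₀ ω)) →
    (∀ ω, A ω → ∀ r : ℝ, |r| ≤ 1 / 2 ^ J → |eval (Function.update (bt F ω) (some (c 0))
      (bt F ω (some (c 0)) + r)) (pderiv (some (c 0)) (Pv (ptr F J ω)))| ≤ 2 ^ e1) →
    (∀ ω, A ω → |F.x ω (c 1) - eval (bt F ω) (Pv (ptr F J ω))| ≤ 2 ^ x / 2 ^ g1) →
    C₁ * 2 ^ (s + x) ≤ Y → g1 + e1 + 1 + d + n * k ≤ J → W₀ + d + n * k ≤ J →
    ∃ B : F.Ω → Prop, Sub B A ∧ Pe F.p A / 4 ≤ Pe F.p B ∧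
      InpP F B W₀ d k n (K + 1) Y (yv F c W₀ g1 P) (yp F c W₀ g1 Pv) (hgP c W₀ g1 P) := by
  classical
  obtain ⟨C₁, hC₁, hcrv⟩ := Pool.NVX.crv m (K + 1)
  obtain ⟨C₂, hC₂, hmk⟩ := Pool.Agent.H40.BFL.unit_markov (K + 1)
  refine ⟨max C₁ C₂, hC₁.trans (le_max_left _ _), ?_⟩
  intro J F c W₀ d k n g1 e1 x s θ Y A Pv P hA hwJ hTm hθ hn1 hn2 hdeg hdep hcl hlip hnear hY hJ1 hJ2
  have hθ1 : 0 ≤ θ + 1 := by linarith
  have hm1 : C₁ * (θ + 1) ≤ max C₁ C₂ * (θ + 1) :=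
    mul_le_mul_of_nonneg_right (le_max_left _ _) hθ1
  obtain ⟨B, hBA, hBP, hB⟩ := hcrv (F := F) (w := W₀) (s := s) (A := A) (M := 2 ^ x / 2 ^ g1)
    (QA c P) hA hwJ (QA_deg c hdeg) hTm hθ (hm1.trans hn1) (hm1.trans hn2) (by positivity)
    (fun ω hω => by
      have h1 := hnear ω hω
      rw [hcl ω hω] at h1
      have h2 : (QA c P (slam F W₀ ω)).eval (F.t ω) =
          F.x ω (c 1) - eval (bt F ω) (P (slam F W₀ ω)) := by
        unfold QA
        rw [Polynomial.eval_sub, eval_aevalP]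
        have h3 : ∀ o, (lnA (slam F W₀ ω) o).eval (F.t ω) = bt F ω o := by
          intro o
          cases o with
          | none =>
            show (Polynomial.X : Polynomial ℝ).eval (F.t ω) = F.t ω
            exact Polynomial.eval_X
          | some k =>
            show (Polynomial.C _ + Polynomial.C _ * Polynomial.X).eval (F.t ω) = _
            simp only [Polynomial.eval_add, Polynomial.eval_mul, Polynomial.eval_C,
              Polynomial.eval_X]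
            show F.u ω k + F.d ω k * F.t ω = F.u ω k + F.t ω * F.d ω k
            ring
        rw [h3]
        have h4 : (fun o => (lnA (slam F W₀ ω) o).eval (F.t ω)) = bt F ω := funext h3
        rw [h4]
        rfl
      rw [h2]
      exact h1)
  refine ⟨B, hBA, hBP, ?_, ?_, ?_, ?_⟩
  · exact fun s j => hgP_deg c W₀ g1 hdeg s j
  · intro ω hω j
    fin_cases j
    · show rt F W₀ ω = (Polynomial.X : Polynomial ℝ).eval (rt F W₀ ω)
      rw [Polynomial.eval_X]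
    · show 2 ^ W₀ * F.x ω (c 0) = (Polynomial.C (2 ^ W₀) * lnP W₀ (slam F W₀ ω)
        (some (c 0))).eval (rt F W₀ ω)
      rw [Polynomial.eval_mul, Polynomial.eval_C, lnP_eval F hwJ]
      rfl
    · show 2 ^ g1 * (F.x ω (c 1) - eval (bt F ω) (P (slam F W₀ ω))) = (Polynomial.C (2 ^ g1) *
        (lnP W₀ (slam F W₀ ω) (some (c 1)) - aeval (lnP W₀ (slam F W₀ ω))
          (P (slam F W₀ ω)))).eval (rt F W₀ ω)
      rw [Polynomial.eval_mul, Polynomial.eval_C, Polynomial.eval_sub, eval_aevalP,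
        lnP_eval F hwJ]
      have h3 : (fun o => (lnP W₀ (slam F W₀ ω) o).eval (rt F W₀ ω)) = bt F ω := by
        funext o
        exact lnP_eval F hwJ ω o
      rw [h3]
      rfl
  · intro ω hω j τ hτ
    have hY1 : 1 ≤ Y := by
      have h1 : (1 : ℝ) ≤ 2 ^ (s + x) := one_le_pow₀ (by norm_num)
      have h2 : (1 : ℝ) ≤ max C₁ C₂ := hC₁.trans (le_max_left _ _)
      nlinarith
    fin_cases j
    · show |(Polynomial.derivative (Polynomial.X : Polynomial ℝ)).eval τ| ≤ Y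
      rw [Polynomial.derivative_X, Polynomial.eval_one, abs_one]
      exact hY1
    · show |(Polynomial.derivative (hgP c W₀ g1 P (slam F W₀ ω) 1)).eval τ| ≤ Y
      rw [hgP_d1]
      exact (F.dir ω (c 0)).trans hY1
    · refine (hmk (hgP c W₀ g1 P (slam F W₀ ω) 2) (2 ^ (s + x)) (hgP_deg c W₀ g1 hdeg _ _)
        (fun t ht => ?_) τ hτ).trans ?_
      · rw [hgP_two, abs_mul, abs_of_pos (by positivity : (0 : ℝ) < 2 ^ g1)]
        have h1 := hB ω hω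
        have h2 := Pool.NVX.le_wmx (w := W₀) (n := (slam F W₀ ω).2.2) (P := QA c P (slam F W₀ ω))
          (t := (((slam F W₀ ω).2.2 : ℝ) + t) / 2 ^ W₀)
          ⟨div_le_div_of_nonneg_right (by linarith [ht.1]) (by positivity),
            div_le_div_of_nonneg_right (by linarith [ht.2]) (by positivity)⟩
        refine (mul_le_mul_of_nonneg_left (h2.trans h1) (by positivity)).trans (le_of_eq ?_)
        rw [pow_add]
        field_simp
      · refine le_trans (mul_le_mul_of_nonneg_right (le_max_right _ _) (by positivity)) hY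
  · intro ω hω j
    have hωA := hBA ω hω
    have hY1 : 1 ≤ Y := by
      have h1 : (1 : ℝ) ≤ 2 ^ (s + x) := one_le_pow₀ (by norm_num)
      have h2 : (1 : ℝ) ≤ max C₁ C₂ := hC₁.trans (le_max_left _ _)
      nlinarith
    have hdn : (0 : ℝ) < 2 ^ (d + n * k) := by positivity
    have hfin : ∀ r : ℝ, ∀ N : ℕ, N + (d + n * k) ≤ J → r ≤ 2 ^ N * (1 / 2 ^ J) →
        r ≤ Y / 2 ^ (d + n * k) := by
      intro r N hN hr
      refine hr.trans ?_
      rw [mul_one_div, div_le_div_iff₀ (by positivity) hdn, ← pow_add]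
      have h1 : (2 : ℝ) ^ (N + (d + n * k)) ≤ 2 ^ J := pow_le_pow_right₀ (by norm_num) hN
      have h2 : (0 : ℝ) < 2 ^ J := by positivity
      nlinarith
    fin_cases j
    · show |((F.T ω % 2 ^ (J - W₀) : ℕ) : ℝ) / ((2 ^ (J - W₀) : ℕ) : ℝ) - rt F W₀ ω| ≤ _
      have h1 : ((F.T ω % 2 ^ (J - W₀) : ℕ) : ℝ) / ((2 ^ (J - W₀) : ℕ) : ℝ) = rt F W₀ ω := rfl
      rw [h1, sub_self, abs_zero]
      positivity
    · show |2 ^ W₀ * bho J J (ptr F J ω) (some (c 0)) - 2 ^ W₀ * F.x ω (c 0)| ≤ _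
      rw [← mul_sub, abs_mul, abs_of_pos (by positivity : (0 : ℝ) < 2 ^ W₀)]
      refine hfin _ W₀ (by omega) ((mul_le_mul_of_nonneg_left ?_ (by positivity)))
      exact hx_some F ω (c 0)
    · show |2 ^ g1 * (bho J J (ptr F J ω) (some (c 1)) - eval (bho J J (ptr F J ω))
        (Pv (ptr F J ω))) - 2 ^ g1 * (F.x ω (c 1) - eval (bt F ω) (P (slam F W₀ ω)))| ≤ _
      rw [← mul_sub, abs_mul, abs_of_pos (by positivity : (0 : ℝ) < 2 ^ g1), ← hcl ω hωA]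
      refine hfin _ (g1 + e1 + 1) (by omega) ?_
      have h2 := hx_some F ω (c 1)
      have h3 : |eval (hx F ω) (Pv (ptr F J ω)) - eval (bt F ω) (Pv (ptr F J ω))| ≤
          2 ^ e1 * (1 / 2 ^ J) := by
        obtain ⟨δ, hδ⟩ : ∃ δ, δ = hx F ω (some (c 0)) - bt F ω (some (c 0)) := ⟨_, rfl⟩
        have hδJ : |δ| ≤ 1 / 2 ^ J := by
          rw [hδ]
          exact hx_some F ω (c 0)
        have e1' : eval (hx F ω) (Pv (ptr F J ω)) = eval (Function.update (bt F ω) (some (c 0))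
            (bt F ω (some (c 0)) + δ)) (Pv (ptr F J ω)) := by
          refine hdep _ _ _ ?_ fun l hl => ?_
          · rw [Function.update_of_ne (by simp), hx_none]
          · have : l = 0 := by omega
            subst this
            rw [Function.update_self, hδ]
            ring
        rw [e1']
        refine (mv_one (Pv (ptr F J ω)) (bt F ω) (some (c 0)) δ (M := 2 ^ e1)
          fun r hr => hlip ω hωA r (hr.trans hδJ)).trans
          (mul_le_mul_of_nonneg_left hδJ (by positivity))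
      have h4 : bho J J (ptr F J ω) (some (c 1)) - eval (bho J J (ptr F J ω)) (Pv (ptr F J ω)) -
          (F.x ω (c 1) - eval (bt F ω) (Pv (ptr F J ω))) =
          (hx F ω (some (c 1)) - bt F ω (some (c 1))) -
            (eval (hx F ω) (Pv (ptr F J ω)) - eval (bt F ω) (Pv (ptr F J ω))) := by
        show bho J J (ptr F J ω) (some (c 1)) - eval (bho J J (ptr F J ω)) (Pv (ptr F J ω)) -
          (F.x ω (c 1) - _) = (bho J J (ptr F J ω) (some (c 1)) - F.x ω (c 1)) -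
            (eval (bho J J (ptr F J ω)) (Pv (ptr F J ω)) - _)
        ring
      rw [h4]
      have h5 := (abs_sub (hx F ω (some (c 1)) - bt F ω (some (c 1)))
        (eval (hx F ω) (Pv (ptr F J ω)) - eval (bt F ω) (Pv (ptr F J ω)))).trans
        (add_le_add h2 h3)
      calc (2 : ℝ) ^ g1 * _ ≤ 2 ^ g1 * (1 / 2 ^ J + 2 ^ e1 * (1 / 2 ^ J)) :=
            mul_le_mul_of_nonneg_left h5 (by positivity)
        _ ≤ 2 ^ g1 * (2 ^ (e1 + 1) * (1 / 2 ^ J)) := by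
            refine mul_le_mul_of_nonneg_left ?_ (by positivity)
            have h6 : (1 : ℝ) ≤ 2 ^ e1 := one_le_pow₀ (by norm_num)
            have h7 : (0 : ℝ) < 1 / 2 ^ J := by positivity
            rw [pow_succ]
            nlinarith
        _ = 2 ^ (g1 + e1 + 1) * (1 / 2 ^ J) := by
            rw [add_assoc, pow_add 2 g1 (e1 + 1)]
            ring

/-- **The input of `pos_ev`**, class form: on a quarter of every large part. -/
theorem inp_cls {S : PCl m} (hS : TmH S) (K : ℕ) {ε w : ℝ} (K₁ : ℝ) (hε : 0 < ε) (hw : w < 1) :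
    Bas S (fun J F A => ∀ (A₀ : F.Ω → Prop) (c : ℕ → Fin m) (W₀ d k n g1 e1 x : ℕ) (Y : ℝ)
      (Pv : PtT F → MvPolynomial (Option (Fin m)) ℝ)
      (P : LnT F → MvPolynomial (Option (Fin m)) ℝ), Sub A₀ A → Pe F.p A ≤ K₁ * Pe F.p A₀ →
      (W₀ : ℝ) ≤ w * J → (∀ s, (P s).totalDegree ≤ K) → (∀ y, DepC c 1 (Pv y)) →
      (∀ ω, A₀ ω → Pv (ptr F J ω) = P (slam F W₀ ω)) →
      (∀ ω, A₀ ω → ∀ r : ℝ, |r| ≤ 1 / 2 ^ J → |eval (Function.update (bt F ω) (some (c 0))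
        (bt F ω (some (c 0)) + r)) (pderiv (some (c 0)) (Pv (ptr F J ω)))| ≤ 2 ^ e1) →
      (∀ ω, A₀ ω → |F.x ω (c 1) - eval (bt F ω) (Pv (ptr F J ω))| ≤ 2 ^ x / 2 ^ g1) →
      2 ^ x * Real.exp (ε * J) ≤ Y → g1 + e1 + 1 + d + n * k ≤ J → W₀ + d + n * k ≤ J →
      ∃ B : F.Ω → Prop, Sub B A₀ ∧ Pe F.p A₀ / 4 ≤ Pe F.p B ∧ 0 < Pe F.p A₀ ∧
        InpP F B W₀ d k n (K + 1) Y (yv F c W₀ g1 P) (yp F c W₀ g1 Pv) (hgP c W₀ g1 P)) := by
  classical
  obtain ⟨C₁, hC₁, hev⟩ := inp_ev m K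
  have hlog : 0 < Real.log 2 := Real.log_pos one_lt_two
  have hlog1 : Real.log 2 ≤ 1 := by
    have := Real.log_two_lt_d9
    linarith
  -- the small numbers
  obtain ⟨u, hu⟩ : ∃ u : ℝ, u = min (ε / (8 * C₁)) ((1 - w) * Real.log 2 / (2 * C₁)) := ⟨_, rfl⟩
  have hC0 : 0 < C₁ := by linarith
  have hu0 : 0 < u := by
    rw [hu]
    exact lt_min (by positivity) (div_pos (mul_pos (by linarith) hlog) (by positivity))
  have hu1 : C₁ * u ≤ ε / 8 := by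
    have h1 : u ≤ ε / (8 * C₁) := by rw [hu]; exact min_le_left _ _
    calc C₁ * u ≤ C₁ * (ε / (8 * C₁)) := mul_le_mul_of_nonneg_left h1 hC0.le
      _ = ε / 8 := by field_simp
  have hu2 : C₁ * u ≤ (1 - w) * Real.log 2 / 2 := by
    have h1 : u ≤ (1 - w) * Real.log 2 / (2 * C₁) := by rw [hu]; exact min_le_right _ _
    calc C₁ * u ≤ C₁ * ((1 - w) * Real.log 2 / (2 * C₁)) := mul_le_mul_of_nonneg_left h1 hC0.le
      _ = _ := by field_simp
  obtain ⟨J₁, hJ₁⟩ := exists_nat_ge (8 * (C₁ + 1) / ε)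
  obtain ⟨J₂, hJ₂⟩ := exists_nat_ge (2 * C₁ / ((1 - w) * Real.log 2))
  obtain ⟨J₃, hJ₃⟩ := exists_nat_ge (4 * Real.log C₁ / ε)
  have hpos : Bas S (fun J F A => 0 < Pe F.p A) :=
    ⟨1, one_pos, 0, fun J _ F A hA => hS.1 1 J F A hA⟩
  have hT := Pool.V1E.bas_big (hS.2 u hu0) (2 * K₁)
  refine Bas.mono (max (max J₁ J₂) J₃) (hpos.and hT) ?_
  rintro J hJ F A ⟨hA, hTm⟩ A₀ c W₀ d k n g1 e1 x Y Pv P hA₀ hK hW hdeg hdep hcl hlip hnear hY hn1
    hn2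
  have hJ0 : (0 : ℝ) ≤ J := Nat.cast_nonneg J
  have hp := Pe_nonneg F.isLaw
  have hPA₀ : 0 < Pe F.p A₀ := by
    by_contra hcon
    have h1 : Pe F.p A₀ = 0 := le_antisymm (not_lt.1 hcon) (hp A₀)
    rw [h1, mul_zero] at hK
    linarith
  have hK0 : 0 ≤ K₁ := by
    by_contra hcon
    push Not at hcon
    have := mul_neg_of_neg_of_pos hcon hPA₀
    linarith
  -- the numbers
  have hj1 : 8 * (C₁ + 1) ≤ ε * J := by
    have h1 : 8 * (C₁ + 1) / ε ≤ J :=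
      hJ₁.trans (by exact_mod_cast ((le_max_left _ _).trans (le_max_left _ _)).trans hJ)
    rw [div_le_iff₀ hε] at h1
    linarith
  have hj2 : 2 * C₁ ≤ (1 - w) * Real.log 2 * J := by
    have h1 : 2 * C₁ / ((1 - w) * Real.log 2) ≤ J :=
      hJ₂.trans (by exact_mod_cast ((le_max_right _ _).trans (le_max_left _ _)).trans hJ)
    rw [div_le_iff₀ (mul_pos (by linarith) hlog)] at h1
    linarith
  have hj3 : 4 * Real.log C₁ ≤ ε * J := by
    have h1 : 4 * Real.log C₁ / ε ≤ J := hJ₃.trans (by exact_mod_cast (le_max_right _ _).trans hJ)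
    rw [div_le_iff₀ hε] at h1
    linarith
  obtain ⟨s, hs⟩ : ∃ s, s = ⌊ε / 2 * J⌋₊ := ⟨_, rfl⟩
  have hs1 : (s : ℝ) ≤ ε / 2 * J := by
    rw [hs]
    exact Nat.floor_le (by positivity)
  have hs2 : ε / 2 * J - 1 < s := by
    rw [hs]
    exact Nat.sub_one_lt_floor _
  have hWJ : W₀ ≤ J := by omega
  have g1' : C₁ * (u * J + 1) ≤ ((J : ℝ) - W₀) * Real.log 2 := by
    have h1 : C₁ * u * J ≤ (1 - w) * Real.log 2 / 2 * J := mul_le_mul_of_nonneg_right hu2 hJ0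
    have h2 : (1 - w) * J * Real.log 2 ≤ ((J : ℝ) - W₀) * Real.log 2 :=
      mul_le_mul_of_nonneg_right (by linarith) hlog.le
    nlinarith
  have g2' : C₁ * (u * J + 1) ≤ s := by
    have h1 : C₁ * u * J ≤ ε / 8 * J := mul_le_mul_of_nonneg_right hu1 hJ0
    nlinarith
  have g3' : C₁ * 2 ^ (s + x) ≤ Y := by
    refine le_trans ?_ hY
    have h1 : C₁ ≤ Real.exp (ε / 4 * J) := by
      rw [← Real.log_le_iff_le_exp hC0]
      linarith
    have h2 : (2 : ℝ) ^ s ≤ Real.exp (ε / 2 * J) := by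
      have h3 : (2 : ℝ) ^ s = Real.exp (s * Real.log 2) := by
        rw [mul_comm, Real.exp_mul, Real.exp_log (by norm_num), Real.rpow_natCast]
      rw [h3]
      refine Real.exp_le_exp.2 ?_
      have h4 : (s : ℝ) * Real.log 2 ≤ s * 1 :=
        mul_le_mul_of_nonneg_left hlog1 (Nat.cast_nonneg s)
      linarith
    have h5 : Real.exp (ε / 4 * J) * Real.exp (ε / 2 * J) ≤ Real.exp (ε * J) := by
      rw [← Real.exp_add]
      refine Real.exp_le_exp.2 ?_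
      have : 0 ≤ ε * J := by positivity
      linarith
    calc C₁ * 2 ^ (s + x) = (C₁ * 2 ^ s) * 2 ^ x := by rw [pow_add]; ring
      _ ≤ (Real.exp (ε / 4 * J) * Real.exp (ε / 2 * J)) * 2 ^ x :=
          mul_le_mul_of_nonneg_right (mul_le_mul h1 h2 (by positivity) (Real.exp_pos _).le)
            (by positivity)
      _ ≤ Real.exp (ε * J) * 2 ^ x := mul_le_mul_of_nonneg_right h5 (by positivity)
      _ = _ := mul_comm _ _
  obtain ⟨B, hB1, hB2, hB3⟩ := hev (F := F) c W₀ d k n g1 e1 x s (u * J) Y A₀ Pv P hPA₀ hWJ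
    (fun B' hB' hs' hP' => hTm B' (fun ω hω => hA₀ ω (hs' ω hω)) (by
      calc Pe F.p A ≤ K₁ * Pe F.p A₀ := hK
        _ ≤ K₁ * (2 * Pe F.p B') := mul_le_mul_of_nonneg_left hP' hK0
        _ = 2 * K₁ * Pe F.p B' := by ring) hB') (by positivity) g1' g2' hdeg hdep hcl hlip hnear
    g3' hn1 hn2
  exact ⟨B, hB1, hB2, hPA₀, hB3⟩

/-- The velocity of the height along a window, against the rounded velocity. -/
theorem hgP_mot (K : ℕ) : ∃ C : ℝ, 1 ≤ C ∧ ∀ {m J : ℕ} {F : Fam m J} {B : F.Ω → Prop}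
    {W₀ d k n : ℕ} {Y σ K' : ℝ} {y : F.Ω → V3} {yt : PtT F → V3}
    {h : LnT F → Fin 3 → Polynomial ℝ} {ctr xo : ℕ → F.Ω → V3} {D₁ : LnT F → V3},
    InpP F B W₀ d k n K Y y yt h → PosO F B W₀ d k n σ K' y h ctr xo D₁ → W₀ + d + n * k ≤ J →
    0 < σ → 0 ≤ Y → ∀ e, d ≤ e → W₀ + e ≤ J → ∀ ω ω', B ω → B ω' →
    slam F (W₀ + e) ω = slam F (W₀ + e) ω' → ∀ j,
    |y ω' j - y ω j - σ * D₁ (slam F (W₀ + d) ω) j * (rt F W₀ ω' - rt F W₀ ω)| ≤
      (C * Y / 2 ^ d + σ / 2 ^ k) / 2 ^ e := by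
  obtain ⟨C, hC, hu⟩ := Pool.STB65.uni_der K
  refine ⟨C, hC, ?_⟩
  intro m J F B W₀ d k n Y σ K' y yt h ctr xo D₁ I O hJ hσ hY e hde heJ ω ω' hω hω' hs j
  have hdJ : W₀ + d ≤ J := by omega
  have hW₀ : slam F W₀ ω = slam F W₀ ω' := Pool.STB65.slam_eq_of_le F (by omega) heJ hs
  obtain ⟨P, hP⟩ : ∃ P, P = h (slam F W₀ ω) j := ⟨_, rfl⟩
  have hy1 : y ω j = P.eval (rt F W₀ ω) := by rw [hP, I.yh ω hω]
  have hy2 : y ω' j = P.eval (rt F W₀ ω') := by rw [hP, I.yh ω' hω', hW₀]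
  obtain ⟨τ, hτ⟩ : ∃ τ, τ = Pool.STB65.st d (slam F (W₀ + d) ω) := ⟨_, rfl⟩
  have hvP : ∀ t ∈ Set.Icc (0 : ℝ) 1, |(Polynomial.derivative P).eval t| ≤ Y := by
    rw [hP]
    exact I.vel ω hω j
  have hτm : τ ∈ Set.Icc (0 : ℝ) 1 := by
    rw [hτ]
    exact Pool.STB65.st_mem _ _
  have hPd : P.natDegree ≤ K := by
    rw [hP]
    exact I.hd _ _
  have hv2 : ∀ t ∈ Set.Icc (0 : ℝ) 1,
      |(Polynomial.derivative (Polynomial.derivative P)).eval t| ≤ C * Y := by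
    intro t ht
    exact (hu (Polynomial.derivative P) Y ((Polynomial.natDegree_derivative_le P).trans
      ((Nat.sub_le _ _).trans hPd)) hvP t (abs_le.2 ⟨by linarith [ht.1], by linarith [ht.2]⟩)).2
  obtain ⟨ρ, hρ⟩ : ∃ ρ : ℝ, ρ = 1 / 2 ^ d := ⟨_, rfl⟩
  have hρ0 : 0 < ρ := by rw [hρ]; positivity
  have hW : slam F (W₀ + d) ω = slam F (W₀ + d) ω' :=
    Pool.STB65.slam_eq_of_le F (by omega) heJ hs
  have htm : ∀ ν, slam F (W₀ + d) ν = slam F (W₀ + d) ω → rt F W₀ ν ∈ Set.Icc τ (τ + ρ) := by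
    intro ν hν
    have h1 := Pool.STB65.rt_st F hdJ ν
    have h2 := rt_mem F (W₀ + d) ν
    rw [hν, ← hτ] at h1
    have h3 : rt F (W₀ + d) ν / 2 ^ d ≤ ρ := by
      rw [hρ]
      exact div_le_div_of_nonneg_right h2.2 (by positivity)
    have h4 : 0 ≤ rt F (W₀ + d) ν / 2 ^ d := div_nonneg h2.1 (by positivity)
    rw [h1]
    exact ⟨by linarith, by linarith⟩
  have ht1 := htm ω rfl
  have ht2 := htm ω' hW.symm
  have hrt1 := rt_mem F W₀ ω
  have hrt2 := rt_mem F W₀ ω'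
  have hmo : |P.eval (rt F W₀ ω') - P.eval (rt F W₀ ω) -
      (Polynomial.derivative P).eval τ * (rt F W₀ ω' - rt F W₀ ω)| ≤
        C * Y * ρ * |rt F W₀ ω' - rt F W₀ ω| := by
    obtain ⟨g, hg⟩ : ∃ g : Polynomial ℝ, g = P -
        Polynomial.C ((Polynomial.derivative P).eval τ) * Polynomial.X := ⟨_, rfl⟩
    have hgd : ∀ t ∈ Set.Icc τ (min (τ + ρ) 1), |(Polynomial.derivative g).eval t| ≤
        C * Y * ρ := by
      intro t ht
      have e1 : (Polynomial.derivative g).eval t = (Polynomial.derivative P).eval t -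
          (Polynomial.derivative P).eval τ := by
        rw [hg, Polynomial.derivative_sub, Polynomial.derivative_C_mul,
          Polynomial.derivative_X, mul_one, Polynomial.eval_sub, Polynomial.eval_C]
      rw [e1]
      have e2 := Pool.STB65.pol_lip (Polynomial.derivative P) hv2 hτm
        (show t ∈ Set.Icc (0 : ℝ) 1 from ⟨hτm.1.trans ht.1, ht.2.trans (min_le_right _ _)⟩)
      refine e2.trans (mul_le_mul_of_nonneg_left ?_ (by positivity))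
      rw [abs_of_nonneg (by linarith [ht.1])]
      linarith [ht.2.trans (min_le_left (τ + ρ) (1 : ℝ))]
    have e3 := Pool.STB65.pol_lip g hgd (x := rt F W₀ ω) (y := rt F W₀ ω')
      ⟨ht1.1, le_min ht1.2 hrt1.2⟩ ⟨ht2.1, le_min ht2.2 hrt2.2⟩
    have e4 : g.eval (rt F W₀ ω') - g.eval (rt F W₀ ω) = P.eval (rt F W₀ ω') -
        P.eval (rt F W₀ ω) -
        (Polynomial.derivative P).eval τ * (rt F W₀ ω' - rt F W₀ ω) := by
      rw [hg]
      simp only [Polynomial.eval_sub, Polynomial.eval_mul, Polynomial.eval_C, Polynomial.eval_X]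
      ring
    rwa [e4] at e3
  obtain ⟨δ, hδ⟩ : ∃ δ : ℝ, δ = rt F W₀ ω' - rt F W₀ ω := ⟨_, rfl⟩
  obtain ⟨v, hv⟩ : ∃ v : ℝ, v = (Polynomial.derivative P).eval τ := ⟨_, rfl⟩
  rw [← hδ, ← hv] at hmo
  have hDv : |D₁ (slam F (W₀ + d) ω) j - 1 / σ * v| ≤ 1 / 2 ^ k := by
    have := O.dv ω hω j
    rwa [← hP, ← hτ, ← hv] at this
  have hδb : |δ| ≤ 1 / 2 ^ e := by
    have a1 := Pool.STB65.rt_st F (W₀ := W₀) (d := e) heJ ω
    have a2 := Pool.STB65.rt_st F (W₀ := W₀) (d := e) heJ ω'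
    have a3 := rt_mem F (W₀ + e) ω
    have a4 := rt_mem F (W₀ + e) ω'
    have a5 : δ = (rt F (W₀ + e) ω' - rt F (W₀ + e) ω) / 2 ^ e := by
      rw [hδ, a1, a2, hs]
      ring
    rw [a5, abs_div, abs_of_pos (by positivity : (0 : ℝ) < 2 ^ e)]
    refine div_le_div_of_nonneg_right ?_ (by positivity)
    rw [abs_le]
    constructor <;> linarith [a3.1, a3.2, a4.1, a4.2]
  rw [hy1, hy2, ← hδ]
  have e1 : P.eval (rt F W₀ ω') - P.eval (rt F W₀ ω) - σ * D₁ (slam F (W₀ + d) ω) j * δ =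
      (P.eval (rt F W₀ ω') - P.eval (rt F W₀ ω) - v * δ) -
        σ * (D₁ (slam F (W₀ + d) ω) j - 1 / σ * v) * δ := by
    field_simp
    ring
  rw [e1]
  refine (abs_sub _ _).trans ?_
  have f1 : C * Y * ρ * |δ| ≤ C * Y / 2 ^ d * (1 / 2 ^ e) := by
    have : C * Y * ρ = C * Y / 2 ^ d := by rw [hρ]; ring
    rw [this]
    exact mul_le_mul_of_nonneg_left hδb (by positivity)
  have f2 : |σ * (D₁ (slam F (W₀ + d) ω) j - 1 / σ * v) * δ| ≤ σ / 2 ^ k * (1 / 2 ^ e) := by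
    rw [abs_mul, abs_mul, abs_of_pos hσ]
    refine mul_le_mul ?_ hδb (abs_nonneg _) (by positivity)
    calc σ * |D₁ (slam F (W₀ + d) ω) j - 1 / σ * v| ≤ σ * (1 / 2 ^ k) :=
          mul_le_mul_of_nonneg_left hDv hσ.le
      _ = σ / 2 ^ k := by ring
  calc _ ≤ C * Y / 2 ^ d * (1 / 2 ^ e) + σ / 2 ^ k * (1 / 2 ^ e) :=
        add_le_add (hmo.trans f1) f2
    _ = _ := by ring

/-- **The data of `gp_vis` at the windows**, from the positions. -/
theorem winV_of (K : ℕ) : ∃ C : ℝ, 1 ≤ C ∧ ∀ {m J : ℕ} {F : Fam m J} {B : F.Ω → Prop}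
    (c : ℕ → Fin m) (W₀ d k n g1 e₁ e₂ g0 p0 p1 N N0 i : ℕ) (Y σ K' β0 β1 e η V : ℝ) (a : ℚ)
    (Pv : PtT F → MvPolynomial (Option (Fin m)) ℝ) (P : LnT F → MvPolynomial (Option (Fin m)) ℝ)
    {yt : PtT F → V3} {ctr xo : ℕ → F.Ω → V3} {D₁ : LnT F → V3} {𝒟 : Type} (D : F.Ω → 𝒟)
    (X : 𝒟 → V3),
    InpP F B W₀ d k n (K + 1) Y (yv F c W₀ g1 P) yt (hgP c W₀ g1 P) →
    PosO F B W₀ d k n σ K' (yv F c W₀ g1 P) (hgP c W₀ g1 P) ctr xo D₁ →
    (∀ ω, B ω → X (D ω) = D₁ (slam F (W₀ + d) ω)) → i < n → W₀ + d + n * k ≤ J → 0 < σ → 0 ≤ Y →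
    (∀ y, (Pv y).totalDegree ≤ K) → (∀ y, DepC c 1 (Pv y)) →
    (∀ ω, B ω → Pv (ptr F J ω) = P (slam F W₀ ω)) →
    (∀ ω, B ω → ∀ b : Option (Fin m) → ℝ, |b none - F.t ω| ≤ 1 / 2 ^ W₀ →
      |b (some (c 0)) - F.x ω (c 0)| ≤ 1 / 2 ^ W₀ →
      |eval b (pderiv (some (c 0)) (Pv (ptr F J ω)))| ≤ 2 ^ e₁) →
    2 * σ * 2 ^ g0 ≤ 2 ^ (W₀ + (d + i * k + k)) → W₀ + 2 ≤ g0 → Y + σ / 2 ^ k ≤ V →
    σ * η + 2 * (σ / 2 ^ k) ≤ 1 / 2 ^ N →
    GNum J β0 β1 a e (W₀ + d + i * k + k) e₁ e₂ g0 p0 p1 N N0 (2 ^ W₀ / 2 ^ g1)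
      ((C * Y / 2 ^ d + σ / 2 ^ k) / 2 ^ (d + i * k + k) / 2 ^ g1) V →
    ∃ (b0 : PtT F → ℝ) (b0' : LnT F → ℝ), WinV F B c K β0 β1 a e (W₀ + d + i * k + k) D X (1 / σ)
      η (σ / 2 ^ k) e₁ e₂ g0 p0 p1 N N0 (2 ^ W₀ / 2 ^ g1)
      ((C * Y / 2 ^ d + σ / 2 ^ k) / 2 ^ (d + i * k + k) / 2 ^ g1) V b0 b0' Pv
      (fun s => P (Pool.STB65.crs (d + i * k + k) s)) := by
  classical
  obtain ⟨C, hC, hmot⟩ := hgP_mot (K + 1)
  refine ⟨C, hC, ?_⟩
  intro m J F B c W₀ d k n g1 e₁ e₂ g0 p0 p1 N N0 i Y σ K' β0 β1 e η V a Pv P yt ctr xo D₁ 𝒟 D X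
    I O hX hi hJ hσ hY hdeg hdep hcl hlip hg0 hg0W hV hη hnum
  have hiJ : W₀ + d + i * k + k ≤ J := by
    have e1 : (i + 1) * k ≤ n * k := Nat.mul_le_mul_right _ hi
    have e2 : (i + 1) * k = i * k + k := by ring
    omega
  have hR := Pool.STB65.Rs_pos (d := d) (k := k) hσ i
  obtain ⟨⟨φ, hφ⟩, φp, hφp⟩ := O.cc i hi
  obtain ⟨⟨ψ, hψ⟩, ψp, hψp⟩ := O.cx i hi
  have hdJ : W₀ + d ≤ J := by omega
  -- the velocities
  have hvel0 : ∀ ω, B ω → |σ * D₁ (slam F (W₀ + d) ω) 0 - 1| ≤ σ / 2 ^ k := by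
    intro ω hω
    have h1 := O.dv ω hω 0
    have h2 : (Polynomial.derivative (hgP c W₀ g1 P (slam F W₀ ω) 0)).eval
        (Pool.STB65.st d (slam F (W₀ + d) ω)) = 1 := by
      show (Polynomial.derivative (Polynomial.X : Polynomial ℝ)).eval _ = 1
      rw [Polynomial.derivative_X, Polynomial.eval_one]
    rw [h2] at h1
    have h3 : σ * D₁ (slam F (W₀ + d) ω) 0 - 1 = σ * (D₁ (slam F (W₀ + d) ω) 0 - 1 / σ * 1) := by
      field_simp
    rw [h3, abs_mul, abs_of_pos hσ]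
    calc σ * |D₁ (slam F (W₀ + d) ω) 0 - 1 / σ * 1| ≤ σ * (1 / 2 ^ k) :=
          mul_le_mul_of_nonneg_left h1 hσ.le
      _ = σ / 2 ^ k := by ring
  have hvel1 : ∀ ω, B ω → |σ * D₁ (slam F (W₀ + d) ω) 1 - F.d ω (c 0)| ≤ σ / 2 ^ k := by
    intro ω hω
    have h1 := O.dv ω hω 1
    rw [hgP_d1] at h1
    have h3 : σ * D₁ (slam F (W₀ + d) ω) 1 - F.d ω (c 0) =
        σ * (D₁ (slam F (W₀ + d) ω) 1 - 1 / σ * F.d ω (c 0)) := by
      field_simp
    rw [h3, abs_mul, abs_of_pos hσ]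
    calc σ * |D₁ (slam F (W₀ + d) ω) 1 - 1 / σ * F.d ω (c 0)| ≤ σ * (1 / 2 ^ k) :=
          mul_le_mul_of_nonneg_left h1 hσ.le
      _ = σ / 2 ^ k := by ring
  have hσσ : (1 : ℝ) / (1 / σ) = σ := by field_simp
  have haa : W₀ + d + i * k + k = W₀ + (d + i * k + k) := by ring
  obtain ⟨b0, hb0⟩ : ∃ b0 : PtT F → ℝ, b0 = fun p =>
      (φp p 1 + ψp p 1 / Pool.STB65.Rs d k σ i) / 2 ^ W₀ := ⟨_, rfl⟩
  obtain ⟨b0', hb0'⟩ : ∃ b0' : LnT F → ℝ, b0' = fun s =>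
      (φ (Pool.STB65.crs k s) 1 + ψ s 1 / Pool.STB65.Rs d k σ i) / 2 ^ W₀ := ⟨_, rfl⟩
  have hnb : ∀ ω, B ω → |F.x ω (c 0) - b0 (ptr F J ω)| ≤ 1 / 2 ^ g0 := by
    intro ω hω
    have h1 := O.qx i hi ω hω 1
    have h2 : b0 (ptr F J ω) = (ctr i ω 1 + xo i ω 1 / Pool.STB65.Rs d k σ i) / 2 ^ W₀ := by
      rw [hb0]
      show (φp (ptr F J ω) 1 + ψp (ptr F J ω) 1 / _) / _ = _
      rw [← hφp ω hω, ← hψp ω hω]
    have h3 : F.x ω (c 0) - b0 (ptr F J ω) = -((xo i ω - Pool.STB65.Rs d k σ i •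
        (yv F c W₀ g1 P ω - ctr i ω)) 1) / (Pool.STB65.Rs d k σ i * 2 ^ W₀) := by
      rw [h2]
      simp only [Pi.sub_apply, Pi.smul_apply, smul_eq_mul]
      have h4 : yv F c W₀ g1 P ω 1 = 2 ^ W₀ * F.x ω (c 0) := rfl
      rw [h4]
      field_simp
      ring
    rw [h3, abs_div, abs_neg, abs_of_pos (by positivity : 0 < Pool.STB65.Rs d k σ i * 2 ^ W₀)]
    have h5 : (2 : ℝ) / 2 ^ k / (Pool.STB65.Rs d k σ i * 2 ^ W₀) =
        2 * σ / 2 ^ (W₀ + (d + i * k + k)) := by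
      unfold Pool.STB65.Rs
      rw [pow_add 2 W₀, pow_add 2 (d + i * k) k]
      field_simp
    refine (div_le_div_of_nonneg_right h1 (by positivity)).trans ?_
    rw [h5, div_le_div_iff₀ (by positivity) (by positivity), one_mul]
    exact hg0
  refine ⟨b0, b0', ⟨by positivity, hnum, ⟨?_, hnb, ?_, hdeg, hdep, ?_, ?_, ?_⟩, ?_, ?_, ?_⟩⟩
  · intro ω hω
    rw [hb0, hb0']
    show (φp (ptr F J ω) 1 + ψp (ptr F J ω) 1 / _) / _ =
      (φ (Pool.STB65.crs k (slam F (W₀ + d + i * k + k) ω)) 1 +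
        ψ (slam F (W₀ + d + i * k + k) ω) 1 / _) / _
    rw [← hφp ω hω, ← hψp ω hω, ← hψ ω hω, Pool.STB65.crs_slam F hiJ, ← hφ ω hω]
  · intro ω hω
    show _ = P (Pool.STB65.crs (d + i * k + k) (slam F (W₀ + d + i * k + k) ω))
    rw [haa, Pool.STB65.crs_slam F (by omega)]
    exact hcl ω hω
  · intro ω hω b hb1 hb2
    refine hlip ω hω b ?_ ?_
    · refine hb1.trans (one_div_le_one_div_of_le (by positivity)
        (pow_le_pow_right₀ one_le_two (by omega)))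
    · have h1 := hnb ω hω
      have h2 : b (some (c 0)) - F.x ω (c 0) = (b (some (c 0)) - b0 (ptr F J ω)) -
        (F.x ω (c 0) - b0 (ptr F J ω)) := by ring
      rw [h2]
      refine (abs_sub _ _).trans ((add_le_add hb2 h1).trans ?_)
      have h3 : (2 : ℝ) / 2 ^ g0 + 1 / 2 ^ g0 = 3 / 2 ^ g0 := by ring
      rw [h3, div_le_div_iff₀ (by positivity) (by positivity)]
      have h4 : (2 : ℝ) ^ W₀ * 4 ≤ 2 ^ g0 := by
        calc (2 : ℝ) ^ W₀ * 4 = 2 ^ (W₀ + 2) := by rw [pow_add]; norm_num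
          _ ≤ _ := pow_le_pow_right₀ one_le_two hg0W
      have h5 : (0 : ℝ) < 2 ^ W₀ := by positivity
      linarith
  · intro ω hω
    rw [hσσ, hX ω hω]
    have h1 := hmot (F := F) I O hJ hσ hY
    have h2 := O.dv ω hω 2
    have h3 := I.vel ω hω 2 _ (Pool.STB65.st_mem d (slam F (W₀ + d) ω))
    obtain ⟨v, hv⟩ : ∃ v : ℝ, v = (Polynomial.derivative (hgP c W₀ g1 P (slam F W₀ ω) 2)).eval
      (Pool.STB65.st d (slam F (W₀ + d) ω)) := ⟨_, rfl⟩
    rw [← hv] at h2 h3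
    have h4 : σ * D₁ (slam F (W₀ + d) ω) 2 = v + σ * (D₁ (slam F (W₀ + d) ω) 2 - 1 / σ * v) := by
      field_simp
      ring
    rw [h4]
    refine (abs_add_le _ _).trans (le_trans (add_le_add h3 ?_) hV)
    rw [abs_mul, abs_of_pos hσ]
    calc σ * |D₁ (slam F (W₀ + d) ω) 2 - 1 / σ * v| ≤ σ * (1 / 2 ^ k) :=
          mul_le_mul_of_nonneg_left h2 hσ.le
      _ = σ / 2 ^ k := by ring
  · intro ω ω' hω hω' hs
    have h1 := hmot (F := F) I O hJ hσ hY (d + i * k + k) (by omega) (by omega) ω ω' hω hω'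
      (by rw [← haa]; exact hs) 2
    have hW₀ : slam F W₀ ω = slam F W₀ ω' :=
      Pool.STB65.slam_eq_of_le F (by omega) hiJ hs
    have hy1 : yv F c W₀ g1 P ω 2 = 2 ^ g1 * (F.x ω (c 1) - eval (bt F ω) (Pv (ptr F J ω))) := by
      rw [hcl ω hω]
      rfl
    have hy2 : yv F c W₀ g1 P ω' 2 = 2 ^ g1 * (F.x ω' (c 1) -
        eval (bt F ω') (Pv (ptr F J ω))) := by
      rw [hcl ω hω, hW₀]
      rfl
    have ht : rt F W₀ ω' - rt F W₀ ω = 2 ^ W₀ * (F.t ω' - F.t ω) := by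
      have h2 := t_rt F (show W₀ ≤ J by omega) ω
      have h3 := t_rt F (show W₀ ≤ J by omega) ω'
      rw [h2, h3, hW₀]
      field_simp
      ring
    rw [hy1, hy2, ht] at h1
    rw [hσσ, hX ω hω]
    have h4 : (F.x ω' (c 1) - eval (bt F ω') (Pv (ptr F J ω))) -
        (F.x ω (c 1) - eval (bt F ω) (Pv (ptr F J ω))) - 2 ^ W₀ / 2 ^ g1 *
          (σ * D₁ (slam F (W₀ + d) ω) 2) * (F.t ω' - F.t ω) =
        (2 ^ g1 * (F.x ω' (c 1) - eval (bt F ω') (Pv (ptr F J ω))) -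
          2 ^ g1 * (F.x ω (c 1) - eval (bt F ω) (Pv (ptr F J ω))) -
          σ * D₁ (slam F (W₀ + d) ω) 2 * (2 ^ W₀ * (F.t ω' - F.t ω))) / 2 ^ g1 := by
      field_simp
    show |(F.x ω' (c 1) - eval (bt F ω') (Pv (ptr F J ω))) -
        (F.x ω (c 1) - eval (bt F ω) (Pv (ptr F J ω))) - 2 ^ W₀ / 2 ^ g1 *
          (σ * D₁ (slam F (W₀ + d) ω) 2) * (F.t ω' - F.t ω)| ≤ _
    rw [h4, abs_div, abs_of_pos (by positivity : (0 : ℝ) < 2 ^ g1)]
    exact div_le_div_of_nonneg_right h1 (by positivity)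
  · intro ω hω
    rw [hσσ, hX ω hω]
    exact hvel0 ω hω
  · intro ω hω
    rw [hσσ, hX ω hω]
    exact hvel1 ω hω
  · rw [show η / (1 / σ) = σ * η by field_simp]
    exact hη

/-- **The numbers of `gp_vis`**, from inequalities of exponents. -/
theorem gnum_of {J : ℕ} {β0 β1 : ℝ} {a : ℚ} {e : ℝ} {a₀ W₀ x e₁ e₂ g0 g1 p0 p1 N N0 v q0 q1 z : ℕ}
    {V Er : ℝ} (ha : a₀ = W₀ + x) (aa : a₀ ≤ ⌊(a : ℝ) * J⌋₊) (g0J : g0 ≤ J)
    (t0 : ⌊β0 * J⌋₊ + a₀ ≤ p0 + ⌊(a : ℝ) * J⌋₊) (t1 : ⌊β1 * J⌋₊ + a₀ ≤ p1 + ⌊(a : ℝ) * J⌋₊)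
    (he2 : e₂ ≤ ⌊e * J⌋₊) (hW : W₀ ≤ g1 + z) (h1 : e₁ + 1 ≤ e₂) (h2 : z + N0 + 1 ≤ e₂)
    (N01 : 1 ≤ N0)
    (V0 : 0 ≤ V) (hV : V ≤ 2 ^ v) (hp0 : p0 ≤ a₀ + q0) (hN : q0 + 4 ≤ N) (hN0 : v + q0 + 4 ≤ N0)
    (hp0J : p0 + 2 ≤ J) (hp1 : p1 ≤ g1 + x + q1) (hE : Er ≤ 1 / 2 ^ (q1 + 2))
    (hNN : N0 + q1 + 2 ≤ N) (hp1J : e₂ + p1 + 4 ≤ J) :
    GNum J β0 β1 a e a₀ e₁ e₂ g0 p0 p1 N N0 (2 ^ W₀ / 2 ^ g1) (Er / 2 ^ x / 2 ^ g1) V := by
  have pw : ∀ {i j : ℕ}, i ≤ j → (2 : ℝ) ^ i ≤ 2 ^ j := fun h => pow_le_pow_right₀ one_le_two h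
  have pi : ∀ {i j : ℕ}, i ≤ j → (1 : ℝ) / 2 ^ j ≤ 1 / 2 ^ i := fun h =>
    one_div_le_one_div_of_le (by positivity) (pw h)
  have hmu : (2 : ℝ) ^ W₀ / 2 ^ g1 ≤ 2 ^ z := by
    rw [div_le_iff₀ (by positivity), ← pow_add]
    exact pw (by omega)
  have hme : (2 : ℝ) ^ e₁ + 2 ^ W₀ / 2 ^ g1 * 2 ^ N0 ≤ 2 ^ e₂ := by
    have k1 : (2 : ℝ) ^ e₁ * 2 ≤ 2 ^ e₂ := by rw [← pow_succ]; exact pw h1
    have k2 : (2 : ℝ) ^ z * 2 ^ N0 * 2 ≤ 2 ^ e₂ := by
      rw [← pow_add, ← pow_succ]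
      exact pw h2
    have k3 : (2 : ℝ) ^ W₀ / 2 ^ g1 * 2 ^ N0 ≤ 2 ^ z * 2 ^ N0 :=
      mul_le_mul_of_nonneg_right hmu (by positivity)
    linarith
  have hq : 1 / 2 ^ N + V / 2 ^ N0 ≤ 1 / 2 ^ (q0 + 3) := by
    have k1 : (1 : ℝ) / 2 ^ N ≤ 1 / 2 ^ (q0 + 4) := pi hN
    have k2 : V / 2 ^ N0 ≤ 1 / 2 ^ (q0 + 4) := by
      rw [div_le_div_iff₀ (by positivity) (by positivity), one_mul]
      calc V * 2 ^ (q0 + 4) ≤ 2 ^ v * 2 ^ (q0 + 4) := mul_le_mul_of_nonneg_right hV (by positivity)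
        _ = 2 ^ (v + q0 + 4) := by rw [← pow_add]; congr 1
        _ ≤ _ := pw hN0
    have k3 : (1 : ℝ) / 2 ^ (q0 + 3) = 1 / 2 ^ (q0 + 4) + 1 / 2 ^ (q0 + 4) := by
      have k4 : (2 : ℝ) ^ (q0 + 4) = 2 ^ (q0 + 3) * 2 := pow_succ 2 (q0 + 3)
      rw [k4, ← div_div]
      ring
    linarith
  refine ⟨aa, g0J, by omega, by omega, t0, t1, he2, by positivity, hme, N01, V0, ?_, ?_, ?_⟩
  · have k1 : 4 * (1 / 2 ^ N + V / 2 ^ N0) / 2 ^ a₀ ≤ 4 * (1 / 2 ^ (q0 + 3)) / 2 ^ a₀ :=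
      div_le_div_of_nonneg_right (by linarith) (by positivity)
    have k2 : (4 : ℝ) * (1 / 2 ^ (q0 + 3)) / 2 ^ a₀ = 1 / 2 * (1 / 2 ^ (a₀ + q0)) := by
      rw [pow_add 2 q0 3, pow_add 2 a₀ q0]
      field_simp
      norm_num
    have k3 : (1 : ℝ) / 2 ^ (a₀ + q0) ≤ 1 / 2 ^ p0 := pi hp0
    have k4 : (1 : ℝ) / 2 ^ J ≤ 1 / 2 ^ (p0 + 2) := pi hp0J
    have k5 : (1 : ℝ) / 2 ^ (p0 + 2) = 1 / 4 * (1 / 2 ^ p0) := by
      rw [pow_add]
      field_simp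
      norm_num
    linarith
  · have k1 : (1 : ℝ) / 2 ^ (q0 + 3) ≤ 1 / 2 ^ 1 := pi (by omega)
    have k2 : (1 : ℝ) / 2 ^ 1 = 1 / 2 := by norm_num
    linarith
  · have k0 : (1 : ℝ) / 2 ^ (g1 + x + q1) ≤ 1 / 2 ^ p1 := pi hp1
    have k1 : Er / 2 ^ x / 2 ^ g1 ≤ 1 / 4 * (1 / 2 ^ p1) := by
      calc Er / 2 ^ x / 2 ^ g1 ≤ 1 / 2 ^ (q1 + 2) / 2 ^ x / 2 ^ g1 :=
            div_le_div_of_nonneg_right (div_le_div_of_nonneg_right hE (by positivity))
              (by positivity)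
        _ = 1 / 4 * (1 / 2 ^ (g1 + x + q1)) := by
            rw [pow_add 2 q1 2, pow_add 2 (g1 + x) q1, pow_add 2 g1 x]
            field_simp
            norm_num
        _ ≤ _ := mul_le_mul_of_nonneg_left k0 (by norm_num)
    have k2 : (2 : ℝ) ^ W₀ / 2 ^ g1 * (2 ^ N0 / 2 ^ N / 2 ^ a₀) ≤ 1 / 4 * (1 / 2 ^ p1) := by
      have k3 : (2 : ℝ) ^ N0 / 2 ^ N ≤ 1 / 2 ^ (q1 + 2) := by
        rw [div_le_div_iff₀ (by positivity) (by positivity), one_mul, ← pow_add]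
        exact pw (by omega)
      calc (2 : ℝ) ^ W₀ / 2 ^ g1 * (2 ^ N0 / 2 ^ N / 2 ^ a₀) ≤
          2 ^ W₀ / 2 ^ g1 * (1 / 2 ^ (q1 + 2) / 2 ^ a₀) :=
            mul_le_mul_of_nonneg_left (div_le_div_of_nonneg_right k3 (by positivity))
              (by positivity)
        _ = 1 / 4 * (1 / 2 ^ (g1 + x + q1)) := by
            rw [ha, pow_add 2 q1 2, pow_add 2 (g1 + x) q1, pow_add 2 g1 x, pow_add 2 W₀ x]
            field_simp
            norm_num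
        _ ≤ _ := mul_le_mul_of_nonneg_left k0 (by norm_num)
    have k3 : (2 : ℝ) * ((1 + 2 ^ e₁ + 2 ^ W₀ / 2 ^ g1 * 2 ^ N0) * (1 / 2 ^ J)) ≤
        1 / 4 * (1 / 2 ^ p1) := by
      have k4 : (1 : ℝ) + 2 ^ e₁ + 2 ^ W₀ / 2 ^ g1 * 2 ^ N0 ≤ 2 * 2 ^ e₂ := by
        have : (1 : ℝ) ≤ 2 ^ e₂ := one_le_pow₀ one_le_two
        linarith
      have k5 : (1 : ℝ) / 2 ^ J ≤ 1 / 2 ^ (e₂ + p1 + 4) := pi hp1J
      calc (2 : ℝ) * ((1 + 2 ^ e₁ + 2 ^ W₀ / 2 ^ g1 * 2 ^ N0) * (1 / 2 ^ J)) ≤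
          2 * ((2 * 2 ^ e₂) * (1 / 2 ^ (e₂ + p1 + 4))) :=
            mul_le_mul_of_nonneg_left (mul_le_mul k4 k5 (by positivity) (by positivity))
              (by norm_num)
        _ = 1 / 4 * (1 / 2 ^ p1) := by
            rw [pow_add 2 (e₂ + p1) 4, pow_add 2 e₂ p1]
            field_simp
            norm_num
        _ ≤ _ := le_rfl
    have k6 : (0 : ℝ) < 1 / 2 ^ p1 := by positivity
    linarith

end Pool.STB82
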