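import Pool.Agent.H77.STB.Vth

/-!
# The natural boxes of the balls in absolute coordinates

`plane_lipz`, `cl_lipz`: as `plane_lip`, `cl_lip`, in dilated boxes. `inc_box`: a point in the natural
box of the three first places at a ball is near the sample in the absolute coordinates of the
window `W`.
-/

set_option autoImplicit false

namespace Pool.STB82

open Finset Real MvPolynomial
open Pool.Agent.H49.Ent Pool.Agent.H32.Dense Pool.STK Pool.KA Pool.KSAT Pool.K2S Pool.PB Pool.S6C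
open Pool.GEN Pool.CHT Pool.NVX
open Pool.STB (V3 Po Bx)
open Pool.STB77 (Inc opt opt_none opt_some lip_pt)

variable {m J : ℕ}

/-- A point near the sample in the plane. -/
theorem plnz {F : Fam m J} {c : ℕ → Fin m} {D N W s v : ℕ} {A : ℕ → ℕ} {e : ℕ → ℕ}
    {g : ℕ → ℕ → ℕ} {B : F.Ω → Prop} {G : ℕ → PtT F → ℕ → MvPolynomial (Option (Fin m)) ℝ}
    {H : ℕ → LnT F → ℕ → MvPolynomial (Option (Fin m)) ℝ}
    {pP : PtT F → ℕ → MvPolynomial (Option (Fin m)) ℝ}
    {pH : LnT F → ℕ → MvPolynomial (Option (Fin m)) ℝ}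
    (I : Inc F c D N W s v A e g B G H pP pH) {k z : ℕ} (hk : k ≤ N) {ω : F.Ω}
    (hω : B ω) {b : Option (Fin m) → ℝ} (hb0 : |b none - F.t ω| ≤ 1 / 2 ^ A k)
    (hb1 : |b (some (c 0)) - F.x ω (c 0)| ≤ 2 ^ z / 2 ^ A k) :
    |b (some (c 0)) - eval b (G k (ptr F J ω) 0)| ≤ 2 ^ (s + z + 2) / 2 ^ g k 0 := by
  have h1 := I.own k hk ω hω (b none) hb0
  have h2 : eval b (G k (ptr F J ω) 0) = eval (opt F ω (b none)) (G k (ptr F J ω) 0) :=
    (I.ok k hk).depG _ 0 _ _ (opt_none F ω _).symm fun l hl => absurd hl (Nat.not_lt_zero l)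
  rw [h2]
  rw [opt_some] at h1
  have h3 : |(b none - F.t ω) * F.d ω (c 0)| ≤ 1 / 2 ^ A k := by
    rw [abs_mul]
    calc |b none - F.t ω| * |F.d ω (c 0)| ≤ 1 / 2 ^ A k * 1 :=
          mul_le_mul hb0 (F.dir ω (c 0)) (abs_nonneg _) (by positivity)
      _ = _ := mul_one _
  have h4 : (1 : ℝ) / 2 ^ A k ≤ 2 ^ s / 2 ^ g k 0 := by
    rw [div_le_div_iff₀ (by positivity) (by positivity), one_mul, ← pow_add]
    exact pow_le_pow_right₀ (by norm_num) (by have := I.n0 k hk; omega)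
  have hz1 : (1 : ℝ) ≤ 2 ^ z := one_le_pow₀ (by norm_num)
  have h4' : (2 : ℝ) ^ z / 2 ^ A k ≤ 2 ^ z * (2 ^ s / 2 ^ g k 0) := by
    calc (2 : ℝ) ^ z / 2 ^ A k = 2 ^ z * (1 / 2 ^ A k) := by ring
      _ ≤ _ := mul_le_mul_of_nonneg_left h4 (by positivity)
  have e1 : b (some (c 0)) - eval (opt F ω (b none)) (G k (ptr F J ω) 0) =
      (b (some (c 0)) - F.x ω (c 0)) - (b none - F.t ω) * F.d ω (c 0) +
      (F.x ω (c 0) + (b none - F.t ω) * F.d ω (c 0) -
        eval (opt F ω (b none)) (G k (ptr F J ω) 0)) := by ring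
  rw [e1]
  refine (abs_add_le _ _).trans ?_
  have h5 := abs_sub (b (some (c 0)) - F.x ω (c 0)) ((b none - F.t ω) * F.d ω (c 0))
  have e2 : (2 : ℝ) ^ (s + z + 2) / 2 ^ g k 0 = 4 * (2 ^ z * (2 ^ s / 2 ^ g k 0)) := by
    rw [pow_add, pow_add]
    ring
  have h6 : (0 : ℝ) ≤ 2 ^ s / 2 ^ g k 0 := by positivity
  have h7 : (2 : ℝ) ^ s / 2 ^ g k 0 ≤ 2 ^ z * (2 ^ s / 2 ^ g k 0) :=
    le_mul_of_one_le_left h6 hz1
  rw [e2]
  linarith

/-- **A label over the plane moves little** near the sample, in a dilated box. -/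
theorem plane_lipz (D : ℕ) : ∃ C : ℕ, ∀ {m J : ℕ} {F : Fam m J} {c : ℕ → Fin m} {N W s v : ℕ}
    {A : ℕ → ℕ} {e : ℕ → ℕ} {g : ℕ → ℕ → ℕ} {B : F.Ω → Prop}
    {G : ℕ → PtT F → ℕ → MvPolynomial (Option (Fin m)) ℝ}
    {H : ℕ → LnT F → ℕ → MvPolynomial (Option (Fin m)) ℝ}
    {pP : PtT F → ℕ → MvPolynomial (Option (Fin m)) ℝ}
    {pH : LnT F → ℕ → MvPolynomial (Option (Fin m)) ℝ} {k a z : ℕ} {ω : F.Ω} {M : ℝ}
    {Q : MvPolynomial (Option (Fin m)) ℝ} {b : Option (Fin m) → ℝ},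
    Inc F c D N W s v A e g B G H pP pH → k ≤ N → B ω → Q.totalDegree ≤ D → DepC c 1 Q →
    0 ≤ M → (∀ b, NBx c (G k (ptr F J ω)) (g k) (A k) (F.t ω) 1 b → |eval b Q| ≤ M) → A k ≤ a →
    |b none - F.t ω| ≤ 1 / 2 ^ a → |b (some (c 0)) - F.x ω (c 0)| ≤ 2 ^ z / 2 ^ a →
    |eval b Q - eval (bt F ω) Q| ≤ 2 ^ (C * (s + z + 1)) * M / 2 ^ (a - A k) := by
  obtain ⟨c₀, D₁, hD₁, hdil⟩ := nbx_dil 3 (fun _ => D)
  obtain ⟨C₂, hC₂, hlip⟩ := lip_pt D
  obtain ⟨k₂, hk₂⟩ := pow_unbounded_of_one_lt C₂ (one_lt_two (α := ℝ))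
  refine ⟨c₀ + 2 * D₁ + k₂, ?_⟩
  intro m J F c N W s v A e g B G H pP pH k a z ω M Q b I hk hω hQ hQd hM hQM hka hb0 hb1
  have hok := I.ok k hk
  obtain ⟨d, hd⟩ : ∃ d, d = a - A k := ⟨_, rfl⟩
  have hda : a = A k + d := by omega
  obtain ⟨ln, hln⟩ : ∃ ln : Option (Fin m) → Polynomial ℝ, ln = fun o =>
      Polynomial.C (bt F ω o) + Polynomial.C (2 ^ d * (b o - bt F ω o)) * Polynomial.X := ⟨_, rfl⟩
  have hlnd : ∀ o, (ln o).natDegree ≤ 1 := by
    intro o
    rw [hln]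
    exact (Polynomial.natDegree_add_le _ _).trans (max_le (by
      rw [Polynomial.natDegree_C]
      exact Nat.zero_le _)
      ((Polynomial.natDegree_C_mul_le _ _).trans Polynomial.natDegree_X_le))
  have hlne : ∀ o σ, (ln o).eval σ = bt F ω o + 2 ^ d * (b o - bt F ω o) * σ := by
    intro o σ
    rw [hln]
    show (Polynomial.C _ + Polynomial.C _ * Polynomial.X).eval σ = _
    rw [Polynomial.eval_add, Polynomial.eval_mul, Polynomial.eval_C, Polynomial.eval_C,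
      Polynomial.eval_X]
  have h2d : (0 : ℝ) < 2 ^ d := by positivity
  have e1a : (1 : ℝ) / 2 ^ a = 1 / 2 ^ A k / 2 ^ d := by
    rw [hda, pow_add]
    field_simp
  have hmv : ∀ (o : Option (Fin m)) (y : ℝ), 0 ≤ y → |b o - bt F ω o| ≤ y / 2 ^ a →
      ∀ σ ∈ Set.Icc (0 : ℝ) 1, |(ln o).eval σ - bt F ω o| ≤ y / 2 ^ A k := by
    intro o y hy ho σ hσ
    rw [hlne, add_sub_cancel_left, abs_mul, abs_mul, abs_of_pos h2d, abs_of_nonneg hσ.1]
    rw [← mul_one_div, e1a] at ho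
    calc 2 ^ d * |b o - bt F ω o| * σ ≤ 2 ^ d * (y * (1 / 2 ^ A k / 2 ^ d)) * 1 := by
          refine mul_le_mul (mul_le_mul_of_nonneg_left ho h2d.le) hσ.2 hσ.1 (by positivity)
      _ = _ := by field_simp
  have hpt : ∀ σ ∈ Set.Icc (0 : ℝ) 1,
      |eval (fun o => (ln o).eval σ) Q| ≤ 2 ^ (c₀ + (s + z + 2) * D₁) * M := by
    intro σ hσ
    have h1 := hmv none 1 zero_le_one (by exact hb0) σ hσ
    have h2 := hmv (some (c 0)) (2 ^ z) (by positivity) (by exact hb1) σ hσ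
    refine hdil (c := c) (i := 1) (G := G k (ptr F J ω)) (Q := Q) (g := g k) (a := A k)
      (t := F.t ω) (M := M) (s + z + 2) (by norm_num)
      (I.inj.mono fun x (hx : x < 1) => show x < 3 by omega)
      (hok.degG _) (hok.depG _) hQd hQ hM hQM _ h1 fun l hl => ?_
    have : l = 0 := by omega
    subst this
    exact plnz I hk hω (b := fun o => (ln o).eval σ) h1 h2
  have h3 := (hlip (MvPolynomial.aeval ln Q) (2 ^ (c₀ + (s + z + 2) * D₁) * M)
    (Pool.KBX.natDegree_aeval_le Q ln hlnd hQ) (fun σ hσ => by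
      rw [Pool.KBX.eval_aeval_poly]
      exact hpt σ hσ)).1 (1 / 2 ^ d) ⟨by positivity, by
        rw [div_le_one h2d]
        exact one_le_pow₀ (by norm_num)⟩
  rw [Pool.KBX.eval_aeval_poly, Pool.KBX.eval_aeval_poly] at h3
  have e2 : (fun o => (ln o).eval (1 / 2 ^ d)) = b := by
    funext o
    rw [hlne]
    field_simp
    ring
  have e3 : (fun o => (ln o).eval 0) = bt F ω := by
    funext o
    rw [hlne, mul_zero, add_zero]
  rw [e2, e3] at h3
  refine h3.trans ?_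
  rw [← hd]
  calc C₂ * (2 ^ (c₀ + (s + z + 2) * D₁) * M) * (1 / 2 ^ d) ≤
      2 ^ k₂ * (2 ^ (c₀ + (s + z + 2) * D₁) * M) * (1 / 2 ^ d) := by
        refine mul_le_mul_of_nonneg_right (mul_le_mul_of_nonneg_right hk₂.le ?_) ?_ <;> positivity
    _ = 2 ^ (k₂ + (c₀ + (s + z + 2) * D₁)) * M / 2 ^ d := by rw [pow_add]; ring
    _ ≤ _ := by
        refine div_le_div_of_nonneg_right (mul_le_mul_of_nonneg_right
          (pow_le_pow_right₀ (by norm_num) ?_) hM) (by positivity)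
        nlinarith [Nat.zero_le (c₀ * s), Nat.zero_le (D₁ * s), Nat.zero_le (k₂ * s),
          Nat.zero_le (c₀ * z), Nat.zero_le (D₁ * z), Nat.zero_le (k₂ * z)]

/-- **The own coordinate of the closed label** near the sample, in a dilated box. -/
theorem cl_lipz (D : ℕ) : ∃ C : ℕ, ∀ {m J : ℕ} {F : Fam m J} {c : ℕ → Fin m} {N W s v : ℕ}
    {A : ℕ → ℕ} {e : ℕ → ℕ} {g : ℕ → ℕ → ℕ} {B : F.Ω → Prop}
    {G : ℕ → PtT F → ℕ → MvPolynomial (Option (Fin m)) ℝ}
    {H : ℕ → LnT F → ℕ → MvPolynomial (Option (Fin m)) ℝ}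
    {pP : PtT F → ℕ → MvPolynomial (Option (Fin m)) ℝ}
    {pH : LnT F → ℕ → MvPolynomial (Option (Fin m)) ℝ} {k a z : ℕ} {ω : F.Ω}
    {b : Option (Fin m) → ℝ},
    Inc F c D N W s v A e g B G H pP pH → N ≤ s → k ≤ N → B ω → A k ≤ a →
    |b none - F.t ω| ≤ 1 / 2 ^ a → |b (some (c 0)) - F.x ω (c 0)| ≤ 2 ^ z / 2 ^ a →
    |(eval b (pP (ptr F J ω) 1) - eval b (G k (ptr F J ω) 1)) -
      (eval (bt F ω) (pP (ptr F J ω) 1) - eval (bt F ω) (G k (ptr F J ω) 1))| ≤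
      2 ^ (C * (s + z + v + 1)) / 2 ^ (g 0 1 + (a - W)) := by
  obtain ⟨C, hpl⟩ := plane_lipz D
  refine ⟨C + 3, ?_⟩
  intro m J F c N W s v A e g B G H pP pH k a z ω b I hNs hk hω hka hb0 hb1
  have hN0 := I.A0
  obtain ⟨U, hU⟩ : ∃ U : ℝ, U = 2 ^ (C * (s + z + 1) + 2 * s + v) / 2 ^ (g 0 1 + (a - W)) := ⟨_, rfl⟩
  have hU0 : 0 ≤ U := by rw [hU]; positivity
  have pw : ∀ {x y : ℕ}, x ≤ y → (2 : ℝ) ^ x ≤ 2 ^ y := fun h => pow_le_pow_right₀ (by norm_num) h
  have h3c : Set.InjOn c (Set.Iio 3) := I.inj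
  have key : ∀ j ≤ k, |(eval b (pP (ptr F J ω) 1) - eval b (G j (ptr F J ω) 1)) -
      (eval (bt F ω) (pP (ptr F J ω) 1) - eval (bt F ω) (G j (ptr F J ω) 1))| ≤
      (j + 1) * U := by
    intro j
    induction j with
    | zero =>
      intro _
      have ok0 := I.ok 0 (Nat.zero_le N)
      have hWa : W ≤ a := (I.AmW hk).trans hka
      have h1 := hpl (Q := pP (ptr F J ω) 1 - G 0 (ptr F J ω) 1) (M := 2 ^ s / 2 ^ g 0 1)
        (b := b) (k := 0) (a := a) (ω := ω) I (Nat.zero_le N) hω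
        ((totalDegree_sub _ _).trans (max_le (I.pd _ _) (ok0.degG _ _)))
        (fun b b' hn hb => by rw [map_sub, map_sub, I.pe _ 1 b b' hn hb, ok0.depG _ 1 b b' hn hb])
        (by positivity) (fun b hb => by
          rw [map_sub]
          exact I.pn ω hω 1 one_pos (by norm_num) b hb) (by rw [hN0]; exact hWa) hb0 hb1
      rw [map_sub, map_sub, hN0] at h1
      have e1 : (eval b (pP (ptr F J ω) 1) - eval b (G 0 (ptr F J ω) 1)) -
          (eval (bt F ω) (pP (ptr F J ω) 1) - eval (bt F ω) (G 0 (ptr F J ω) 1)) =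
          eval b (pP (ptr F J ω) 1) - eval b (G 0 (ptr F J ω) 1) -
            (eval (bt F ω) (pP (ptr F J ω) 1) - eval (bt F ω) (G 0 (ptr F J ω) 1)) := rfl
      rw [e1]
      refine h1.trans ?_
      rw [Nat.cast_zero, zero_add, one_mul, hU, pow_add 2 (g 0 1)]
      calc (2 : ℝ) ^ (C * (s + z + 1)) * (2 ^ s / 2 ^ g 0 1) / 2 ^ (a - W) =
          2 ^ (C * (s + z + 1) + s) / (2 ^ g 0 1 * 2 ^ (a - W)) := by
            rw [pow_add]
            field_simp
        _ ≤ _ := div_le_div_of_nonneg_right (pw (by omega)) (by positivity)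
    | succ j ih =>
      intro hj
      have hjN : j < N := by omega
      have ih' := ih (by omega)
      have okj := I.ok j hjN.le
      have okj' := I.ok (j + 1) (by omega)
      have hAj : A (j + 1) ≤ a := by
        refine le_trans ?_ hka
        clear ih ih' okj okj'
        have : ∀ i, j + 1 + i ≤ N → A (j + 1) ≤ A (j + 1 + i) := by
          intro i
          induction i with
          | zero => intro _; exact le_rfl
          | succ i ih =>
            intro hi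
            exact (ih (by omega)).trans (I.Am (j + 1 + i) (by omega))
        have h1 := this (k - (j + 1)) (by omega)
        rwa [show j + 1 + (k - (j + 1)) = k by omega] at h1
      have h1 := hpl (Q := G (j + 1) (ptr F J ω) 1 - G j (ptr F J ω) 1) (M := 2 ^ s / 2 ^ g j 1)
        (b := b) (k := j + 1) (a := a) (ω := ω) I (by omega) hω
        ((totalDegree_sub _ _).trans (max_le (okj'.degG _ _) (okj.degG _ _)))
        (fun b b' hn hb => by
          rw [map_sub, map_sub, okj'.depG _ 1 b b' hn hb, okj.depG _ 1 b b' hn hb])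
        (by positivity) (fun b hb => by
          rw [map_sub]
          exact I.uni j hjN 1 (by norm_num) ω hω b hb) hAj hb0 hb1
      rw [map_sub, map_sub] at h1
      have e1 : (eval b (pP (ptr F J ω) 1) - eval b (G (j + 1) (ptr F J ω) 1)) -
          (eval (bt F ω) (pP (ptr F J ω) 1) - eval (bt F ω) (G (j + 1) (ptr F J ω) 1)) =
          ((eval b (pP (ptr F J ω) 1) - eval b (G j (ptr F J ω) 1)) -
          (eval (bt F ω) (pP (ptr F J ω) 1) - eval (bt F ω) (G j (ptr F J ω) 1))) -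
          (eval b (G (j + 1) (ptr F J ω) 1) - eval b (G j (ptr F J ω) 1) -
            (eval (bt F ω) (G (j + 1) (ptr F J ω) 1) - eval (bt F ω) (G j (ptr F J ω) 1))) := by
        ring
      rw [e1]
      refine (abs_sub _ _).trans ?_
      have h2 : (2 : ℝ) ^ (C * (s + z + 1)) * (2 ^ s / 2 ^ g j 1) / 2 ^ (a - A (j + 1)) ≤ U := by
        have h3 := I.n1' j hjN.le
        have h4 := I.Av j hjN
        have h5 := I.AW j hjN.le
        rw [hU, ← mul_div_assoc, ← pow_add, div_div, ← pow_add, div_le_div_iff₀ (by positivity)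
          (by positivity), ← pow_add, ← pow_add]
        exact pw (by omega)
      push_cast
      linarith
  refine (key k le_rfl).trans ?_
  have h1 : ((k : ℝ) + 1) ≤ 2 ^ N := by
    have h2 : k + 1 ≤ 2 ^ N := (Nat.succ_le_succ hk).trans (Nat.lt_two_pow_self (n := N))
    exact_mod_cast h2
  calc ((k : ℝ) + 1) * U ≤ 2 ^ N * U := mul_le_mul_of_nonneg_right h1 hU0
    _ = 2 ^ (N + (C * (s + z + 1) + 2 * s + v)) / 2 ^ (g 0 1 + (a - W)) := by
        rw [hU, pow_add 2 N]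
        ring
    _ ≤ _ := by
        refine div_le_div_of_nonneg_right (pw ?_) (by positivity)
        nlinarith [Nat.zero_le (C * v)]

/-- **The natural box of a ball in absolute coordinates.** -/
theorem inc_box (D : ℕ) : ∃ C : ℕ, ∀ {m J : ℕ} {F : Fam m J} {c : ℕ → Fin m} {N W s v : ℕ}
    {A : ℕ → ℕ} {e : ℕ → ℕ} {g : ℕ → ℕ → ℕ} {B : F.Ω → Prop}
    {G : ℕ → PtT F → ℕ → MvPolynomial (Option (Fin m)) ℝ}
    {H : ℕ → LnT F → ℕ → MvPolynomial (Option (Fin m)) ℝ}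
    {pP : PtT F → ℕ → MvPolynomial (Option (Fin m)) ℝ}
    {pH : LnT F → ℕ → MvPolynomial (Option (Fin m)) ℝ} {k a : ℕ} {ω : F.Ω}
    {b : Option (Fin m) → ℝ},
    Inc F c D N W s v A e g B G H pP pH → N ≤ s → k ≤ N → B ω → A k ≤ a → a ≤ A k + v →
    A k ≤ g k 0 + s → NBx c (G k (ptr F J ω)) (g k) a (F.t ω) 2 b →
    |b (some (c 0)) - F.x ω (c 0)| ≤ 2 ^ (C * (s + v + 1)) / 2 ^ a ∧
      |(b (some (c 1)) - eval b (pP (ptr F J ω) 1)) -
        (F.x ω (c 1) - eval (bt F ω) (pP (ptr F J ω) 1))| ≤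
        2 ^ (C * (s + v + 1)) / 2 ^ (g 0 1 + (a - W)) := by
  obtain ⟨C₁, hcl⟩ := cl_lipz D
  refine ⟨3 * C₁ + 5, ?_⟩
  intro m J F c N W s v A e g B G H pP pH k a ω b I hNs hk hω hka hav hg0 hb
  have pw : ∀ {x y : ℕ}, x ≤ y → (2 : ℝ) ^ x ≤ 2 ^ y := fun h => pow_le_pow_right₀ (by norm_num) h
  have hok := I.ok k hk
  have hb0 : |b none - F.t ω| ≤ 1 / 2 ^ A k := hb.1.trans (inv_mono hka)
  -- the first coordinate
  have h1 : |b (some (c 0)) - F.x ω (c 0)| ≤ 2 ^ (2 * s + v + 2) / 2 ^ a := by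
    have k1 := hb.2 0 (by norm_num)
    have k2 := I.own k hk ω hω (b none) hb0
    have k3 : eval b (G k (ptr F J ω) 0) = eval (opt F ω (b none)) (G k (ptr F J ω) 0) :=
      hok.depG _ 0 _ _ (opt_none F ω _).symm fun l hl => absurd hl (Nat.not_lt_zero l)
    rw [k3] at k1
    rw [opt_some] at k2
    have k4 : |(b none - F.t ω) * F.d ω (c 0)| ≤ 1 / 2 ^ a := by
      rw [abs_mul]
      calc |b none - F.t ω| * |F.d ω (c 0)| ≤ 1 / 2 ^ a * 1 :=
            mul_le_mul hb.1 (F.dir ω (c 0)) (abs_nonneg _) (by positivity)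
        _ = _ := mul_one _
    have k5 : (1 : ℝ) / 2 ^ g k 0 ≤ 2 ^ (s + v) / 2 ^ a := by
      rw [div_le_div_iff₀ (by positivity) (by positivity), one_mul, ← pow_add]
      exact pw (by omega)
    have k6 : (2 : ℝ) ^ s / 2 ^ g k 0 ≤ 2 ^ (2 * s + v) / 2 ^ a := by
      calc (2 : ℝ) ^ s / 2 ^ g k 0 = 2 ^ s * (1 / 2 ^ g k 0) := by ring
        _ ≤ 2 ^ s * (2 ^ (s + v) / 2 ^ a) := mul_le_mul_of_nonneg_left k5 (by positivity)
        _ = _ := by
            rw [show 2 * s + v = s + (s + v) by ring, pow_add 2 s (s + v)]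
            ring
    have k7 : (2 : ℝ) ^ (s + v) / 2 ^ a ≤ 2 ^ (2 * s + v) / 2 ^ a :=
      div_le_div_of_nonneg_right (pw (by omega)) (by positivity)
    have k8 : (1 : ℝ) / 2 ^ a ≤ 2 ^ (2 * s + v) / 2 ^ a :=
      div_le_div_of_nonneg_right (one_le_pow₀ (by norm_num)) (by positivity)
    have e1 : b (some (c 0)) - F.x ω (c 0) =
        (b (some (c 0)) - eval (opt F ω (b none)) (G k (ptr F J ω) 0)) -
        (F.x ω (c 0) + (b none - F.t ω) * F.d ω (c 0) -
          eval (opt F ω (b none)) (G k (ptr F J ω) 0)) + (b none - F.t ω) * F.d ω (c 0) := by ring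
    rw [e1]
    refine (abs_add_le _ _).trans ?_
    have k9 := abs_sub (b (some (c 0)) - eval (opt F ω (b none)) (G k (ptr F J ω) 0))
      (F.x ω (c 0) + (b none - F.t ω) * F.d ω (c 0) -
          eval (opt F ω (b none)) (G k (ptr F J ω) 0))
    have e2 : (2 : ℝ) ^ (2 * s + v + 2) / 2 ^ a = 4 * (2 ^ (2 * s + v) / 2 ^ a) := by
      rw [pow_add 2 (2 * s + v)]
      ring
    have k10 : (0 : ℝ) ≤ 2 ^ (2 * s + v) / 2 ^ a := by positivity
    rw [e2]
    linarith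
  -- the second coordinate
  have h2 := hcl (z := 2 * s + v + 2) I hNs hk hω hka hb.1 h1
  have h3 := hb.2 1 (by norm_num)
  have h4 := hok.pos ω hω 1 (by norm_num)
  have h5 : (1 : ℝ) / 2 ^ g k 1 ≤ 2 ^ (s + v) / 2 ^ (g 0 1 + (a - W)) := by
    rw [div_le_div_iff₀ (by positivity) (by positivity), one_mul, ← pow_add]
    exact pw (by
      have k1 := I.n1' k hk
      have k2 := I.AW k hk
      omega)
  refine ⟨h1.trans (div_le_div_of_nonneg_right (pw ?_) (by positivity)), ?_⟩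
  · nlinarith [Nat.zero_le (C₁ * (s + v + 1))]
  · have e1 : (b (some (c 1)) - eval b (pP (ptr F J ω) 1)) -
        (F.x ω (c 1) - eval (bt F ω) (pP (ptr F J ω) 1)) =
        (b (some (c 1)) - eval b (G k (ptr F J ω) 1)) -
        (F.x ω (c 1) - eval (bt F ω) (G k (ptr F J ω) 1)) -
        ((eval b (pP (ptr F J ω) 1) - eval b (G k (ptr F J ω) 1)) -
          (eval (bt F ω) (pP (ptr F J ω) 1) - eval (bt F ω) (G k (ptr F J ω) 1))) := by ring
    rw [e1]
    refine (abs_sub _ _).trans ?_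
    have k1 := abs_sub (b (some (c 1)) - eval b (G k (ptr F J ω) 1))
      (F.x ω (c 1) - eval (bt F ω) (G k (ptr F J ω) 1))
    have k2 : (2 : ℝ) ^ (C₁ * (s + (2 * s + v + 2) + v + 1)) / 2 ^ (g 0 1 + (a - W)) ≤
        2 ^ (3 * C₁ * (s + v + 1)) / 2 ^ (g 0 1 + (a - W)) :=
      div_le_div_of_nonneg_right (pw (by nlinarith [Nat.zero_le (C₁ * v)])) (by positivity)
    have k3 : (2 : ℝ) ^ (s + v) + 2 ^ (s + v) + 2 ^ (3 * C₁ * (s + v + 1)) ≤
        2 ^ ((3 * C₁ + 5) * (s + v + 1)) := by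
      have l1 : (2 : ℝ) ^ (s + v) ≤ 2 ^ ((3 * C₁ + 3) * (s + v + 1)) :=
        pw (by nlinarith [Nat.zero_le (C₁ * (s + v + 1))])
      have l2 : (2 : ℝ) ^ (3 * C₁ * (s + v + 1)) ≤ 2 ^ ((3 * C₁ + 3) * (s + v + 1)) :=
        pw (Nat.mul_le_mul_right _ (by omega))
      have l3 : (2 : ℝ) ^ ((3 * C₁ + 3) * (s + v + 1) + 2) ≤
          2 ^ ((3 * C₁ + 5) * (s + v + 1)) := pw (by nlinarith)
      rw [pow_add] at l3
      have l4 : (0 : ℝ) < 2 ^ ((3 * C₁ + 3) * (s + v + 1)) := by positivity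
      linarith
    have k4 := div_le_div_of_nonneg_right k3 (show (0 : ℝ) ≤ 2 ^ (g 0 1 + (a - W)) by positivity)
    rw [add_div, add_div] at k4
    have k5 := h2.trans k2
    linarith

end Pool.STB82
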