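import Pool.Agent.H82.STB.Bld
import Pool.Agent.H98.STB.Law

/-!
# The chains of lines of a static class: one of the windows

`WinD`: the data of a window. `chh_cls`: if the windows `W + i k`, `i < n`, have the data, then one of
them has the structure `ChH`.
-/

set_option autoImplicit false

namespace Pool.STB82

open Finset Real
open Pool.Agent.H49.Ent Pool.Agent.H32.Dense Pool.STK Pool.KA Pool.KSAT Pool.K2S Pool.PB Pool.S6C
open Pool.GEN Pool.CHT Pool.CHX Pool.D2Con Pool.D2A Pool.D2F Pool.RCD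
open Pool.STB (ChH V3 Po Bx Hb cv val)
open Pool.BFL (Pb)
open Pool.LBT (ThrOf)

variable {m : ℕ}

/-- **The data of the window** `W` with `k` digits behind it, on the event `B`: the position `xo` and
the polynomial `Jo` of the points, closed behind the window, the datum `D` of the lines with the
direction `X` and the polynomial `Φ`. -/
structure WinD {J : ℕ} (F : Fam m J) (B : F.Ω → Prop) (W k b : ℕ) {𝒟 : Type} (D : F.Ω → 𝒟)
    (X : 𝒟 → V3) (Φ : 𝒟 → Po) (xo : F.Ω → V3) (Jo : F.Ω → Po) (K : ℝ) : Prop where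
  cx : Cl2 (slam F (W + k)) (fun ω => ptr F J ω) B xo
  cJ : Cl2 (slam F (W + k)) (fun ω => ptr F J ω) B Jo
  x1 : ∀ ω, B ω → Bx 1 (xo ω)
  J1 : ∀ ω, B ω → (Jo ω).totalDegree ≤ b ∧ ∀ q, Bx 1 q → |MvPolynomial.eval q (Jo ω)| ≤ K
  pos : ∀ ω ω', B ω → B ω' → slam F W ω = slam F W ω' →
    Bx (K / ((2 ^ k : ℕ) : ℝ)) (xo ω' - xo ω -
      (((dg F W k ω' : ℝ) - dg F W k ω) / ((2 ^ k : ℕ) : ℝ)) • X (D ω))
  jet : ∀ ω ω', B ω → B ω' → slam F W ω = slam F W ω' → ∀ q, Bx 4 q →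
    |(MvPolynomial.eval q (Jo ω') + MvPolynomial.eval (q - xo ω') (Φ (D ω))) -
      (MvPolynomial.eval q (Jo ω) + MvPolynomial.eval (q - xo ω) (Φ (D ω)))| ≤
        K / ((2 ^ k : ℕ) : ℝ)

/-- **Nonfullness of the target** in the window `W` with `k` digits behind it. -/
def WinN {J : ℕ} (F : Fam m J) (B : F.Ω → Prop) (W k : ℕ) (xo : F.Ω → V3) (Jo : F.Ω → Po)
    (e h R : ℝ) : Prop :=
  ∀ (Y : Type) (y : F.Ω → Y), Fst (slam F W) (fun ω => ptr F J ω) B y → ∀ q : F.Ω → ℝ, IsLaw q →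
    (∀ ω, q ω ≤ R * Pool.Agent.H49.Ent.cond F.p B True ω) →
      CH q (fun ω => ⌊((2 ^ k : ℕ) : ℝ) * MvPolynomial.eval (xo ω) (Jo ω)⌋)
        (fun ω => (cv (2 ^ k) (xo ω), y ω)) ≤ (1 - h) * Real.log ((2 ^ k : ℕ) : ℝ) + e

/-- **The frame of the window** for the natural velocities of `c (ι 0)`, `c (ι 1)`. -/
structure WinF {J : ℕ} (F : Fam m J) (B : F.Ω → Prop) (c : ℕ → Fin m) (ι : Fin 2 → ℕ) (I : ℕ)
    (β : Fin 2 → ℝ) (h : ℝ) (a₀ N : ℕ) {𝒟 : Type} (D : F.Ω → 𝒟) (X : 𝒟 → V3) (ρ : ℝ) (k₀ e₀ : ℕ)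
    (g : ℕ → ℕ) (ψ : PtT F → ℕ → Option (Fin m) → ℝ) (ψH : LnT F → ℕ → Option (Fin m) → ℝ) :
    Prop where
  fr : FrOK F c (I + 1) a₀ k₀ e₀ g B ψ ψH
  k0 : (k₀ : ℝ) ≤ h * J
  e0 : (e₀ : ℝ) ≤ h * J
  nat : ∀ l, β l * J ≤ g (ι l) + h * J
  gJ : ∀ j ≤ I, (g j : ℝ) + ((2 : ℝ) + 1) * (6 * h) * J ≤ J
  gk : ∀ j < I, k₀ + 1 ≤ g j
  vel : ∀ ω, B ω → ∀ l : Fin 3, |(1 / ρ) * X (D ω) l - Xv F c g a₀ ι ψ ω l| ≤ 1 / 2 ^ N

/-- **One of the windows.** -/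
theorem chh_cls {θ : ℝ} {S : PCl m} {P : List (Fin m) × Fin m → ℝ → ℝ → ℝ}
    (hP : ThrOf (chsys m θ) S P) (hS : TmH S) (c : ℕ → Fin m) (ι : Fin 2 → ℕ) (hι : StrictMono ι)
    (hc : ∀ l, Set.InjOn c (Set.Iio (ι l + 1))) (I : ℕ) (hιI : ∀ l, ι l ≤ I) (n : ℕ) (hn : 0 < n)
    (a : ℕ → ℚ) {h ε c₁ : ℝ} (ha : ∀ i < n, 0 < a i) (ha1 : ∀ i < n, a i ≤ 1) (hh : 0 < h)
    (h1 : ∀ i < n, ∀ l, bet P c (ι l) (a i) (a i) + h ≤ 1)
    (h2 : ∀ i < n, ((2 : ℝ) + 1) * (6 * h) < θ * a i) (hε : 0 < ε) (hc₁ : 0 < c₁) :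
    Bas S (fun J F B => ∀ (W k b N : ℕ) (𝒟 : Type) (D : LnT F → 𝒟) (X : 𝒟 → V3) (Φ : 𝒟 → Po)
      (T : Finset 𝒟) (xo : ℕ → F.Ω → V3) (Jo : ℕ → F.Ω → Po) (K e h' R η ρ : ℝ),
      0 ≤ K → 0 < ρ → (∀ ω, B ω → D (slam F W ω) ∈ T) → Real.log T.card / n ≤ e →
      ε * J + Real.log 3 ≤ e → (∀ d, Bx 1 (X d)) → (∀ d, Hb b 1 (Φ d)) →
      (∀ i < n, W + i * k + k ≤ ⌊(a i : ℝ) * J⌋₊) →
      (∀ i < n, WinD F B (W + i * k) k b (fun ω => D (slam F W ω)) X Φ (xo i) (Jo i) K) →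
      (∀ i < n, WinN F B (W + i * k) k (xo i) (Jo i) e h' R) →
      (∀ i < n, ∃ (k₀ e₀ : ℕ) (g : ℕ → ℕ) (ψ : PtT F → ℕ → Option (Fin m) → ℝ)
        (ψH : LnT F → ℕ → Option (Fin m) → ℝ), WinF F B c ι I (fun l => bet P c (ι l) (a i) (a i)) h
          (W + i * k + k) N (fun ω => D (slam F W ω)) X ρ k₀ e₀ g ψ ψH) →
      ((2 : ℝ) + 1) * (6 * h) * J ≤ N → η ≤ ρ / 2 ^ N →
      ∃ i < n, ∃ (Zt Yt : Type) (zp : PtT F → Zt) (y : F.Ω → Yt) (D' : LnT F → 𝒟) (x : Zt → V3)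
        (Jz : Zt → Po), Fst (slam F (W + i * k + k)) (fun ω => ptr F J ω) B
          (fun ω => zp (ptr F J ω)) ∧
        Fst (slam F (W + i * k)) (fun ω => ptr F J ω) B y ∧
        (∀ ω, D' (slam F (W + i * k) ω) = D (slam F W ω)) ∧
        (∀ ω, B ω → x (zp (ptr F J ω)) = xo i ω) ∧ (∀ ω, B ω → Jz (zp (ptr F J ω)) = Jo i ω) ∧
        ChH (Pool.Agent.H49.Ent.cond F.p B True) (slam F (W + i * k)) (fun ω => zp (ptr F J ω)) y
          (dg F (W + i * k) k) D' X Φ x Jz b (2 ^ k) K e h' R η c₁) := by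
  classical
  -- the classes
  have hgp : ∀ i < n, Bas S (fun J F B => ∀ (a₀ k₀ e₀ : ℕ) (g : ℕ → ℕ)
      (ψ : PtT F → ℕ → Option (Fin m) → ℝ) (ψH : LnT F → ℕ → Option (Fin m) → ℝ), 0 < Pe F.p B →
      FrOK F c (I + 1) a₀ k₀ e₀ g B ψ ψH →
      a₀ ≤ ⌊(a i : ℝ) * J⌋₊ → (k₀ : ℝ) ≤ h * J → (e₀ : ℝ) ≤ h * J →
      (∀ l, bet P c (ι l) (a i) (a i) * J ≤ g (ι l) + h * J) →
      (∀ j ≤ I, (g j : ℝ) + ((2 : ℝ) + 1) * (6 * h) * J ≤ J) → (∀ j < I, k₀ + 1 ≤ g j) →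
      ∀ (ζ : Type) (z : F.Ω → ζ) (w : F.Ω → Fin 3 → ℝ) (N : ℕ),
      Cl2 (slam F a₀) (fun ω => ptr F J ω) B z → ((2 : ℝ) + 1) * (6 * h) * J ≤ N →
      (∀ ω, B ω → ∀ l, |w ω l - Xv F c g a₀ ι ψ ω l| ≤ 1 / 2 ^ N) →
      NoHyp (Pool.Agent.H49.Ent.cond F.p B True) w z (1 / 2 ^ N) c₁) := by
    intro i hi
    obtain ⟨δ, hδ, hG⟩ := gp_fr hP c ι hι hc I hιI (a i) (ha i hi) (ha1 i hi) hh (h1 i hi) (by
      have := h2 i hi
      push_cast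
      exact this)
    obtain ⟨J₂, hJ₂⟩ := exists_nat_ge (Real.log (2 / c₁) / δ)
    refine Bas.mono J₂ hG ?_
    intro J hJ F B hg a₀ k₀ e₀ g ψ ψH hB hfr haa hk he hβ hgJ hgk ζ z w N hz hN hw
    have hlaw := isLaw_cond F.isLaw hB
    have hsub : ∀ ω, Pool.Agent.H49.Ent.cond F.p B True ω * Pe F.p B ≤ 1 * F.p ω := by
      intro ω
      unfold Pool.Agent.H49.Ent.cond
      split_ifs with h4
      · have h5 : law F.p B True = Pe F.p B := (show _ from rfl)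
        rw [h5, div_mul_cancel₀ _ hB.ne', one_mul]
      · rw [zero_mul, one_mul]
        exact F.isLaw.nonneg ω
    obtain ⟨⟨φ, hφ⟩, φ', hφ'⟩ := hz
    have h3 := hg (Pool.Agent.H49.Ent.cond F.p B True) 1 hlaw zero_le_one
      (fun ω hω => cond_pos_B hω) hsub a₀ k₀ e₀ g ψ ψH
      ⟨fun ω hω => hfr.cls ω (cond_pos_B hω), hfr.dep, hfr.depH,
        fun ω hω => hfr.nat ω (cond_pos_B hω), fun ω hω => hfr.lip ω (cond_pos_B hω)⟩ haa hk he hβ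
      (by
        intro j hj
        have := hgJ j hj
        push_cast
        exact this) hgk ζ z w N
      (fun ω ω' h4 h5 h6 => by rw [hφ' ω (cond_pos_B h4), hφ' ω' (cond_pos_B h5), h6])
      (fun ω ω' h4 h5 h6 => by rw [hφ ω (cond_pos_B h4), hφ ω' (cond_pos_B h5), h6])
      (by
        push_cast
        exact hN) (fun ω hω l => hw ω (cond_pos_B hω) l)
    refine h3.mono_le ?_
    rw [one_mul]
    have h7 : Real.log (2 / c₁) ≤ δ * J := by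
      have h8 : Real.log (2 / c₁) / δ ≤ J := hJ₂.trans (by exact_mod_cast hJ)
      rw [div_le_iff₀ hδ] at h8
      linarith
    have h9 : 2 / c₁ ≤ Real.exp (δ * J) := by
      rw [← Real.log_le_iff_le_exp (by positivity)]
      exact h7
    rw [div_le_iff₀ hc₁] at h9
    rw [Real.exp_neg]
    push_cast
    rw [← div_eq_mul_inv, div_le_iff₀ (Real.exp_pos _)]
    linarith
  refine Bas.mono 0 ((Bas.all n hgp).and (full_cls hS hε)) ?_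
  rintro J - F B ⟨hG, hB, hfull⟩ W k b N 𝒟 D X Φ T xo Jo K e h' R η ρ hK hρ hT hTe hεe X1 Φ1 ha₀ hwd
    hwn hwf hN hη
  obtain ⟨i, hi, hfree⟩ := free_win F hB (n := n) (k := k) (W := W) hn T hT
  obtain ⟨Zt, zp, hz⟩ := exists_fst' (slam F (W + i * k + k)) (fun ω => ptr F J ω) B
  obtain ⟨z, hzz⟩ : ∃ z : F.Ω → Zt, z = fun ω => zp (ptr F J ω) := ⟨_, rfl⟩
  rw [← hzz] at hz
  obtain ⟨Yt, y, hy⟩ := exists_fst (slam F (W + i * k)) (fun ω => ptr F J ω) B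
  have hJ : W + i * k + k ≤ J := by
    refine (ha₀ i hi).trans (Nat.floor_le_of_le ?_)
    have : (a i : ℝ) ≤ 1 := by exact_mod_cast ha1 i hi
    have hJ0 : (0 : ℝ) ≤ J := Nat.cast_nonneg J
    nlinarith
  obtain ⟨D', hD'⟩ := lift_D F (W := W) (W' := W + i * k) (by omega) (by omega) D
  have hwi := hwd i hi
  obtain ⟨k₀, e₀, g, ψ, ψH, hf⟩ := hwf i hi
  have hlaw := isLaw_cond F.isLaw hB
  have hno := hG i hi (W + i * k + k) k₀ e₀ g ψ ψH hB hf.fr (ha₀ i hi) hf.k0 hf.e0 hf.nat hf.gJ hf.gk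
    Zt z (fun ω l => (1 / ρ) * X (D (slam F W ω)) l) N hz.cl hN hf.vel
  obtain ⟨x, Jz, hx, hJz, hch⟩ := mk_ChH F hB (W := W + i * k) (k := k) (b := b) hJ hz hy (D := D')
    (X := X) (Φ := Φ) (xo := xo i) (Jo := Jo i) hwi.cx hwi.cJ (K := K) (e := e) (h := h') (R := R)
    (η := η) (c := c₁) hK
    ((by linarith [hfull (W + i * k) k hJ]) : _ ≤ CH (Pool.Agent.H49.Ent.cond F.p B True)
      (dg F (W + i * k) k) (slam F (W + i * k)))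
    (by
      have h3 := hfree Yt Zt y z hy hz
      simp_rw [hD']
      linarith) X1 Φ1 hwi.x1 hwi.J1
    (by
      intro ω ω' h3 h4 h5
      rw [hD']
      exact hwi.pos ω ω' h3 h4 h5)
    (by
      intro ω ω' h3 h4 h5
      rw [hD']
      exact hwi.jet ω ω' h3 h4 h5) (hwn i hi Yt y hy)
    (by
      intro H hH
      have h3 := gp_pb hlaw.nonneg hno hρ (X := fun ω => X (D' (slam F (W + i * k) ω)))
        (fun ω _ => by
          funext l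
          rw [hD', Pi.smul_apply, smul_eq_mul]
          field_simp) H hH
      refine le_trans (Pool.STB.Pb_mono hlaw.nonneg fun ω _ h4 => ?_) h3
      refine le_trans h4 (hη.trans (le_of_eq ?_))
      rw [mul_one_div])
  subst hzz
  exact ⟨i, hi, Zt, Yt, zp, y, D', x, Jz, hz, hy, hD', hx, hJz, hch⟩

end Pool.STB82
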