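import Pool.Agent.H65.STB.Wd
import Pool.Agent.H82.STB.Ins

/-!
# The chain of lines from the positions and the jets

`LevN`: the levels of the two places of slope one at the windows. `winV_num`: the data `WinV` from
inequalities of exponents. `chh_pos`: the class theorem `chh_vis` with the output of `jet_ev`.
-/

set_option autoImplicit false

namespace Pool.STB82

open Finset Real MvPolynomial
open Pool.Agent.H49.Ent Pool.Agent.H32.Dense Pool.STK Pool.KA Pool.KSAT Pool.K2S Pool.PB Pool.S6C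
open Pool.GEN Pool.CHT Pool.CHX Pool.D2F Pool.D2Con
open Pool.STB (ChH V3 Po Bx Hb)
open Pool.STB65 (InpP PosO JetO xD pD tD se)
open Pool.LBT (ThrOf)

variable {m : ℕ}

/-- **The numbers**: `a₀ = W₀ + r` the window, `z` the digits of the scale `σ`, `v` of the velocities,
`x` the excess of the levels. -/
structure LevN (J : ℕ) (β0 β1 : ℝ) (a : ℚ) (e₀ : ℝ) (a₀ W₀ r d k g1 e₁ e₂ x z v : ℕ)
    (Y σ η C : ℝ) : Prop where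
  ha : a₀ = W₀ + r
  zr : z + 2 ≤ r
  aa : a₀ ≤ ⌊(a : ℝ) * J⌋₊
  l0 : ⌊β0 * J⌋₊ ≤ ⌊(a : ℝ) * J⌋₊ + x
  l1 : ⌊β1 * J⌋₊ + W₀ ≤ g1 + ⌊(a : ℝ) * J⌋₊ + x
  Wg : W₀ ≤ g1 + x
  e1 : e₁ + 1 ≤ e₂
  e2 : v + 2 * x + 5 ≤ e₂
  e2J : e₂ ≤ ⌊e₀ * J⌋₊
  J0 : a₀ + x + 2 ≤ J
  J1 : e₂ + g1 + r + x + 4 ≤ J
  sz : 2 * σ ≤ 2 ^ z
  Vv : Y + σ / 2 ^ k ≤ 2 ^ v
  et : σ * η + 2 * (σ / 2 ^ k) ≤ 1 / 2 ^ (v + 2 * x + 6)
  Er : C * Y / 2 ^ d + σ / 2 ^ k ≤ 1 / 2 ^ (x + 2)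

/-- **The data of `gp_vis` at the windows**, from the positions and the numbers. -/
theorem winV_num (K : ℕ) : ∃ C : ℝ, 1 ≤ C ∧ ∀ {m J : ℕ} {F : Fam m J} {B : F.Ω → Prop}
    (c : ℕ → Fin m) (W₀ d k n g1 e₁ e₂ x z v i : ℕ) (Y σ K' β0 β1 e₀ η : ℝ) (a : ℚ)
    (Pv : PtT F → MvPolynomial (Option (Fin m)) ℝ) (P : LnT F → MvPolynomial (Option (Fin m)) ℝ)
    {yt : PtT F → V3} {ctr xo : ℕ → F.Ω → V3} {D₁ : LnT F → V3} {𝒟 : Type} (D : F.Ω → 𝒟)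
    (X : 𝒟 → V3),
    InpP F B W₀ d k n (K + 1) Y (yv F c W₀ g1 P) yt (hgP c W₀ g1 P) →
    PosO F B W₀ d k n σ K' (yv F c W₀ g1 P) (hgP c W₀ g1 P) ctr xo D₁ →
    (∀ ω, B ω → X (D ω) = D₁ (slam F (W₀ + d) ω)) → i < n → W₀ + d + n * k ≤ J → 0 < σ → 0 ≤ Y →
    (∀ y, (Pv y).totalDegree ≤ K) → (∀ y, DepC c 1 (Pv y)) →
    (∀ ω, B ω → Pv (ptr F J ω) = P (slam F W₀ ω)) →
    (∀ ω, B ω → ∀ b : Option (Fin m) → ℝ, |b none - F.t ω| ≤ 1 / 2 ^ W₀ →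
      |b (some (c 0)) - F.x ω (c 0)| ≤ 1 / 2 ^ W₀ →
      |eval b (pderiv (some (c 0)) (Pv (ptr F J ω)))| ≤ 2 ^ e₁) →
    LevN J β0 β1 a e₀ (W₀ + d + i * k + k) W₀ (d + i * k + k) d k g1 e₁ e₂ x z v Y σ η C →
    ∃ (ρ δ' : ℝ) (e₁ e₂ g0 p0 p1 N N0 : ℕ) (mu ε' V : ℝ) (b0 : PtT F → ℝ)
      (b0' : LnT F → ℝ) (P1 : PtT F → MvPolynomial (Option (Fin m)) ℝ)
      (P1' : LnT F → MvPolynomial (Option (Fin m)) ℝ),
      WinV F B c K β0 β1 a e₀ (W₀ + d + i * k + k) D X ρ η δ' e₁ e₂ g0 p0 p1 N N0 mu ε' V b0 b0'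
        P1 P1' := by
  obtain ⟨C, hC, hw⟩ := winV_of K
  refine ⟨C, hC, ?_⟩
  intro m J F B c W₀ d k n g1 e₁ e₂ x z v i Y σ K' β0 β1 e₀ η a Pv P yt ctr xo D₁ 𝒟 D X I O hX hi hJ
    hσ hY hdeg hdep hcl hlip L
  obtain ⟨a₀, ha₀⟩ : ∃ a₀, a₀ = W₀ + d + i * k + k := ⟨_, rfl⟩
  obtain ⟨r, hr⟩ : ∃ r, r = d + i * k + k := ⟨_, rfl⟩
  have hh := L.ha
  have l0 := L.l0
  have l1 := L.l1
  have aa := L.aa
  have zr := L.zr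
  have hJ0 := L.J0
  have hJ1 := L.J1
  rw [← ha₀, ← hr] at hh
  rw [← hr] at zr hJ1
  rw [← ha₀] at aa hJ0
  have hnum : GNum J β0 β1 a e₀ a₀ e₁ e₂ (a₀ - z) (⌊β0 * J⌋₊ + a₀ - ⌊(a : ℝ) * J⌋₊)
      (⌊β1 * J⌋₊ + a₀ - ⌊(a : ℝ) * J⌋₊) (v + 2 * x + 6) (v + x + 4) (2 ^ W₀ / 2 ^ g1)
      ((C * Y / 2 ^ d + σ / 2 ^ k) / 2 ^ r / 2 ^ g1) (2 ^ v) := by
    refine gnum_of (v := v) (q0 := x) (q1 := x) hh aa (by omega) (by omega) (by omega) L.e2J L.Wg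
      L.e1 (by have := L.e2; omega) (by omega) (by positivity) le_rfl (by omega) (by omega)
      (by omega) (by omega) (by omega) L.Er (by omega) (by omega)
  rw [ha₀, hr] at hnum
  obtain ⟨b0, b0', h⟩ := hw c W₀ d k n g1 e₁ e₂ _ _ _ (v + 2 * x + 6) (v + x + 4) i Y σ K' β0 β1 e₀
    η (2 ^ v) a Pv P D X I O hX hi hJ hσ hY hdeg hdep hcl hlip (by
      have h1 : (2 : ℝ) ^ (W₀ + (d + i * k + k)) = 2 ^ z * 2 ^ (W₀ + d + i * k + k - z) := by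
        rw [← pow_add]
        congr 1
        omega
      rw [h1]
      exact mul_le_mul_of_nonneg_right L.sz (by positivity)) (by omega) L.Vv L.et hnum
  exact ⟨_, _, _, _, _, _, _, _, _, _, _, _, b0, b0', _, _, h⟩

/-- **The chain of lines**, class form, from the positions and the jets. -/
theorem chh_pos {θ : ℝ} {S : PCl m} {P : List (Fin m) × Fin m → ℝ → ℝ → ℝ}
    (hP : ThrOf (chsys m θ) S P) (hS : TmH S) (c : ℕ → Fin m) (K₁ : ℕ) (n : ℕ) (hn : 0 < n)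
    (a : ℕ → ℚ) {e₀ h ε c₁ : ℝ} (ha : ∀ i < n, 0 < a i) (ha1 : ∀ i < n, a i ≤ 1) (hθ : 0 < θ)
    (he : ∀ i < n, e₀ < θ * a i) (hh : 0 < h)
    (h0 : ∀ i < n, bet P c 0 (a i) (a i) + h ≤ 1) (h1 : ∀ i < n, bet P c 1 (a i) (a i) + h ≤ 1)
    (hε : 0 < ε) (hc₁ : 0 < c₁) :
    ∃ C : ℝ, 1 ≤ C ∧ Bas S (fun J F B => ∀ (W₀ d k b g1 e₁ e₂ x z v : ℕ)
      (Y σ Kp Kc K κ G e h' R η : ℝ)
      (Pv : PtT F → MvPolynomial (Option (Fin m)) ℝ) (Pl : LnT F → MvPolynomial (Option (Fin m)) ℝ)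
      (yt : PtT F → V3) (f : ℕ → PtT F → Po) (ji : ℕ → ℕ) (ctr xo : ℕ → F.Ω → V3)
      (D₁ : LnT F → V3) (Jo Ci : ℕ → F.Ω → Po) (Φ₁ : LnT F → Po),
      InpP F B W₀ d k n (K₁ + 1) Y (yv F c W₀ g1 Pl) yt (hgP c W₀ g1 Pl) →
      PosO F B W₀ d k n σ Kp (yv F c W₀ g1 Pl) (hgP c W₀ g1 Pl) ctr xo D₁ →
      JetO F B W₀ d k n b σ κ Kc G (yv F c W₀ g1 Pl) f ji ctr xo Jo Ci Φ₁ →
      Kp ≤ K → Kc ≤ K → 0 ≤ K → 0 < σ → 0 ≤ Y →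
      (∀ y, (Pv y).totalDegree ≤ K₁) → (∀ y, DepC c 1 (Pv y)) →
      (∀ ω, B ω → Pv (ptr F J ω) = Pl (slam F W₀ ω)) →
      (∀ ω, B ω → ∀ b : Option (Fin m) → ℝ, |b none - F.t ω| ≤ 1 / 2 ^ W₀ →
        |b (some (c 0)) - F.x ω (c 0)| ≤ 1 / 2 ^ W₀ →
        |eval b (pderiv (some (c 0)) (Pv (ptr F J ω)))| ≤ 2 ^ e₁) →
      (3 + (se b).card) * ((k + 2) * Real.log 2) / n ≤ e → ε * J + Real.log 3 ≤ e →
      W₀ + d + n * k ≤ J →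
      (∀ i < n, LevN J (bet P c 0 (a i) (a i) + h) (bet P c 1 (a i) (a i) + h) (a i) e₀
        (W₀ + d + i * k + k) W₀ (d + i * k + k) d k g1 e₁ e₂ x z v Y σ η C) →
      (∀ i < n, WinN F B (W₀ + d + i * k) k (xo i) (Jo i) e h' R) →
      ∃ i < n, ∃ (Zt Yt : Type) (zp : PtT F → Zt) (y : F.Ω → Yt) (D' : LnT F → V3 × Po)
        (x : Zt → V3) (Jz : Zt → Po),
        Fst (slam F (W₀ + d + i * k + k)) (fun ω => ptr F J ω) B (fun ω => zp (ptr F J ω)) ∧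
        Fst (slam F (W₀ + d + i * k)) (fun ω => ptr F J ω) B y ∧
        (∀ ω, D' (slam F (W₀ + d + i * k) ω) =
          (D₁ (slam F (W₀ + d) ω), Φ₁ (slam F (W₀ + d) ω))) ∧
        (∀ ω, B ω → x (zp (ptr F J ω)) = xo i ω) ∧ (∀ ω, B ω → Jz (zp (ptr F J ω)) = Jo i ω) ∧
        ChH (Pool.Agent.H49.Ent.cond F.p B True) (slam F (W₀ + d + i * k))
          (fun ω => zp (ptr F J ω)) y (dg F (W₀ + d + i * k) k) D' xD (pD b) x Jz b (2 ^ k) K e h'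
          R η c₁) := by
  classical
  obtain ⟨C, hC, hw⟩ := winV_num K₁
  refine ⟨C, hC, Bas.mono 0 (chh_vis hP hS c K₁ n hn a ha ha1 hθ he hh h0 h1 hε hc₁) ?_⟩
  intro J _ F B H W₀ d k b g1 e₁ e₂ x z v Y σ Kp Kc K κ G e h' R η Pv Pl yt f ji ctr xo D₁ Jo Ci Φ₁
    I O Jt hKp hKc hK hσ hY hdeg hdep hcl hlip hcard hεe hWJ hL hN
  have hnR : (0 : ℝ) < n := by exact_mod_cast hn
  refine H (W₀ + d) k b (V3 × Po) (fun s => (D₁ s, Φ₁ s)) xD (pD b) (tD k b) xo Jo K e h' R η hK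
    (fun ω _ => Pool.STB65.mem_tD O Jt _)
    (le_trans (div_le_div_of_nonneg_right (Pool.STB65.log_tD k b) hnR.le) hcard) hεe
    Pool.STB65.xD_bx (Pool.STB65.pD_hb b) hWJ
    (fun i hi => Pool.STB65.wind_of O Jt hKp hKc hi) hN fun i hi => ?_
  exact hw c W₀ d k n g1 e₁ e₂ x z v i Y σ Kp _ _ e₀ η (a i) Pv Pl _ xD I O (fun ω _ => by
    show xD (D₁ (slam F (W₀ + d) ω), Φ₁ (slam F (W₀ + d) ω)) = _
    unfold Pool.STB65.xD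
    exact if_pos (Pool.STB65.grd_bx (O.dg _))) hi hWJ hσ hY hdeg hdep hcl hlip (hL i hi)

/-- The levels, from inequalities of the thresholds. -/
theorem lev_floor {J W₀ g1 x : ℕ} {β0 β1 a : ℝ} (hβ : 0 ≤ β1) (h0 : β0 * J + 1 ≤ a * J + x)
    (h1 : β1 * J + W₀ + 1 ≤ g1 + a * J + x) :
    ⌊β0 * J⌋₊ ≤ ⌊a * J⌋₊ + x ∧ ⌊β1 * J⌋₊ + W₀ ≤ g1 + ⌊a * J⌋₊ + x := by
  have hJ : (0 : ℝ) ≤ J := Nat.cast_nonneg J
  have h2 : a * J < ⌊a * J⌋₊ + 1 := Nat.lt_floor_add_one _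
  constructor
  · refine Nat.floor_le_of_le ?_
    push_cast
    linarith
  · have h5 := Nat.floor_le (show 0 ≤ β1 * J by positivity)
    have h6 : ((⌊β1 * J⌋₊ + W₀ : ℕ) : ℝ) < ((g1 + ⌊a * J⌋₊ + x : ℕ) : ℝ) := by
      push_cast
      linarith
    exact_mod_cast h6.le

end Pool.STB82
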