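import Pool.Agent.H82.STB.Lev
import Pool.Agent.H91.LA.Nbxc

/-!
# The fullness of the two places of slope one in the windows of the chain

`ful_num`: the inequality of the entropies of the boxes of `winN_cls` from the levels. `ful_rec`: the
levels at a window of `RecG`. `fulC_of`: the fullness of the two first places from a nested chain.
-/

set_option autoImplicit false

namespace Pool.STB82

open Finset Real
open Pool.Agent.H49.Ent Pool.Agent.H32.Dense Pool.STK Pool.KA Pool.KSAT Pool.K2S Pool.PB Pool.S6C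
open Pool.GEN Pool.CHT Pool.CHX Pool.D2F Pool.D2Con
open Pool.LBT (ThrOf)
open Pool.PKG (Kg RecG KgQ)
open Pool.LA91 (FulC)

/-- The logarithm of the number of cells. -/
theorem log_box {J n : ℕ} {σ R : ℝ} (hσ : 0 ≤ σ) (hn : n ≤ J) (hR : 0 ≤ R) :
    Real.log (5 * σ * 2 ^ J / 2 ^ n + R + 1) ≤
      ((J : ℝ) - n) * Real.log 2 + Real.log (5 * σ + R + 1) := by
  have h1 : (2 : ℝ) ^ J / 2 ^ n = 2 ^ (J - n) := by
    rw [div_eq_iff (by positivity), ← pow_add, Nat.sub_add_cancel hn]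
  have h2 : (1 : ℝ) ≤ 2 ^ (J - n) := one_le_pow₀ (by norm_num)
  have h3 : 5 * σ * 2 ^ J / 2 ^ n + R + 1 ≤ 2 ^ (J - n) * (5 * σ + R + 1) := by
    rw [mul_div_assoc, h1]
    nlinarith
  have h4 : 0 < 5 * σ * 2 ^ J / 2 ^ n + R + 1 := by positivity
  refine (Real.log_le_log h4 h3).trans ?_
  rw [Real.log_mul (by positivity) (by positivity), Real.log_pow, Nat.cast_sub hn]

/-- **The inequality of the entropies** of `winN_cls`. -/
theorem ful_num {J W₀ g1 r : ℕ} {σ Lp sf0 sf1 δ x0 x1 : ℝ} (h0 : sf0 * J ≤ W₀ + r + x0)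
    (h1 : sf1 * J ≤ g1 + r + x1) (hσ : 0 ≤ σ) (hLp : 0 ≤ Lp) (hJ : W₀ + r ≤ J) (hJ1 : g1 + r ≤ J)
    (hδ : (x0 + x1) * Real.log 2 + 3 * Real.log (5 * σ + Lp + 2) ≤ δ * J) :
    Real.log (5 * σ * 2 ^ J / 2 ^ (W₀ + r) + 1) +
      Real.log (5 * σ * 2 ^ J / 2 ^ (W₀ + r) + 1 + 1) +
      Real.log (5 * σ * 2 ^ J / 2 ^ (g1 + r) + Lp + 1 + 1) ≤
      ((J : ℝ) - ((W₀ + r : ℕ) : ℝ)) * Real.log 2 + (2 - sf0 - sf1) * Real.log 2 * J + δ * J := by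
  have hl : 0 < Real.log 2 := Real.log_pos one_lt_two
  have k1 := log_box (σ := σ) (R := 0) hσ hJ le_rfl
  have k2 := log_box (σ := σ) (R := 1) hσ hJ zero_le_one
  have k3 := log_box (σ := σ) (R := Lp + 1) hσ hJ1 (by linarith)
  rw [add_zero, add_zero] at k1
  have m1 : Real.log (5 * σ + 1) ≤ Real.log (5 * σ + Lp + 2) :=
    Real.log_le_log (by positivity) (by linarith)
  have m2 : Real.log (5 * σ + 1 + 1) ≤ Real.log (5 * σ + Lp + 2) :=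
    Real.log_le_log (by positivity) (by linarith)
  have m3 : Real.log (5 * σ + (Lp + 1) + 1) = Real.log (5 * σ + Lp + 2) := by
    congr 1
    ring
  have m4 : 5 * σ * 2 ^ J / 2 ^ (g1 + r) + (Lp + 1) + 1 =
      5 * σ * 2 ^ J / 2 ^ (g1 + r) + Lp + 1 + 1 := by ring
  rw [m3, m4] at k3
  push_cast at k1 k2 k3 ⊢
  have k4 : (sf0 * J + sf1 * J) * Real.log 2 ≤ (W₀ + r + x0 + (g1 + r + x1)) * Real.log 2 :=
    mul_le_mul_of_nonneg_right (by linarith) hl.le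
  nlinarith

section

variable {m : ℕ} {S : PCl m} {al : ℝ} {g₀ : ℝ → ℝ} {P : List (Fin m) × Fin m → ℝ → ℝ → ℝ}
  {θ : ℝ} {P₂ : ℕ → List (Fin m) × Fin m → ℝ → ℝ → ℝ} {θ₂ Eb e₂ : ℕ → ℝ}
  {c : ℕ → Fin m} {Pt : ℝ → ℝ → ℝ} {rt : ℝ → ℝ} {h K₀ g : ℝ} {L T : ℕ → ℝ → ℝ → ℝ}
  {Sl : ℕ → ℝ} {κ : ℕ → Kg} {G : Set ℝ} {S₀ N : ℕ} {A V : ℕ → ℝ} {S₂ N' : ℕ} {V' : ℕ → ℝ}
  {K ε q t : ℝ}

/-- **The levels at a window of the record** against the windows of the chain. -/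
theorem ful_rec (R : RecG S al g₀ P θ P₂ θ₂ Eb e₂ c Pt rt h K₀ g L T Sl κ G S₀ N A V S₂ N' V' K ε q t)
    (hm : 1 < m) (S1 : Sl 1 = 1) {a w₀ x g' : ℝ} {J W₀ g1 r : ℕ} (hat : |a - t| ≤ K * q)
    (hwt : |w₀ - t| ≤ K * q) (ha : a * J ≤ W₀ + r + x) (hW : (W₀ : ℝ) ≤ w₀ * J)
    (hg : L 1 w₀ w₀ * J ≤ g1 + g') :
    L 0 a a * J ≤ W₀ + r + (x + ε * q * J) ∧
      L 1 a a * J ≤ g1 + r + (x + 2 * (ε * q) * J + g') := by
  have hJ : (0 : ℝ) ≤ J := Nat.cast_nonneg J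
  have d0 := mul_le_mul_of_nonneg_right (abs_le.1 (R.l0 a hat)).2 hJ
  have d1 := (abs_le.1 (R.dL 1 hm a hat)).2
  have d2 := (abs_le.1 (R.dL 1 hm w₀ hwt)).1
  rw [S1, one_mul] at d1 d2
  have d3 := mul_le_mul_of_nonneg_right (show L 1 a a ≤ L 1 w₀ w₀ + (a - w₀) + 2 * (ε * q) by
    linarith) hJ
  constructor
  · nlinarith
  · nlinarith

end

/-- **The fullness of the first places** from a nested chain. -/
theorem fulC_of {m : ℕ} {S : PCl m} {c : ℕ → Fin m} {r r' : ℕ} {w : ℝ} {s : ℕ → ℝ}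
    (h : FulC S c 0 r w s) (hr : r' ≤ r) : FulC S c 0 r' w s := fun ρ hρ =>
  Bas.mono 0 (h ρ hρ) fun _ _ _ _ H V z z' hz i h0 hi => H V z z' hz i h0 (hi.trans_le hr)

end Pool.STB82
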