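import Pool.Agent.H82.STB.Chp
import Pool.Agent.H6.STB.Vn
import Pool.Agent.H3.D2G.RecG

/-!
# The numbers of the chain of lines

`levN_vn`: the structure `LevN` from one linear inequality `A (y + x + 1) ≤ τ k`, with `d = k`,
`Y = 2 ^ y`, `σ = Y ^ 2`. `lev_rec`: the levels of the two places of slope one from `RecG`.
-/

set_option autoImplicit false

namespace Pool.STB82

open Finset Real
open Pool.Agent.H49.Ent Pool.Agent.H32.Dense Pool.STK Pool.KA Pool.KSAT Pool.K2S Pool.PB Pool.S6C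
open Pool.GEN Pool.CHT Pool.CHX Pool.D2F Pool.D2Con
open Pool.LBT (ThrOf)
open Pool.PKG (Kg RecG KgQ)

/-- **The numbers** of the chain: `d = k`, `Y = 2 ^ y`, `σ = Y ^ 2`, `η = (2 ^ k) ^ (-γ₀)`. -/
theorem levN_vn {J k y x W₀ g1 e₁ e₂ i cc : ℕ} {A τ γ₀ C β0 β1 e₀ : ℝ} {a : ℚ}
    (H : A * ((y : ℝ) + x + 1) ≤ τ * k) (hcA : (cc : ℝ) + 9 ≤ A) (hC : C ≤ 2 ^ cc) (hτγ : τ ≤ γ₀)
    (hτ : τ ≤ 1) (aa : W₀ + k + i * k + k ≤ ⌊(a : ℝ) * J⌋₊)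
    (l0 : ⌊β0 * J⌋₊ ≤ ⌊(a : ℝ) * J⌋₊ + x) (l1 : ⌊β1 * J⌋₊ + W₀ ≤ g1 + ⌊(a : ℝ) * J⌋₊ + x)
    (Wg : W₀ ≤ g1 + x) (e1 : e₁ + 1 ≤ e₂) (e2 : y + 2 * x + 6 ≤ e₂) (e2J : e₂ ≤ ⌊e₀ * J⌋₊)
    (J1 : e₂ + g1 + (k + i * k + k) + x + 4 ≤ J) :
    LevN J β0 β1 a e₀ (W₀ + k + i * k + k) W₀ (k + i * k + k) k k g1 e₁ e₂ x (2 * y + 1) (y + 1)
      (2 ^ y) ((2 ^ y) ^ 2) ((((2 ^ k : ℕ) : ℝ)) ^ (-γ₀)) C := by
  have hc0 : (0 : ℝ) ≤ cc := Nat.cast_nonneg cc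
  have hA9 : (9 : ℝ) ≤ A := by linarith
  have hyk : 2 * y + 3 ≤ k := Pool.STB6.lin_nat H hτ (a := 2) (b := 0) (c := 3) (by omega)
    (by push_cast; linarith) (by push_cast; linarith) (by push_cast; linarith)
  refine ⟨by omega, by omega, aa, l0, l1, Wg, e1, by omega, e2J, by omega, J1, ?_, ?_, ?_, ?_⟩
  · rw [← pow_mul, pow_succ, mul_comm y 2]
    exact (mul_comm _ _).le
  · exact Pool.STB6.vn_V H (by linarith) hτ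
  · have h := Pool.STB6.vn_N H hA9 hτγ hτ
    have h1 : y + 1 + 2 * x + 6 = y + 2 * x + 7 := by ring
    rw [h1]
    exact h
  · exact Pool.STB6.vn_Er H hC (by linarith) hτ

section

variable {m : ℕ} {S : PCl m} {al : ℝ} {g₀ : ℝ → ℝ} {P : List (Fin m) × Fin m → ℝ → ℝ → ℝ}
  {θ : ℝ} {P₂ : ℕ → List (Fin m) × Fin m → ℝ → ℝ → ℝ} {θ₂ Eb e₂ : ℕ → ℝ}
  {c : ℕ → Fin m} {Pt : ℝ → ℝ → ℝ} {r : ℝ → ℝ} {h K₀ g : ℝ} {L T : ℕ → ℝ → ℝ → ℝ}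
  {Sl : ℕ → ℝ} {κ : ℕ → Kg} {G : Set ℝ} {S₀ N : ℕ} {A V : ℕ → ℝ} {S₂ N' : ℕ} {V' : ℕ → ℝ}
  {K ε q t : ℝ}

/-- The floors of two levels. -/
theorem floor_lev {β a x' : ℝ} {J W₀ g1 x : ℕ} (ha : 0 ≤ a)
    (hβ : β * J + W₀ ≤ g1 + a * J + x') (hW : W₀ ≤ g1 + ⌊a * J⌋₊ + x) (hx : x' + 1 ≤ x) :
    ⌊β * J⌋₊ + W₀ ≤ g1 + ⌊a * J⌋₊ + x := by
  have hJ : (0 : ℝ) ≤ J := Nat.cast_nonneg J
  have h1 := Nat.lt_floor_add_one (a * (J : ℝ))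
  rcases le_or_gt 0 (β * J) with hb | hb
  · have h2 := Nat.floor_le hb
    have h3 : ((⌊β * J⌋₊ + W₀ : ℕ) : ℝ) ≤ ((g1 + ⌊a * J⌋₊ + x : ℕ) : ℝ) := by
      push_cast
      linarith
    exact_mod_cast h3
  · rw [Nat.floor_of_nonpos hb.le]
    omega

/-- **The levels of the two places of slope one**, from the record. -/
theorem lev_rec (R : RecG S al g₀ P θ P₂ θ₂ Eb e₂ c Pt r h K₀ g L T Sl κ G S₀ N A V S₂ N' V' K ε q t)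
    (hm : 2 < m) (S1 : Sl 1 = 1) {a w₀ h' w' g' : ℝ} {J W₀ g1 x : ℕ} (hat : |a - t| ≤ K * q)
    (hwt : |w₀ - t| ≤ K * q) (haw : w₀ ≤ a)
    (hW : (W₀ : ℝ) ≤ w₀ * J + w') (hg : L 1 w₀ w₀ * J ≤ g1 + g') (hg' : 0 ≤ g')
    (hx : (2 * (ε * q) + h') * J + w' + g' + 1 ≤ x) (hh' : 0 ≤ h') (hε : 0 ≤ ε * q)
    (hw' : 0 ≤ w') :
    ⌊(bet P c 0 a a + h') * J⌋₊ ≤ ⌊a * J⌋₊ + x ∧
      ⌊(bet P c 1 a a + h') * J⌋₊ + W₀ ≤ g1 + ⌊a * J⌋₊ + x := by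
  have hJ : (0 : ℝ) ≤ J := Nat.cast_nonneg J
  have ha : 0 ≤ a := by
    have h1 := R.t0
    have h2 := (abs_le.1 hat).1
    linarith
  have e0 : bet P c 0 a a = L 0 a a := by rw [R.lv_lt (l := 0) (by omega)]
  have e1 : bet P c 1 a a = L 1 a a := by rw [R.lv_lt (l := 1) (by omega)]
  have d0 := (abs_le.1 (R.l0 a hat)).2
  have d1 := (abs_le.1 (R.dL 1 (by omega) a hat)).2
  have d2 := (abs_le.1 (R.dL 1 (by omega) w₀ hwt)).1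
  rw [S1, one_mul] at d1 d2
  have hεJ : 0 ≤ ε * q * J := mul_nonneg hε hJ
  have hh'J : 0 ≤ h' * J := mul_nonneg hh' hJ
  have hWx : W₀ ≤ ⌊a * J⌋₊ + x := by
    have h1 := Nat.lt_floor_add_one (a * (J : ℝ))
    have h2 : w₀ * J ≤ a * J := mul_le_mul_of_nonneg_right haw hJ
    have h3 : (W₀ : ℝ) ≤ ((⌊a * J⌋₊ + x : ℕ) : ℝ) := by
      push_cast
      nlinarith
    exact_mod_cast h3
  constructor
  · rw [e0]
    have h1 : (L 0 a a + h') * J ≤ a * J + (ε * q + h') * J := by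
      have := mul_le_mul_of_nonneg_right (show L 0 a a + h' ≤ a + (ε * q + h') by linarith) hJ
      linarith
    have h2 := floor_lev (β := L 0 a a + h') (a := a)
      (x' := (ε * q + h') * J) (J := J) (W₀ := 0) (g1 := 0) (x := x) ha (by
        push_cast
        linarith) (by omega) (by nlinarith)
    omega
  · rw [e1]
    have h1 : (L 1 a a + h') * J ≤ (L 1 w₀ w₀ + (a - w₀) + (2 * (ε * q) + h')) * J :=
      mul_le_mul_of_nonneg_right (by linarith) hJ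
    refine floor_lev (x' := (2 * (ε * q) + h') * J + w' + g') ha ?_
      (by omega) (by linarith)
    nlinarith

end

end Pool.STB82
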