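import Mathlib.Analysis.SpecialFunctions.Pow.Real
import Mathlib.Algebra.Order.Floor.Semiring

/-!
# The windows of the chain and a grid of balls

The first window is `W₀ = ⌊A₀ J⌋`, the windows of the chain are `W₀ + k + i k`, `k = ⌊kr q J⌋`; the
balls are `⌊(A₀ + j ρ q) J⌋`. `gjb`: the ball below a window; `gja`: the ball above.
-/

set_option autoImplicit false

namespace Pool.STB82

/-- The index of the ball below the window `i`. -/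
noncomputable def gjb (kr ρ : ℝ) (i : ℕ) : ℕ := ⌊((i : ℝ) + 1) * kr / ρ⌋₊ - 1

/-- The index of the ball above the window `i`. -/
noncomputable def gja (kr ρ : ℝ) (i : ℕ) : ℕ := ⌊((i : ℝ) + 1) * kr / ρ⌋₊ + 1

theorem gjb_le {kr ρ : ℝ} {i n N : ℕ} (hρ : 0 < ρ) (hk : 0 ≤ kr) (hi : i ≤ n)
    (hN : ((n : ℝ) + 1) * kr ≤ N * ρ) : gjb kr ρ i ≤ N := by
  unfold gjb
  have h1 : ((i : ℝ) + 1) * kr / ρ ≤ N := by
    rw [div_le_iff₀ hρ]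
    have h2 : (i : ℝ) ≤ n := by exact_mod_cast hi
    nlinarith
  have h2 : ⌊((i : ℝ) + 1) * kr / ρ⌋₊ ≤ N := Nat.floor_le_of_le h1
  omega

theorem gja_le {kr ρ : ℝ} {i n N : ℕ} (hρ : 0 < ρ) (hk : 0 ≤ kr) (hi : i ≤ n)
    (hN : ((n : ℝ) + 1) * kr + ρ ≤ N * ρ) : gja kr ρ i ≤ N := by
  unfold gja
  have h1 : ((i : ℝ) + 1) * kr / ρ + 1 ≤ N := by
    have h3 : ((i : ℝ) + 1) * kr / ρ + 1 = (((i : ℝ) + 1) * kr + ρ) / ρ := by field_simp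
    rw [h3, div_le_iff₀ hρ]
    have h2 : (i : ℝ) ≤ n := by exact_mod_cast hi
    nlinarith
  have h2 : ((⌊((i : ℝ) + 1) * kr / ρ⌋₊ : ℕ) : ℝ) ≤ ((i : ℝ) + 1) * kr / ρ :=
    Nat.floor_le (by positivity)
  have h3 : ((⌊((i : ℝ) + 1) * kr / ρ⌋₊ + 1 : ℕ) : ℝ) ≤ N := by
    push_cast
    linarith
  exact_mod_cast h3

/-- The offsets of the balls. -/
theorem gjb_off {kr ρ : ℝ} (i : ℕ) (hρ : 0 < ρ) (hk : ρ ≤ kr) :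
    (gjb kr ρ i : ℝ) * ρ ≤ ((i : ℝ) + 1) * kr - ρ ∧
      ((i : ℝ) + 1) * kr ≤ (gjb kr ρ i : ℝ) * ρ + 2 * ρ := by
  obtain ⟨f, hf⟩ : ∃ f : ℕ, f = ⌊((i : ℝ) + 1) * kr / ρ⌋₊ := ⟨_, rfl⟩
  have hk0 : 0 < kr := hρ.trans_le hk
  have h1 : (f : ℝ) ≤ ((i : ℝ) + 1) * kr / ρ := by rw [hf]; exact Nat.floor_le (by positivity)
  have h2 : ((i : ℝ) + 1) * kr / ρ < f + 1 := by rw [hf]; exact Nat.lt_floor_add_one _
  rw [le_div_iff₀ hρ] at h1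
  rw [div_lt_iff₀ hρ] at h2
  have h3 : 1 ≤ f := by
    rw [hf, Nat.one_le_floor_iff, le_div_iff₀ hρ]
    have : (0 : ℝ) ≤ i := Nat.cast_nonneg i
    nlinarith
  have h4 : ((gjb kr ρ i : ℕ) : ℝ) = f - 1 := by
    unfold gjb
    rw [← hf, Nat.cast_sub h3, Nat.cast_one]
  rw [h4]
  constructor <;> linarith

theorem gja_off {kr ρ : ℝ} (i : ℕ) (hρ : 0 < ρ) (hk : 0 ≤ kr) :
    ((i : ℝ) + 1) * kr ≤ (gja kr ρ i : ℝ) * ρ ∧ (gja kr ρ i : ℝ) * ρ ≤ ((i : ℝ) + 1) * kr + ρ := by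
  obtain ⟨f, hf⟩ : ∃ f : ℕ, f = ⌊((i : ℝ) + 1) * kr / ρ⌋₊ := ⟨_, rfl⟩
  have h1 : (f : ℝ) ≤ ((i : ℝ) + 1) * kr / ρ := by rw [hf]; exact Nat.floor_le (by positivity)
  have h2 : ((i : ℝ) + 1) * kr / ρ < f + 1 := by rw [hf]; exact Nat.lt_floor_add_one _
  rw [le_div_iff₀ hρ] at h1
  rw [div_lt_iff₀ hρ] at h2
  have h4 : ((gja kr ρ i : ℕ) : ℝ) = f + 1 := by
    unfold gja
    rw [← hf, Nat.cast_add, Nat.cast_one]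
  rw [h4]
  constructor <;> linarith

/-- **The windows and the balls.** -/
theorem grid_num {A₀ q kr ρ : ℝ} (hA : 0 ≤ A₀) (hq : 0 < q) (hρ : 0 < ρ) (hk : ρ ≤ kr) (n : ℕ) :
    ∃ J₀ : ℕ, ∀ J : ℕ, J₀ ≤ J → ∀ W₀ k : ℕ, W₀ = ⌊A₀ * J⌋₊ → k = ⌊kr * q * J⌋₊ → ∀ i ≤ n,
      ⌊(A₀ + gjb kr ρ i * ρ * q) * J⌋₊ ≤ W₀ + k + i * k ∧
      W₀ + k + i * k ≤ ⌊(A₀ + gjb kr ρ i * ρ * q) * J⌋₊ + (⌊2 * ρ * q * J⌋₊ + 1) ∧
      ((W₀ + k + i * k : ℕ) : ℝ) ≤ (A₀ + ((i : ℝ) + 1) * kr * q) * J ∧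
      (A₀ + ((i : ℝ) + 1) * kr * q) * J ≤ W₀ + k + i * k + (n + 2) := by
  obtain ⟨J₀, hJ₀⟩ := exists_nat_ge (((n : ℝ) + 2) / (ρ * q))
  refine ⟨J₀, fun J hJ W₀ k hW hkk i hi => ?_⟩
  have hk0 : 0 < kr := hρ.trans_le hk
  have hJ0 : (0 : ℝ) ≤ J := Nat.cast_nonneg J
  have hi' : (i : ℝ) ≤ n := by exact_mod_cast hi
  have hi0 : (0 : ℝ) ≤ i := Nat.cast_nonneg i
  have hρq : (n : ℝ) + 2 ≤ ρ * q * J := by
    have h1 : ((n : ℝ) + 2) / (ρ * q) ≤ J := hJ₀.trans (by exact_mod_cast hJ)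
    rw [div_le_iff₀ (by positivity)] at h1
    linarith
  obtain ⟨h1, h2⟩ := gjb_off i hρ hk
  obtain ⟨j, hj⟩ : ∃ j : ℝ, j = (gjb kr ρ i : ℝ) * ρ := ⟨_, rfl⟩
  rw [← hj] at h1 h2 ⊢
  have hj0 : 0 ≤ j := by rw [hj]; positivity
  have w1 : (W₀ : ℝ) ≤ A₀ * J := by rw [hW]; exact Nat.floor_le (by positivity)
  have w2 : A₀ * J < W₀ + 1 := by rw [hW]; exact Nat.lt_floor_add_one _
  have k1 : (k : ℝ) ≤ kr * q * J := by rw [hkk]; exact Nat.floor_le (by positivity)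
  have k2 : kr * q * J < k + 1 := by rw [hkk]; exact Nat.lt_floor_add_one _
  have e1 : ((W₀ + k + i * k : ℕ) : ℝ) = W₀ + ((i : ℝ) + 1) * k := by
    push_cast
    ring
  have u1 : ((i : ℝ) + 1) * k ≤ ((i : ℝ) + 1) * (kr * q * J) :=
    mul_le_mul_of_nonneg_left k1 (by linarith)
  have u2 : ((i : ℝ) + 1) * (kr * q * J) ≤ ((i : ℝ) + 1) * (k + 1) :=
    mul_le_mul_of_nonneg_left k2.le (by linarith)
  have hjq : j * q * J ≤ (((i : ℝ) + 1) * kr - ρ) * q * J :=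
    mul_le_mul_of_nonneg_right (mul_le_mul_of_nonneg_right h1 hq.le) hJ0
  have hjq' : (((i : ℝ) + 1) * kr) * q * J ≤ (j + 2 * ρ) * q * J :=
    mul_le_mul_of_nonneg_right (mul_le_mul_of_nonneg_right h2 hq.le) hJ0
  have f1 : ((⌊(A₀ + j * q) * (J : ℝ)⌋₊ : ℕ) : ℝ) ≤ (A₀ + j * q) * J :=
    Nat.floor_le (by positivity)
  have f2 : (A₀ + j * q) * (J : ℝ) < ⌊(A₀ + j * q) * (J : ℝ)⌋₊ + 1 := Nat.lt_floor_add_one _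
  have f3 : 2 * ρ * q * (J : ℝ) < ⌊2 * ρ * q * (J : ℝ)⌋₊ + 1 := Nat.lt_floor_add_one _
  refine ⟨?_, ?_, ?_, ?_⟩
  · have h3 : ((⌊(A₀ + j * q) * (J : ℝ)⌋₊ : ℕ) : ℝ) < ((W₀ + k + i * k : ℕ) : ℝ) + 1 := by
      rw [e1]
      nlinarith
    have h4 : ⌊(A₀ + j * q) * (J : ℝ)⌋₊ < W₀ + k + i * k + 1 := by exact_mod_cast h3
    omega
  · have h3 : ((W₀ + k + i * k : ℕ) : ℝ) <
        ((⌊(A₀ + j * q) * (J : ℝ)⌋₊ + (⌊2 * ρ * q * (J : ℝ)⌋₊ + 1) + 1 : ℕ) : ℝ) := by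
      rw [e1]
      push_cast
      nlinarith
    have h4 : W₀ + k + i * k < ⌊(A₀ + j * q) * (J : ℝ)⌋₊ + (⌊2 * ρ * q * (J : ℝ)⌋₊ + 1) + 1 := by
      exact_mod_cast h3
    omega
  · rw [e1]
    nlinarith
  · have h5 : (W₀ : ℝ) + k + i * k = W₀ + ((i : ℝ) + 1) * k := by ring
    rw [h5]
    nlinarith

/-- The rational windows: above the windows of the chain, at distance at most `ν q`. -/
theorem rat_win {A₀ q kr ν : ℝ} (hq : 0 < q) (hν : 0 < ν) : ∃ a : ℕ → ℚ, ∀ i : ℕ,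
    A₀ + ((i : ℝ) + 2) * kr * q ≤ (a i : ℝ) ∧ (a i : ℝ) ≤ A₀ + ((i : ℝ) + 2) * kr * q + ν * q := by
  have h : ∀ i : ℕ, ∃ a : ℚ, A₀ + ((i : ℝ) + 2) * kr * q ≤ a ∧
      (a : ℝ) ≤ A₀ + ((i : ℝ) + 2) * kr * q + ν * q := fun i => by
    obtain ⟨a, h1, h2⟩ := exists_rat_btwn (show A₀ + ((i : ℝ) + 2) * kr * q <
      A₀ + ((i : ℝ) + 2) * kr * q + ν * q by linarith [mul_pos hν hq])
    exact ⟨a, h1.le, h2.le⟩
  choose a ha using h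
  exact ⟨a, ha⟩

/-- The window `i` and its length are below the rational window. -/
theorem rat_floor {A₀ q kr : ℝ} {a : ℚ} {J W₀ k i : ℕ}
    (ha : A₀ + ((i : ℝ) + 2) * kr * q ≤ a) (hW : (W₀ : ℝ) ≤ A₀ * J)
    (hk : (k : ℝ) ≤ kr * q * J) : W₀ + k + i * k + k ≤ ⌊(a : ℝ) * J⌋₊ := by
  have hJ : (0 : ℝ) ≤ J := Nat.cast_nonneg J
  refine Nat.le_floor ?_
  push_cast
  have h1 := mul_le_mul_of_nonneg_right ha hJ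
  have h2 : ((i : ℝ) + 2) * k ≤ ((i : ℝ) + 2) * (kr * q * J) :=
    mul_le_mul_of_nonneg_left hk (by positivity)
  nlinarith

end Pool.STB82
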