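import Pool.Agent.H77.STB.Nwd
import Pool.Agent.H63.STAT.Lab2M
import Pool.Agent.H3.D2G.RecG

/-!
# Nodes at the windows of a record

`thin_nod`: a weak node at one point of a class, from the data of a path, without growth of the
levels to the right. `nodF_rec`, `nodF_pair`: at the windows and the pairs of `RecG`.
-/

set_option autoImplicit false

namespace Pool.STB82

open Finset Real MvPolynomial
open Pool.Agent.H49.Ent Pool.Agent.H32.Dense Pool.STK Pool.KA Pool.KSAT Pool.K2S Pool.PB Pool.S6C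
open Pool.GEN Pool.CHT Pool.CHX Pool.ISO
open Pool.LBT (ThrOf bas_false)
open Pool.LEV (Law)
open Pool.ONE (tgs)
open Pool.Z3 (jn jn_lt jn_self nbx_jn join_top share_ex)
open Pool.PKG (Kg RecG KgQ PtI)
open Pool.STB77 (NodW NodF)

variable {m J : ℕ}

/-- From the class to the large events of its members. -/
theorem relvF_F {S : PCl m} {c : ℕ → Fin m} {r D Dr : ℕ} {β d : ℕ → ℝ} {a w e₀ η : ℝ}
    (h : Bas S (fun J F A => ∀ (B : F.Ω → Prop)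
        (T : PtT F → ℕ → MvPolynomial (Option (Fin m)) ℝ)
        (TH : LnT F → ℕ → MvPolynomial (Option (Fin m)) ℝ), Sub B A →
        1 * Pe F.p A ≤ Pe F.p B →
        ChOK F c r (fun _ => D) ⌊a * J⌋₊ ⌊w * J⌋₊ ⌊e₀ * J⌋₊
          (fun l => ⌊(β l - d l) * J⌋₊) B T TH →
        RelvF F c r ⌊a * J⌋₊ ⌊w * J⌋₊ (fun l => ⌊(β l - d l) * J⌋₊) Dr ⌊η * J⌋₊ 1 B T)) :
    ∃ ψ : ℝ, 0 < ψ ∧ ∀ κ₁ : ℝ, 0 < κ₁ → Bas S (fun J F A => ∀ (B : F.Ω → Prop)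
        (T : PtT F → ℕ → MvPolynomial (Option (Fin m)) ℝ)
        (TH : LnT F → ℕ → MvPolynomial (Option (Fin m)) ℝ), Sub B A →
        κ₁ * Pe F.p A ≤ Pe F.p B →
        ChOK F c r (fun _ => D) ⌊a * J⌋₊ ⌊w * J⌋₊ ⌊e₀ * J⌋₊
          (fun l => ⌊(β l - d l) * J⌋₊) B T TH →
        RelvF F c r ⌊a * J⌋₊ ⌊w * J⌋₊ (fun l => ⌊(β l - d l) * J⌋₊) Dr ⌊η * J⌋₊
          (Real.exp (-(ψ * J))) B T) := by
  obtain ⟨τ, hτ, J₀, h⟩ := h
  refine ⟨τ / 4, by positivity, fun κ₁ hκ₁ => ?_⟩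
  obtain ⟨J₁, hJ₁⟩ := share_ex (ψ := τ / 4) (by positivity) hκ₁
  refine ⟨τ / 4, by positivity, max J₀ J₁, ?_⟩
  intro J hJ F A hA B₀ T TH hB₀ hP hT B' hB' hP' Dx Dl M h1 h2 h3 h4 hM h5 h6
  have hS := S.res (τ' := τ / 2) (by positivity) hA (fun ω h => hB₀ ω (hB' ω h)) (by
    calc Real.exp (-(τ / 2 * J)) * Pe F.p A =
          Real.exp (-(τ / 4 * J)) * (Real.exp (-(τ / 4 * J)) * Pe F.p A) := by
          rw [← mul_assoc, ← Real.exp_add]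
          congr 2
          ring
      _ ≤ Real.exp (-(τ / 4 * J)) * (κ₁ * Pe F.p A) :=
          mul_le_mul_of_nonneg_left (mul_le_mul_of_nonneg_right
            (hJ₁ J ((le_max_right _ _).trans hJ)) (Pe_nonneg F.isLaw A)) (Real.exp_pos _).le
      _ ≤ Real.exp (-(τ / 4 * J)) * Pe F.p B₀ := mul_le_mul_of_nonneg_left hP (Real.exp_pos _).le
      _ ≤ _ := hP')
  exact h J ((le_max_left _ _).trans hJ) F B' (S.mono (by linarith) hS) B' T TH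
    (fun _ h => h) (by rw [one_mul]) (hT.sub hB') B' (fun _ h => h) (by rw [one_mul]) Dx Dl M h1 h2
    h3 h4 hM h5 h6

/-- Only the labels and the precisions of the list matter. -/
theorem relvF_jn {F : Fam m J} {c : ℕ → Fin m} {r a w Dr h : ℕ} {gT g' : ℕ → ℕ} {κ : ℝ}
    {B : F.Ω → Prop} {T N : PtT F → ℕ → MvPolynomial (Option (Fin m)) ℝ}
    (hR : RelvF F c r a w gT Dr h κ B T) :
    RelvF F c r a w (jn r gT g') Dr h κ B (fun y => jn r (T y) (N y)) := by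
  intro B' hB hP Dx Dl M h1 h2 h3 h4 hM h5 h6
  obtain ⟨B'', k1, k2, k3⟩ := hR B' hB hP Dx Dl M h1 h2 h3 h4 hM h5 fun ω hω b hb =>
    h6 ω hω b ((nbx_jn le_rfl).2 hb)
  exact ⟨B'', k1, k2, fun ω hω b hb => k3 ω hω b ((nbx_jn le_rfl).1 hb)⟩

/-- **A node at one point of a class**, from the data of a path. -/
theorem thin_nod (r S₀ : ℕ) (hr : 1 ≤ r) (hS₀ : 1 ≤ S₀) : ∃ D : ℕ, 1 ≤ D ∧
    ∀ {m : ℕ} {S : PCl m} {P : List (Fin m) × Fin m → ℝ → ℝ → ℝ} {θ : ℝ} {c : ℕ → Fin m}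
    {Pt : ℝ → ℝ → ℝ} {a w ρ Eb : ℝ} {vs e e₀ E sg : ℝ → ℝ} {Q : Set ℝ}, ThrOf (chsys m θ) S P →
    0 < θ → TmH S → Set.InjOn c (Set.Iio (r + 1)) → Law Pt →
    PtD S P θ c r Pt a w ρ S₀ vs e e₀ E sg Q → e₀ 0 ≤ Eb → E 0 ≤ Eb →
    NodF S c r D (lvN P c r Pt) Eb Eb a w := by
  obtain ⟨D, hD, hth⟩ := thin_labs r S₀ hr hS₀
  obtain ⟨C, hjn⟩ := join_top D r hD
  refine ⟨D, hD, ?_⟩
  intro m S P θ c Pt a w ρ Eb vs e e₀ E sg Q hP hθ hS hinj hPt hd heEb hEEb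
  refine ⟨hD, fun Dr η σ hη hσ => ?_⟩
  have h0 := hd.self
  have ha0 := hd.a0
  have hw0 := hd.w0
  have hvs := h0.vs0
  have hE0 := hd.E0
  have hEb0 : 0 < Eb := by linarith
  have hC0 : (0 : ℝ) ≤ C := Nat.cast_nonneg C
  obtain ⟨δ, hδ⟩ : ∃ δ : ℝ, δ = min (σ / 4) (a / 2) := ⟨_, rfl⟩
  have hδ0 : 0 < δ := by
    rw [hδ]
    exact lt_min (by positivity) (by positivity)
  have hδ2 : δ ≤ σ / 4 := by rw [hδ]; exact min_le_left _ _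
  have hδ3 : δ ≤ a / 2 := by rw [hδ]; exact min_le_right _ _
  obtain ⟨η₁, hη₁⟩ : ∃ η₁ : ℝ, η₁ = δ / (8 * (C + 1)) := ⟨_, rfl⟩
  have hη0 : 0 < η₁ := by rw [hη₁]; positivity
  have hηC : (C + 1) * η₁ = δ / 8 := by
    rw [hη₁]
    field_simp
  obtain ⟨η₂, hη₂⟩ : ∃ η₂ : ℝ, η₂ = min η₁ η := ⟨_, rfl⟩
  have hη20 : 0 < η₂ := by rw [hη₂]; exact lt_min hη0 hη
  have hη21 : η₂ ≤ η₁ := by rw [hη₂]; exact min_le_left _ _
  have hη22 : η₂ ≤ η := by rw [hη₂]; exact min_le_right _ _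
  obtain ⟨K₁, dT, dN, hK₁, hdT, hdN, bTN, bR⟩ := hth hP hθ hS hinj hPt hd (max D Dr) η₂ (δ / 4) hη20
    (by positivity)
  obtain ⟨d, hd'⟩ : ∃ d : ℕ → ℝ, d = jn r dT (fun _ => δ) := ⟨_, rfl⟩
  have hdl : ∀ l < r, d l = dT l := fun l hl => by rw [hd', jn_lt hl]
  have hdr : d r = δ := by rw [hd', jn_self]
  have hdd : ∀ l ≤ r, 0 < d l ∧ d l ≤ δ := fun l hl => by
    rcases Nat.lt_or_ge l r with h1 | h1
    · rw [hdl l h1]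
      exact ⟨(hdT l h1).1, by linarith [(hdT l h1).2.1]⟩
    · have h2 : l = r := by omega
      subst h2
      rw [hdr]
      exact ⟨hδ0, le_rfl⟩
  obtain ⟨ψ, hψ, bY'⟩ := relvF_F (bR 1 1 one_pos one_pos)
  refine ⟨K₁ * 2 ^ r, d, ψ / 2, by positivity, half_pos hψ, fun l hl => ⟨(hdd l hl).1,
    by linarith [(hdd l hl).2], by linarith [(hdd l hl).2]⟩, ?_⟩
  have bY := bY' (1 / K₁) (by positivity)
  obtain ⟨J₂, hJ₂⟩ := share_ex (ψ := ψ / 2) (κ := 1 / 2 ^ r) (half_pos hψ) (by positivity)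
  have bR' := bR (1 / 2 ^ r) (1 / K₁) (by positivity) (by positivity)
  obtain ⟨J₁, hJ₁⟩ := exists_nat_gt ((2 * C + 8) / (δ / 2))
  refine Bas.mono (max (J₁ + 1) J₂) ((bTN.and bR').and bY) ?_
  rintro J hJ F A ⟨⟨⟨B, k1, k2, ⟨T, TH, k3⟩, N, NH, k4⟩, hRF⟩, hRY⟩
  have hJ11 : J₁ + 1 ≤ J := (le_max_left _ _).trans hJ
  have hJ1 : 1 ≤ J := by omega
  have hJ0 : (0 : ℝ) < J := by exact_mod_cast (by omega : 0 < J)
  have hJJ : 2 * C + 8 < δ / 2 * J := by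
    have h3 : (2 * (C : ℝ) + 8) / (δ / 2) < J := hJ₁.trans_le (by
      exact_mod_cast (by omega : J₁ ≤ J))
    rw [div_lt_iff₀ (by positivity)] at h3
    linarith
  have hR := hRF B T TH k1 (by
    rw [one_div, inv_mul_le_iff₀ hK₁]
    exact k2) k3
  -- the sides
  have hη2 : ((⌊η₁ * (J : ℝ)⌋₊ : ℕ) : ℝ) ≤ η₁ * J := Nat.floor_le (by positivity)
  have hηJ : (C + 1) * η₁ * J = δ / 8 * J := by rw [hηC]
  have hηJ0 : 0 ≤ η₁ * J := by positivity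
  have hCη : C * ((⌊η₁ * (J : ℝ)⌋₊ : ℝ) + 1) ≤ δ / 8 * J + C := by
    have h3 : C * ((⌊η₁ * (J : ℝ)⌋₊ : ℝ) + 1) ≤ C * (η₁ * J + 1) :=
      mul_le_mul_of_nonneg_left (by linarith) hC0
    linarith
  obtain ⟨x, hx⟩ : ∃ x : ℕ, x = ⌊δ * (J : ℝ)⌋₊ + 2 := ⟨_, rfl⟩
  have hx1 : δ * J + 1 < x := by
    rw [hx]
    push_cast
    linarith [Nat.lt_floor_add_one (δ * (J : ℝ))]
  have hx2 : (x : ℝ) ≤ δ * J + 2 := by
    rw [hx]
    push_cast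
    linarith [Nat.floor_le (show 0 ≤ δ * (J : ℝ) by positivity)]
  have hfl : ∀ u v z : ℝ, u ≤ v + z → ((⌊u⌋₊ : ℕ) : ℝ) ≤ max 0 (v + z) := by
    intro u v z h
    rcases le_or_gt 0 u with h1 | h1
    · exact ((Nat.floor_le h1).trans h).trans (le_max_right _ _)
    · rw [Nat.floor_of_nonpos h1.le, Nat.cast_zero]
      exact le_max_left _ _
  have hge0 : ∀ (u v : ℝ) (k : ℕ), u + k ≤ v → 0 ≤ v → ⌊u⌋₊ + k ≤ ⌊v⌋₊ + if 0 ≤ u then 0 else k := by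
    intro u v k h hv
    split_ifs with h1
    · rw [add_zero, Nat.le_floor_iff hv]
      push_cast
      linarith [Nat.floor_le h1]
    · push Not at h1
      rw [Nat.floor_of_nonpos h1.le]
      omega
  have hle : ∀ (u v : ℝ) (k : ℕ), u ≤ v + (k - 1) → ⌊u⌋₊ ≤ ⌊v⌋₊ + k := by
    intro u v k h
    rcases Nat.eq_zero_or_pos ⌊u⌋₊ with h1 | h1
    · omega
    · have h2 : ((⌊u⌋₊ : ℕ) : ℝ) ≤ u := Nat.floor_le (by
        by_contra h3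
        push Not at h3
        rw [Nat.floor_of_nonpos h3.le] at h1
        omega)
      have h3 := Nat.lt_floor_add_one v
      have h4 : ((⌊u⌋₊ : ℕ) : ℝ) < ((⌊v⌋₊ + k : ℕ) : ℝ) := by
        push_cast
        linarith
      exact (by exact_mod_cast h4 : ⌊u⌋₊ < ⌊v⌋₊ + k).le
  have hbr : lvN P c r Pt r a w = Pt a w := if_neg (lt_irrefl r)
  have hbl : ∀ l < r, lvN P c r Pt l a w = bet P c l a w := fun l hl => if_pos hl
  have hPa : a ≤ Pt a w := h0.low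
  obtain ⟨g', hg'⟩ : ∃ g' : ℕ → ℕ, g' = fun _ => ⌊(Pt a w - δ) * (J : ℝ)⌋₊ := ⟨_, rfl⟩
  obtain ⟨gT, hgT⟩ : ∃ gT : ℕ → ℕ, gT = fun l => ⌊(bet P c l a w - dT l) * (J : ℝ)⌋₊ := ⟨_, rfl⟩
  obtain ⟨gN, hgN⟩ : ∃ gN : ℕ → ℕ, gN = fun l => ⌊(lvN P c r Pt l a w - dN l) * (J : ℝ)⌋₊ :=
    ⟨_, rfl⟩
  have hPd0 : 0 ≤ (Pt a w - δ) * J := mul_nonneg (by linarith) hJ0.le
  have hj1 : g' r + C * (⌊η₁ * (J : ℝ)⌋₊ + 1) ≤ gN r := by
    rw [hg', hgN]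
    simp only [hbr]
    have h3 := (hdN r le_rfl).2.1
    have h4 : 0 ≤ Pt a w - dN r := by linarith [(hdN r le_rfl).2.2]
    have h5 := hge0 ((Pt a w - δ) * J) ((Pt a w - dN r) * J) (C * (⌊η₁ * (J : ℝ)⌋₊ + 1)) (by
      push_cast
      have h6 : (Pt a w - δ) * J + 3 / 4 * δ * J ≤ (Pt a w - dN r) * J := by
        rw [← add_mul]
        exact mul_le_mul_of_nonneg_right (by linarith) hJ0.le
      have h7 : C + 0 ≤ δ / 2 * J := by linarith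
      nlinarith) (mul_nonneg h4 hJ0.le)
    rw [if_pos hPd0] at h5
    exact h5
  have hj2 : gN r ≤ g' r + (x + C * (⌊η₁ * (J : ℝ)⌋₊ + 1)) := by
    rw [hg', hgN]
    simp only [hbr]
    have h5 := hle ((Pt a w - dN r) * J) ((Pt a w - δ) * J) x (by
      have h6 : (Pt a w - dN r) * J ≤ (Pt a w - δ) * J + δ * J := by
        rw [← add_mul]
        exact mul_le_mul_of_nonneg_right (by linarith [(hdN r le_rfl).1]) hJ0.le
      linarith)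
    exact h5.trans (by omega)
  have hj3 : ∀ l < r, gN l ≤ gT l + x := by
    intro l hl
    rw [hgT, hgN]
    simp only [hbl l hl]
    refine hle _ _ x ?_
    have h6 : (bet P c l a w - dN l) * J ≤ (bet P c l a w - dT l) * J + δ / 4 * J := by
      rw [← add_mul]
      exact mul_le_mul_of_nonneg_right (by linarith [(hdN l hl.le).1, (hdT l hl).2.1]) hJ0.le
    have h7 : 0 ≤ δ * J := by positivity
    linarith
  have hj4 : ⌊e₀ 0 * (J : ℝ)⌋₊ ≤ ⌊(Eb + δ / 4) * (J : ℝ)⌋₊ :=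
    Nat.floor_le_floor (mul_le_mul_of_nonneg_right (by linarith) hJ0.le)
  have k4 := k4.mono le_rfl (fun _ => le_rfl) le_rfl (e' := ⌊(Eb + δ / 4) * (J : ℝ)⌋₊)
    (Nat.floor_le_floor (mul_le_mul_of_nonneg_right (by linarith) hJ0.le))
  have hR2 := hRY B T TH k1 (by
    rw [one_div, inv_mul_le_iff₀ hK₁]
    exact k2) k3
  rw [← hgT] at k3 hR hR2
  rw [← hgN] at k4
  have hfl2 : ⌊η₂ * (J : ℝ)⌋₊ ≤ ⌊η₁ * (J : ℝ)⌋₊ :=
    Nat.floor_le_floor (mul_le_mul_of_nonneg_right hη21 hJ0.le)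
  have hfl3 : ⌊η₂ * (J : ℝ)⌋₊ ≤ ⌊η * (J : ℝ)⌋₊ :=
    Nat.floor_le_floor (mul_le_mul_of_nonneg_right hη22 hJ0.le)
  obtain ⟨B', l1, l2, l3, l4⟩ := hjn (g' := g') (x := x) hinj
    (relvF_exp (hR.mono (le_max_left _ _) le_rfl) hfl2) (by
    rw [one_div, inv_mul_cancel₀ (by positivity)]) k3 k4 hj3 hj4 hj1 hj2
  have hsd : jn r gT g' = fun l => ⌊(lvN P c r Pt l a w - d l) * (J : ℝ)⌋₊ := by
    funext l
    rcases Nat.lt_or_ge l r with h3 | h3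
    · rw [jn_lt h3, hgT, hbl l h3, hdl l h3]
    · have e1 : jn r gT g' l = g' l := if_neg (by omega)
      have e2 : lvN P c r Pt l a w = Pt a w := if_neg (by omega)
      have e3 : d l = δ := by
        rw [hd']
        exact if_neg (by omega)
      rw [e1, hg', e2, e3]
  rw [hsd] at l3 l4
  have l5 : ⌊(Eb + δ / 4) * (J : ℝ)⌋₊ + 2 * C * (⌊η₁ * (J : ℝ)⌋₊ + 1) + x ≤
      ⌊(Eb + σ) * (J : ℝ)⌋₊ := by
    rw [Nat.le_floor_iff (by positivity)]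
    push_cast
    have h3 : ((⌊(Eb + δ / 4) * (J : ℝ)⌋₊ : ℕ) : ℝ) ≤ (Eb + δ / 4) * J :=
      Nat.floor_le (by positivity)
    have h4 : σ * J ≥ 4 * δ * J := by
      have := mul_le_mul_of_nonneg_right (show 4 * δ ≤ σ by linarith) hJ0.le
      linarith
    nlinarith
  have l6 := l4.mono le_rfl (fun _ => le_rfl) le_rfl l5
  have l3' := l3.mono le_rfl (fun _ => le_rfl) le_rfl (e' := ⌊Eb * (J : ℝ)⌋₊)
    (Nat.floor_le_floor (mul_le_mul_of_nonneg_right heEb hJ0.le))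
  refine ⟨B', fun y => jn r (T y) (N y),
    fun s => jn r (TH s) (NH s), fun ω h => k1 ω (l1 ω h), ?_, l3', l6, ?_⟩
  · rw [div_le_iff₀ (by positivity)] at l2
    calc Pe F.p A ≤ K₁ * Pe F.p B := k2
      _ ≤ K₁ * (Pe F.p B' * 2 ^ r) := mul_le_mul_of_nonneg_left l2 hK₁.le
      _ = _ := by ring
  · have h2r : Real.exp (-(ψ * (J : ℝ))) ≤ Real.exp (-(ψ / 2 * (J : ℝ))) * (1 / 2 ^ r) := by
      have h3 := hJ₂ J ((le_max_right _ _).trans hJ)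
      calc Real.exp (-(ψ * (J : ℝ))) =
            Real.exp (-(ψ / 2 * (J : ℝ))) * Real.exp (-(ψ / 2 * (J : ℝ))) := by
            rw [← Real.exp_add]
            congr 1
            ring
        _ ≤ _ := mul_le_mul_of_nonneg_left h3 (Real.exp_pos _).le
    have h4 := (hR2.sub l1 (κ₁ := 1 / 2 ^ r) (by
      rw [one_div, inv_mul_eq_div]
      exact l2) (Real.exp_pos _).le h2r)
    have h5 := relvF_jn (N := N) (g' := g') (relvF_exp (h4.mono (le_max_right D Dr) le_rfl) hfl3)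
    rw [hsd] at h5
    exact h5


/-- The levels of a node at a record. -/
theorem nodF_lv {S : PCl m} {c : ℕ → Fin m} {r D : ℕ} {β β' : ℕ → ℝ → ℝ → ℝ} {e E a w : ℝ}
    (h : NodF S c r D β e E a w) (hβ : ∀ l ≤ r, β l a w = β' l a w) :
    NodF S c r D β' e E a w := by
  refine ⟨h.1, fun Dr η σ hη hσ => ?_⟩
  obtain ⟨K₁, d, ψ, k1, k2, k3, k4⟩ := h.2 Dr η σ hη hσ
  refine ⟨K₁, d, ψ, k1, k2, k3, Bas.mono 0 k4 ?_⟩
  rintro J - F A ⟨B, T, TH, l1, l2, l3⟩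
  have hg : ∀ l ≤ r, ⌊(β l a w - d l) * (J : ℝ)⌋₊ = ⌊(β' l a w - d l) * (J : ℝ)⌋₊ :=
    fun l hl => by rw [hβ l hl]
  have hnb : ∀ {y : PtT F} {t : ℝ} {x : ℕ} {b : Option (Fin m) → ℝ},
      NBx c (T y) (fun l => ⌊(β' l a w - d l) * (J : ℝ)⌋₊) x t r b →
      NBx c (T y) (fun l => ⌊(β l a w - d l) * (J : ℝ)⌋₊) x t r b := fun hb =>
    ⟨hb.1, fun l hl => (hb.2 l hl).trans (by
      simp only
      rw [hg l hl.le])⟩
  have hnb' : ∀ {y : PtT F} {t : ℝ} {x : ℕ} {b : Option (Fin m) → ℝ},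
      NBx c (T y) (fun l => ⌊(β l a w - d l) * (J : ℝ)⌋₊) x t r b →
      NBx c (T y) (fun l => ⌊(β' l a w - d l) * (J : ℝ)⌋₊) x t r b := fun hb =>
    ⟨hb.1, fun l hl => (hb.2 l hl).trans (by
      simp only
      rw [hg l hl.le])⟩
  refine ⟨B, T, TH, l1, l2, Pool.STAT.CLO.chok_congr l3.lst fun l hl => hg l hl.le,
    Pool.STAT.CLO.chok_congr l3.top fun l hl => hg l (by omega), ?_⟩
  intro B' hB hP Dx Dl M h1 h2 h3 h4 hM h5 h6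
  obtain ⟨B'', k1, k2, k3⟩ := l3.rlF B' hB hP Dx Dl M h1 h2 h3 h4 hM h5 fun ω hω b hb =>
    h6 ω hω b (hnb' hb)
  exact ⟨B'', k1, k2, fun ω hω b hb => k3 ω hω b (hnb hb)⟩

/-- **The nodes at the windows and the pairs of a record**: the degree depends on the place and on
the growth only. -/
theorem nodF_rec (r S₀ : ℕ) (hr : 1 ≤ r) (hS₀ : 1 ≤ S₀) : ∃ D : ℕ, 1 ≤ D ∧
    ∀ {m : ℕ} {S : PCl m} {al : ℝ} {g₀ : ℝ → ℝ} {P : List (Fin m) × Fin m → ℝ → ℝ → ℝ}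
    {θ : ℝ} {P₂ : ℕ → List (Fin m) × Fin m → ℝ → ℝ → ℝ} {θ₂ Eb e₂ : ℕ → ℝ}
    {c : ℕ → Fin m} {Pt : ℝ → ℝ → ℝ} {rt : ℝ → ℝ} {h K₀ g : ℝ} {L T : ℕ → ℝ → ℝ → ℝ}
    {Sl : ℕ → ℝ} {κ : ℕ → Kg} {G : Set ℝ} {N : ℕ} {A V : ℕ → ℝ} {S₂ N' : ℕ} {V' : ℕ → ℝ}
    {K ε q t : ℝ}, RecG S al g₀ P θ P₂ θ₂ Eb e₂ c Pt rt h K₀ g L T Sl κ G S₀ N A V S₂ N' V' K ε
      q t → r < m → ∀ k < N', NodF S c r D L (Eb r) (Eb r) (t + V' k * q) (t + V' k * q) := by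
  obtain ⟨D, hD, H⟩ := thin_nod r S₀ hr hS₀
  refine ⟨D, hD, ?_⟩
  intro m S al g₀ P θ P₂ θ₂ Eb e₂ c Pt rt h K₀ g L T Sl κ G N A V S₂ N' V' K ε q t R hrm k hk
  obtain ⟨ρ, vs, e, e₀, E, sg, Q, h1, h2, h3⟩ := (R.tg r hr hrm).ptc k hk
  refine nodF_lv (H R.thr R.th0 R.tmh (R.inj.mono fun x hx => ?_) (R.lawL r hrm) h1 h3 h2)
    fun l hl => ?_
  · rw [Set.mem_Iio] at hx ⊢
    omega
  · rw [R.lv_at hrm hl]

/-- The same at the pairs. -/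
theorem nodF_pair (r S₂ : ℕ) (hr : 1 ≤ r) (hS₂ : 1 ≤ S₂) : ∃ D : ℕ, 1 ≤ D ∧
    ∀ {m : ℕ} {S : PCl m} {al : ℝ} {g₀ : ℝ → ℝ} {P : List (Fin m) × Fin m → ℝ → ℝ → ℝ}
    {θ : ℝ} {P₂ : ℕ → List (Fin m) × Fin m → ℝ → ℝ → ℝ} {θ₂ Eb e₂ : ℕ → ℝ}
    {c : ℕ → Fin m} {Pt : ℝ → ℝ → ℝ} {rt : ℝ → ℝ} {h K₀ g : ℝ} {L T : ℕ → ℝ → ℝ → ℝ}
    {Sl : ℕ → ℝ} {κ : ℕ → Kg} {G : Set ℝ} {S₀ N : ℕ} {A V : ℕ → ℝ} {N' : ℕ} {V' : ℕ → ℝ}
    {K ε q t : ℝ}, RecG S al g₀ P θ P₂ θ₂ Eb e₂ c Pt rt h K₀ g L T Sl κ G S₀ N A V S₂ N' V' K ε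
      q t → r < m → ∀ k < N, NodF S c r D L (Eb r) (Eb r) (t + A k * q) (t + V k * q) ∧
        NodF S c r D L (Eb r) (Eb r) (t + V k * q) (t + V k * q) := by
  obtain ⟨D, hD, H⟩ := thin_nod r S₂ hr hS₂
  refine ⟨D, hD, ?_⟩
  intro m S al g₀ P θ P₂ θ₂ Eb e₂ c Pt rt h K₀ g L T Sl κ G S₀ N A V N' V' K ε q t R hrm k hk
  obtain ⟨⟨ρ, vs, e, e₀, E, sg, Q, h1, h2, h3⟩, ρ', vs', e', e₀', E', sg', Q', h1', h2', h3'⟩ :=
    (R.tg r hr hrm).pt k hk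
  have hinj : Set.InjOn c (Set.Iio (r + 1)) := R.inj.mono fun x hx => by
    rw [Set.mem_Iio] at hx ⊢
    omega
  exact ⟨nodF_lv (H R.thr R.th0 R.tmh hinj (R.lawL r hrm) h1 h3 h2) fun l hl => by
    rw [R.lv_at hrm hl], nodF_lv (H R.thr R.th0 R.tmh hinj (R.lawL r hrm) h1' h3' h2')
    fun l hl => by rw [R.lv_at hrm hl]⟩

end Pool.STB82
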