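import Pool.Agent.H42.D2.Span
import Pool.Agent.H73.D2.Tlr

/-!
# Chains of lines in a static class: free data, full times

`free_pig`: one fixed quantity is free between two consecutive records of a chain of records, for one
of the places of the chain. `dg`: the digits of the time behind a window; `full_cls`: they are full
given the line with its window.
-/

set_option autoImplicit false

namespace Pool.STB82

open Finset Real
open Pool.Agent.H49.Ent Pool.Agent.H32.Dense Pool.STK Pool.KA Pool.KSAT Pool.K2S Pool.PB Pool.S6C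
open Pool.GEN

/-- **Pigeonhole over a chain of records.** -/
theorem free_pig {Ω S : Type} [Fintype Ω] {p : Ω → ℝ} (hp : IsLaw p) (X : Ω → S) {n : ℕ}
    (hn : 0 < n) (V : ℕ → Type) (Z : ∀ i, Ω → V i) {A : ℝ} (hA : CH p X (Z 0) ≤ A) :
    ∃ i < n, CH p X (Z i) - A / n ≤ CH p X (Z (i + 1)) := by
  by_contra hc
  push Not at hc
  have hn0 : (0 : ℝ) < n := by exact_mod_cast hn
  have h1 : ∀ k ≤ n, CH p X (Z k) ≤ CH p X (Z 0) - k * (A / n) := by
    intro k hk
    induction k with
    | zero => simp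
    | succ k ih =>
      have h2 := ih (by omega)
      have h3 := hc k (by omega)
      push_cast
      linarith
  have h2 : CH p X (Z n) < CH p X (Z 0) - n * (A / n) := by
    obtain ⟨k, rfl⟩ : ∃ k, n = k + 1 := ⟨n - 1, by omega⟩
    have h3 := h1 k (by omega)
    have h4 := hc k (by omega)
    push_cast at h3 h4 ⊢
    linarith
  have h3 : (n : ℝ) * (A / n) = A := by field_simp
  have h4 : 0 ≤ CH p X (Z n) := CH_nonneg hp.nonneg _ _
  linarith

variable {m J : ℕ}

/-- The digits `W, …, W + k` of the time. -/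
noncomputable def dg (F : Fam m J) (W k : ℕ) (ω : F.Ω) : ℤ := ((F.T1 (W + k) ω % 2 ^ k : ℕ) : ℤ)

theorem dg_nonneg (F : Fam m J) (W k : ℕ) (ω : F.Ω) : 0 ≤ dg F W k ω := Int.natCast_nonneg _

theorem dg_lt (F : Fam m J) (W k : ℕ) (ω : F.Ω) : dg F W k ω < 2 ^ k := by
  have h := Nat.mod_lt (F.T1 (W + k) ω) (show 0 < 2 ^ k by positivity)
  unfold dg
  exact_mod_cast h

theorem T1_dg (F : Fam m J) {W k : ℕ} (h : W + k ≤ J) (ω : F.Ω) :
    (F.T1 (W + k) ω : ℤ) = 2 ^ k * F.T1 W ω + dg F W k ω := by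
  have h1 := T1_div F h ω
  have h2 := Nat.div_add_mod (F.T1 (W + k) ω) (2 ^ k)
  unfold dg
  rw [h1]
  exact_mod_cast h2.symm

/-- **The digits of the time are full given the line with its window.** -/
theorem full_dg (F : Fam m J) {A : F.Ω → Prop} (hA : 0 < Pe F.p A) {W k : ℕ} (h : W + k ≤ J)
    {e : ℝ} (he : (J : ℝ) * Real.log 2 - e ≤
      CH (Pool.Agent.H49.Ent.cond F.p A True) F.T (fun ω => (F.l ω, F.Z ω))) :
    k * Real.log 2 - e ≤ CH (Pool.Agent.H49.Ent.cond F.p A True) (dg F W k) (slam F W) := by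
  have hT : (Pool.FLF.Fam.sub F A hA).Tm e := by
    have h2 := Pool.FLF.sub_CH (hA := hA) F.T (fun ω => (F.l ω, F.Z ω))
    exact he.trans h2.ge
  have h1 := time_digits (Pool.FLF.Fam.sub F A hA) h hT
  have h2 := Pool.FLF.sub_CH (hA := hA) (fun ω => (F.T1 (W + k) ω : ℤ)) (slam F W)
  have h3 : CH (Pool.Agent.H49.Ent.cond F.p A True) (fun ω => (F.T1 (W + k) ω : ℤ)) (slam F W) ≤
      CH (Pool.Agent.H49.Ent.cond F.p A True) (dg F W k) (slam F W) := by
    refine CH_mono_left (isLaw_cond F.isLaw hA).nonneg ?_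
    intro ω ω' _ _ hh
    simp only [Prod.mk.injEq] at hh
    obtain ⟨h4, h5⟩ := hh
    have h6 : F.T1 W ω = F.T1 W ω' := by
      have := congrArg (fun s => s.2.2) h5
      exact this
    show (F.T1 (W + k) ω : ℤ) = F.T1 (W + k) ω'
    rw [T1_dg F h ω, T1_dg F h ω', h4, h6]
  exact h1.trans (h2.le.trans h3)

end Pool.STB82
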