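import Pool.Agent.H82.STB.Fre

/-!
# The directions of the coordinates of slope one are in general position

`gp_cls`: given a closed record, the vector `(1, d)` of the velocities of coordinates whose threshold
is nearly the window is in no hyperplane which is a function of the record.
-/

set_option autoImplicit false

namespace Pool.STB82

open Finset Real
open Pool.Agent.H49.Ent Pool.Agent.H32.Dense Pool.STK Pool.KA Pool.KSAT Pool.K2S Pool.PB Pool.S6C
open Pool.GEN Pool.CHT Pool.CHX Pool.D2Con Pool.D2A Pool.D2F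
open Pool.LBT (ThrOf)

variable {m : ℕ}

/-- The velocities with the velocity of the time. -/
noncomputable def vv {J r : ℕ} (F : Fam m J) (c : ℕ → Fin m) (ι : Fin r → ℕ) (ω : F.Ω) :
    Fin (r + 1) → ℝ := Fin.cons 1 (fun l => F.d ω (c (ι l)))

/-- The trivial frame. -/
theorem fr_zero {J : ℕ} (F : Fam m J) (c : ℕ → Fin m) (n a : ℕ) (A : F.Ω → Prop) :
    FrOK F c n a 0 0 (fun _ => a) A (fun _ _ _ => 0) (fun _ _ _ => 0) where
  cls := fun _ _ => rfl
  dep := fun _ _ _ _ => rfl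
  depH := fun _ _ _ _ => rfl
  nat := by
    intro ω _ l _
    have h1 : cv (fun _ : Option (Fin m) => (0 : ℝ)) (bd F ω) = 0 := by
      unfold cv
      simp
    rw [h1, sub_zero, add_zero, div_self (by positivity)]
    exact F.dir ω (c l)
  lip := fun _ _ _ _ _ _ => by
    simp only [abs_zero]
    positivity

theorem Xv_zero {J r : ℕ} (F : Fam m J) (c : ℕ → Fin m) (a : ℕ) (ι : Fin r → ℕ) (ω : F.Ω)
    (l : Fin (r + 1)) :
    Xv F c (fun _ => a) a ι (fun _ _ _ => 0) ω l = vv F c ι ω l := by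
  unfold Xv vv
  refine Fin.cases ?_ (fun l => ?_) l
  · rw [Fin.cons_zero, Fin.cons_zero]
    exact Xn_zero F c _ a _ ω
  · rw [Fin.cons_succ, Fin.cons_succ]
    show 2 ^ a * (((1 / 2 ^ a : ℝ) • bd F ω) (some (c (ι l))) -
      cv (fun _ => 0) ((1 / 2 ^ a : ℝ) • bd F ω)) = F.d ω (c (ι l))
    have h1 : cv (fun _ : Option (Fin m) => (0 : ℝ)) ((1 / 2 ^ a : ℝ) • bd F ω) = 0 := by
      unfold cv
      simp
    rw [h1, sub_zero, Pi.smul_apply, smul_eq_mul]
    show 2 ^ a * (1 / 2 ^ a * F.d ω (c (ι l))) = F.d ω (c (ι l))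
    field_simp

/-- **General position of the directions**, given a closed record. -/
theorem gp_cls {θ : ℝ} {S : PCl m} {P : List (Fin m) × Fin m → ℝ → ℝ → ℝ}
    (hP : ThrOf (chsys m θ) S P) (c : ℕ → Fin m) {r : ℕ} (ι : Fin r → ℕ) (hι : StrictMono ι)
    (hc : ∀ l, Set.InjOn c (Set.Iio (ι l + 1))) (a : ℚ) {h : ℝ} (ha : 0 < a) (hh : 0 < h)
    (h1 : ∀ l, bet P c (ι l) a a ≤ a + h) (h2 : ((r : ℝ) + 1) * (3 * h) < θ * a)
    (h3 : (a : ℝ) + ((r : ℝ) + 1) * (3 * h) < 1) :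
    ∃ δ : ℝ, 0 < δ ∧ Bas S (fun J F A => ∀ (q : F.Ω → ℝ) (M : ℝ), IsLaw q → 0 ≤ M →
      (∀ ω, 0 < q ω → A ω) → (∀ ω, q ω * Pe F.p A ≤ M * F.p ω) →
      ∀ (ζ : Type) (z : F.Ω → ζ) (w : F.Ω → Fin (r + 1) → ℝ) (N : ℕ),
      Det q (fun ω => ptr F J ω) z → Det q (slam F ⌊(a : ℝ) * J⌋₊) z →
      ((r : ℝ) + 1) * (3 * h) * J ≤ N → (∀ ω, 0 < q ω → ∀ l, |w ω l - vv F c ι ω l| ≤ 1 / 2 ^ N) →
      NoHyp q w z (1 / 2 ^ N) (r * (M * Real.exp (-(δ * J))))) := by
  obtain ⟨I, hI⟩ : ∃ I, I = Finset.univ.sup ι := ⟨_, rfl⟩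
  have hιI : ∀ l, ι l ≤ I := fun l => by
    rw [hI]
    exact Finset.le_sup (Finset.mem_univ l)
  have haR : (0 : ℝ) < a := by exact_mod_cast ha
  have hr0 : (0 : ℝ) ≤ r := Nat.cast_nonneg r
  have hrh : 0 < ((r : ℝ) + 1) * (3 * h) := by positivity
  have ha1 : (a : ℝ) < 1 := by linarith
  have ha1' : a ≤ 1 := by
    have : (a : ℝ) ≤ 1 := ha1.le
    exact_mod_cast this
  have h4 : ∀ l, bet P c (ι l) a a + h ≤ 1 := fun l => by
    have := h1 l
    nlinarith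
  obtain ⟨δ, hδ, τ, hτ, J₁, H⟩ := hyp_cls hP c ι hι hc a (((r : ℝ) + 1) * (3 * h)) h ha.le ha1' h2
    hh h4
  obtain ⟨C, hC⟩ : ∃ C : ℕ, C = (r + 1) * (2 * I + r + 13) := ⟨_, rfl⟩
  obtain ⟨J₂, hJ₂⟩ := exists_nat_ge (max (((C : ℝ) + 2) / (((r : ℝ) + 1) * h)) (2 / (a : ℝ)))
  obtain ⟨J₃, hJ₃⟩ := exists_nat_ge (((3 : ℝ) * I + C + 12) / (1 - (a + ((r : ℝ) + 1) * (3 * h))))
  refine ⟨δ, hδ, τ, hτ, max J₁ (max J₂ J₃), ?_⟩
  intro J hJ F A hA q M hq hM hqA hqM ζ z w N hz1 hz2 hN hw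
  have hJ1 : J₁ ≤ J := (le_max_left _ _).trans hJ
  have hJ2 : (J₂ : ℝ) ≤ J := by
    exact_mod_cast ((le_max_left _ _).trans (le_max_right _ _)).trans hJ
  have hJ3 : (J₃ : ℝ) ≤ J := by
    exact_mod_cast ((le_max_right _ _).trans (le_max_right _ _)).trans hJ
  have hJ0 : (0 : ℝ) ≤ J := Nat.cast_nonneg J
  -- the numbers
  obtain ⟨W, hW⟩ : ∃ W, W = ⌊(a : ℝ) * J⌋₊ := ⟨_, rfl⟩
  obtain ⟨s, hs⟩ : ∃ s, s = ⌊2 * h * J⌋₊ + 1 := ⟨_, rfl⟩
  obtain ⟨B, hB⟩ : ∃ B, B = s + 2 * I + 8 := ⟨_, rfl⟩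
  obtain ⟨v, hv⟩ : ∃ v, v = B + r + 3 := ⟨_, rfl⟩
  have hsJ : (s : ℝ) ≤ 2 * h * J + 1 := by
    rw [hs]
    push_cast
    have := Nat.floor_le (by positivity : (0 : ℝ) ≤ 2 * h * J)
    linarith
  have hWJ : (W : ℝ) ≤ a * J := by
    rw [hW]
    exact Nat.floor_le (by positivity)
  have k1 : ((C : ℝ) + 2) ≤ (((r : ℝ) + 1) * h) * J := by
    have := ((le_max_left _ _).trans hJ₂).trans hJ2
    rw [div_le_iff₀ (by positivity)] at this
    linarith
  have k2 : 2 ≤ (a : ℝ) * J := by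
    have := ((le_max_right _ _).trans hJ₂).trans hJ2
    rw [div_le_iff₀ haR] at this
    linarith
  have hN1 : (r + 1) * v ≤ N := by
    have e1 : (((r + 1) * v : ℕ) : ℝ) ≤ N := by
      refine le_trans ?_ hN
      have e2 : (((r + 1) * v : ℕ) : ℝ) = ((r : ℝ) + 1) * (s : ℝ) +
          ((r : ℝ) + 1) * (2 * I + 8 + r + 3) := by
        rw [hv, hB]
        push_cast
        ring
      have e3 : (C : ℝ) = ((r : ℝ) + 1) * (2 * I + r + 13) := by
        rw [hC]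
        push_cast
        ring
      rw [e2]
      have e4 : ((r : ℝ) + 1) * (s : ℝ) ≤ ((r : ℝ) + 1) * (2 * h * J + 1) :=
        mul_le_mul_of_nonneg_left hsJ (by positivity)
      nlinarith
    exact_mod_cast e1
  have hvN : (((r + 1) * v : ℕ) : ℝ) ≤ ((r : ℝ) + 1) * (3 * h) * J := by
    have e2 : (((r + 1) * v : ℕ) : ℝ) = ((r : ℝ) + 1) * (s : ℝ) +
        ((r : ℝ) + 1) * (2 * I + 8 + r + 3) := by
      rw [hv, hB]
      push_cast
      ring
    have e3 : (C : ℝ) = ((r : ℝ) + 1) * (2 * I + r + 13) := by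
      rw [hC]
      push_cast
      ring
    rw [e2]
    have e4 : ((r : ℝ) + 1) * (s : ℝ) ≤ ((r : ℝ) + 1) * (2 * h * J + 1) :=
      mul_le_mul_of_nonneg_left hsJ (by positivity)
    nlinarith
  have hrv : r * v + v = (r + 1) * v := by ring
  have hfr := fr_zero F c (I + 1) W (fun ω => 0 < q ω)
  have hnum : ∀ l, NumL J (bet P c (ι l) a a + h) a (((r : ℝ) + 1) * (3 * h)) (ι l) (I + 1) W 0
      (r * v) 0 s (s + r * v + 3 * (I + 1) + 6) (⌊(bet P c (ι l) a a + h) * J⌋₊) (fun _ => W) := by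
    intro l
    have hl := hιI l
    have e5 : (3 * (I : ℝ) + C + 12) ≤ (1 - (a + ((r : ℝ) + 1) * (3 * h))) * J := by
      have := hJ₃.trans hJ3
      rw [div_le_iff₀ (by linarith)] at this
      linarith
    have e6 : (W : ℝ) + (s + r * v + 3 * (I + 1) + 6 : ℕ) ≤ J := by
      have e7 : ((s + r * v : ℕ) : ℝ) ≤ ((r + 1) * v : ℕ) := by
        have : s + r * v ≤ (r + 1) * v := by
          rw [← hrv]
          omega
        exact_mod_cast this
      push_cast at e7 hvN ⊢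
      have hC0 : (0 : ℝ) ≤ C := Nat.cast_nonneg C
      nlinarith
    have e8 : W + (s + r * v + 3 * (I + 1) + 6) ≤ J := by exact_mod_cast e6
    refine ⟨by omega, by omega, by rw [hW], ?_, by omega, fun j _ => by omega, fun l' _ => ?_, ?_,
      ?_, ?_⟩
    · refine Nat.le_floor ?_
      refine le_trans ?_ hvN
      have : 0 + r * v + 2 * 0 + s + 2 * (ι l + 1) + 4 ≤ (r + 1) * v := by
        rw [← hrv]
        omega
      exact_mod_cast this
    · have : 2 ≤ W := by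
        rw [hW]
        exact Nat.le_floor (by exact_mod_cast k2)
      omega
    · have e9 : (⌊(bet P c (ι l) a a + h) * J⌋₊ : ℝ) < W + s + 1 := by
        have f0 : 0 ≤ (bet P c (ι l) a a + h) * (J : ℝ) := by
          have f1 := hP.low (List.map c (List.range (ι l)), c (ι l)) a a haR.le le_rfl ha1.le
          have f2 : (a : ℝ) ≤ bet P c (ι l) a a := f1
          exact mul_nonneg (by linarith) hJ0
        have f1 := Nat.floor_le f0
        have f2 := Nat.lt_floor_add_one ((a : ℝ) * J)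
        have f3 := Nat.lt_floor_add_one (2 * h * (J : ℝ))
        have f4 := mul_le_mul_of_nonneg_right (h1 l) hJ0
        rw [← hW] at f2
        have f5 : (s : ℝ) = (⌊2 * h * (J : ℝ)⌋₊ : ℝ) + 1 := by
          rw [hs]
          push_cast
          ring
        rw [f5]
        nlinarith
      have e10 : ⌊(bet P c (ι l) a a + h) * J⌋₊ < W + s + 1 := by exact_mod_cast e9
      show ⌊(bet P c (ι l) a a + h) * J⌋₊ ≤ W + s
      omega
    · refine Nat.floor_le_of_le ?_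
      have := mul_le_mul_of_nonneg_right (h4 l) hJ0
      linarith
    · rw [hW]
  have key := H J hJ1 F A hA (I + 1) W 0 (r * v) 0 s (s + r * v + 3 * (I + 1) + 6)
    (fun l => ⌊(bet P c (ι l) a a + h) * J⌋₊) (fun _ => W) (fun _ _ _ => 0) (fun _ _ _ => 0) hnum
    q M hq hM hqA hqM hfr ζ z w hz1 (by rw [← hW] at hz2; exact hz2) (1 / 2 ^ N) (1 / 2 ^ v)
    (1 / 2 ^ N) (by positivity) (fun ω hω l => by rw [Xv_zero]; exact hw ω hω l) (by positivity)
    (by
      rw [div_le_one (by positivity)]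
      exact one_le_pow₀ one_le_two) (by positivity) (by
      rw [div_pow, one_pow, ← pow_mul, mul_comm v r, one_div, inv_mul_cancel₀ (by positivity)])
  refine key ?_ ?_
  · have hr2 : ((r : ℝ) + 1) ≤ 2 ^ r := by
      exact_mod_cast Nat.succ_le_of_lt (Nat.lt_two_pow_self (n := r))
    have g1 : (1 : ℝ) / 2 ^ N ≤ 1 / 2 ^ v :=
      one_div_le_one_div_of_le (by positivity) (pow_le_pow_right₀ one_le_two (by nlinarith))
    have g2 : (1 : ℝ) / 2 ^ v ≤ 1 / (2 ^ r * 8) :=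
      one_div_le_one_div_of_le (by positivity) (by
        have : (2 : ℝ) ^ r * 8 = 2 ^ (r + 3) := by
          rw [pow_add]
          norm_num
        rw [this]
        exact pow_le_pow_right₀ one_le_two (by omega))
    have g3 : ((r : ℝ) + 1) * (1 / (2 ^ r * 8)) ≤ 1 / 8 := by
      refine (mul_le_mul_of_nonneg_right hr2 (by positivity)).trans (le_of_eq ?_)
      field_simp
    have g4 : (1 : ℝ) / (2 ^ r * 8) ≤ 1 / 8 := by
      refine one_div_le_one_div_of_le (by norm_num) ?_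
      have : (1 : ℝ) ≤ 2 ^ r := one_le_pow₀ one_le_two
      linarith
    have g5 : ((r : ℝ) + 1) * (1 / 2 ^ N + 1 / 2 ^ v * 2 ^ 0) ≤
        ((r : ℝ) + 1) * (1 / (2 ^ r * 8) + 1 / (2 ^ r * 8)) := by
      refine mul_le_mul_of_nonneg_left ?_ (by positivity)
      rw [pow_zero, mul_one]
      linarith
    linarith
  · intro l
    have hl := hιI l
    have hr2 : ((r : ℝ) + 1) ≤ 2 ^ r := by
      exact_mod_cast Nat.succ_le_of_lt (Nat.lt_two_pow_self (n := r))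
    have g0 : (2 : ℝ) ^ (2 * (ι l + 1) + 2 * 0 + 6 + s) ≤ 2 ^ B :=
      pow_le_pow_right₀ one_le_two (by omega)
    have e1 : (1 / 2 ^ v : ℝ) ^ r = 1 / 2 ^ (r * v) := by
      rw [div_pow, one_pow, ← pow_mul, mul_comm v r]
    have g1 : (1 : ℝ) / 2 ^ N / (1 / 2 ^ v) ^ r ≤ 1 / 2 ^ v := by
      rw [e1, div_div_eq_mul_div, div_one, one_div, inv_mul_le_iff₀ (by positivity), mul_one_div,
        le_div_iff₀ (by positivity), ← pow_add]
      exact pow_le_pow_right₀ one_le_two (by omega)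
    have g2 : (1 / 2 ^ v : ℝ) * 2 ^ B = 1 / (2 ^ r * 8) := by
      rw [hv, pow_add, pow_add]
      field_simp
      norm_num
    have g3 : ((r : ℝ) + 1) * (1 / (2 ^ r * 8)) ≤ 1 / 8 := by
      refine (mul_le_mul_of_nonneg_right hr2 (by positivity)).trans (le_of_eq ?_)
      field_simp
    have g4 : (1 : ℝ) / (2 ^ r * 8) ≤ 1 / 8 := by
      refine one_div_le_one_div_of_le (by norm_num) ?_
      have : (1 : ℝ) ≤ 2 ^ r := one_le_pow₀ one_le_two
      linarith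
    have hv0 : (0 : ℝ) ≤ 1 / 2 ^ v := by positivity
    have g5 : ((r : ℝ) + 1) * (1 / 2 ^ N / (1 / 2 ^ v) ^ r + 1 / 2 ^ v * 2 ^ 0) +
        1 / 2 ^ N / (1 / 2 ^ v) ^ r ≤ (2 * ((r : ℝ) + 1) + 1) * (1 / 2 ^ v) := by
      rw [pow_zero, mul_one]
      nlinarith
    have g6 : 0 ≤ ((r : ℝ) + 1) * (1 / 2 ^ N / (1 / 2 ^ v) ^ r + 1 / 2 ^ v * 2 ^ 0) +
        1 / 2 ^ N / (1 / 2 ^ v) ^ r := by positivity
    refine (mul_le_mul g5 g0 (by positivity) (by positivity)).trans ?_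
    have g7 : (2 * ((r : ℝ) + 1) + 1) * (1 / 2 ^ v) * 2 ^ B =
        2 * (((r : ℝ) + 1) * (1 / (2 ^ r * 8))) + 1 / (2 ^ r * 8) := by
      rw [mul_assoc, g2]
      ring
    rw [g7]
    linarith

end Pool.STB82
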